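import Pool.Agent.Y95.ZG.Main
import Pool.Agent.Y95.MT.RHS

/-!
# The Mumford-Tate conjecture from a Hodge-Tate cocharacter
-/

set_option autoImplicit false
set_option linter.unusedSectionVars false

namespace Pool.Agent.Y95.ZG

open MvPolynomial Matrix Pool.Agent.W528.ZC Pool.Agent.Y95.MT Pool.Agent.Y95.ZL Pool.Agent
open Pool.Agent.W544.PG hiding ev

noncomputable section

variable {ℓ : ℕ} [Fact ℓ.Prime] {n r : ℕ} {κ : Type} [Fintype κ] [DecidableEq κ] {Γ : Type}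
  [Group Γ] {c : Fin n → Fin r} {T : HS n} {p q : Fin r → ℕ}
  {β : Γ →* Matrix (Fin n) (Fin n) ℚ_[ℓ]} {v : Γ →* Matrix κ κ ℚ_[ℓ]} {hV : ℂ → Matrix κ κ ℂ}

/-- A cocharacter of the monodromy group: `z` acts on the first summand with the eigenvalues `z`
and `1`, and on the second with the eigenvalues `z`, `1`, `z⁻¹`. -/
structure HTc (c : Fin n → Fin r) (p : Fin r → ℕ)
    (ρ : Γ →* Matrix (κ ⊕ Fin n) (κ ⊕ Fin n) ℚ_[ℓ])
    (E : Matrix κ κ (AlgebraicClosure ℚ_[ℓ]))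
    (P N : Matrix (Fin n) (Fin n) (AlgebraicClosure ℚ_[ℓ])) : Prop where
  EE : E * E = E
  PP : P * P = P
  NN : N * N = N
  PN : P * N = 0
  NP : N * P = 0
  trP : ∀ i, ∑ a with c a = i, P a a = (p i : AlgebraicClosure ℚ_[ℓ])
  trN : ∀ i, ∑ a with c a = i, N a a = (p i : AlgebraicClosure ℚ_[ℓ])
  mem : ∀ z : AlgebraicClosure ℚ_[ℓ], z ≠ 0 →
    InG0 ρ (fromBlocks (1 + (z - 1) • E) 0 0 (1 + (z - 1) • P + (z⁻¹ - 1) • N))

variable {E : Matrix κ κ (AlgebraicClosure ℚ_[ℓ])}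
  {P N : Matrix (Fin n) (Fin n) (AlgebraicClosure ℚ_[ℓ])}

theorem HTc.sq (h : HTc c p (tot2 v β) E P N) : (P - N) * (P - N) = P + N := by
  simp only [Matrix.sub_mul, Matrix.mul_sub, h.PP, h.NN, h.PN, h.NP]
  abel

theorem HTc.cube (h : HTc c p (tot2 v β) E P N) : (P - N) * (P - N) * (P - N) = P - N := by
  rw [h.sq]
  simp only [Matrix.add_mul, Matrix.mul_sub, h.PP, h.NN, h.PN, h.NP]
  abel

theorem HTc.x3 (h : HTc c p (tot2 v β) E P N) :
    fromBlocks E 0 0 (P - N) * fromBlocks E 0 0 (P - N) * fromBlocks E 0 0 (P - N) =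
      fromBlocks E 0 0 (P - N) := by
  rw [MT.fb_mul, MT.fb_mul, h.cube, h.EE, h.EE]

theorem HTc.pw (h : HTc c p (tot2 v β) E P N) (z : AlgebraicClosure ℚ_[ℓ]) :
    pw F3 (E3 (fromBlocks E 0 0 (P - N))) z =
      fromBlocks (1 + (z - 1) • E) 0 0 (1 + (z - 1) • P + (z⁻¹ - 1) • N) := by
  rw [pw3, MT.fb_mul, h.EE, h.sq]
  have h1 : (1 : Matrix (κ ⊕ Fin n) (κ ⊕ Fin n) (AlgebraicClosure ℚ_[ℓ])) = fromBlocks 1 0 0 1 :=
    Matrix.fromBlocks_one.symm
  rw [h1, Matrix.fromBlocks_add, sub_eq_add_neg (fromBlocks E 0 0 (P + N)), Matrix.fromBlocks_neg,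
    Matrix.fromBlocks_add, Matrix.fromBlocks_smul, Matrix.fromBlocks_smul, Matrix.fromBlocks_add,
    Matrix.fromBlocks_add, Matrix.fromBlocks_inj]
  have h2 : (2 : AlgebraicClosure ℚ_[ℓ]) ≠ 0 := two_ne_zero
  refine ⟨?_, by simp, by simp, ?_⟩
  · rw [add_neg_cancel, smul_zero, add_zero, ← two_smul (AlgebraicClosure ℚ_[ℓ]) E, smul_smul,
      div_mul_cancel₀ _ h2]
  · have h3 : P + N + (P - N) = (2 : AlgebraicClosure ℚ_[ℓ]) • P := by module
    have h4 : P + N + -(P - N) = (2 : AlgebraicClosure ℚ_[ℓ]) • N := by module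
    rw [h3, h4, smul_smul, smul_smul, div_mul_cancel₀ _ h2, div_mul_cancel₀ _ h2]

/-- the element of the Lie algebra -/
theorem HTc.lie (h : HTc c p (tot2 v β) E P N) (e : AlgebraicClosure ℚ_[ℓ] →+* ℂ) :
    dg (E.map e) ((P - N).map e) ∈
      LS (IG (tot2 v β) (e.comp (algebraMap ℚ_[ℓ] (AlgebraicClosure ℚ_[ℓ])))) := by
  have h1 := coch_LS (ρ := tot2 v β) (j := algebraMap ℚ_[ℓ] (AlgebraicClosure ℚ_[ℓ])) e h.x3
    fun z hz => by
      rw [h.pw]
      exact h.mem z hz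
  rw [fb_map] at h1
  exact h1

theorem HTc.trD (h : HTc c p (tot2 v β) E P N) (e : AlgebraicClosure ℚ_[ℓ] →+* ℂ) (i : Fin r) :
    ∑ a with c a = i, ((P - N).map e * (P - N).map e) a a = 2 * (p i : ℂ) := by
  rw [← Matrix.map_mul, h.sq]
  have h1 : ∑ a with c a = i, ((P + N).map e) a a =
      e (∑ a with c a = i, P a a) + e (∑ a with c a = i, N a a) := by
    rw [map_sum, map_sum, ← Finset.sum_add_distrib]
    refine Finset.sum_congr rfl fun a _ => ?_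
    rw [Matrix.map_apply, Matrix.add_apply, map_add]
  rw [h1, h.trP, h.trN, map_natCast]
  ring

theorem HTc.cubeC (h : HTc c p (tot2 v β) E P N) (e : AlgebraicClosure ℚ_[ℓ] →+* ℂ) :
    (P - N).map e * (P - N).map e * (P - N).map e = (P - N).map e := by
  rw [← Matrix.map_mul, ← Matrix.map_mul, h.cube]

/-- the Lie algebra has no first component if the first representation has finite image -/
theorem lie_fin (hv : (Set.range v).Finite) {e : ℚ_[ℓ] →+* ℂ} {y : Matrix κ κ ℂ}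
    {Z : Matrix (Fin n) (Fin n) ℂ} (hy : dg y Z ∈ LS (IG (tot2 v β) e)) : y = 0 := by
  have hfin : v.toHomUnits.ker.FiniteIndex := by
    have h2 : Finite v.toHomUnits.range := by
      have h3 : Set.MapsTo (fun u : (Matrix κ κ ℚ_[ℓ])ˣ => (u : Matrix κ κ ℚ_[ℓ]))
          (v.toHomUnits.range : Set (Matrix κ κ ℚ_[ℓ])ˣ) (Set.range v) := by
        rintro _ ⟨s, rfl⟩
        exact ⟨s, (MonoidHom.coe_toHomUnits v s).symm⟩
      exact hv.of_injOn h3 (fun x _ y _ hxy => Units.ext hxy)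
    infer_instance
  ext a b
  have h := lie_rel hy (f := X (Sum.inl a, Sum.inl b) - C ((1 : Matrix κ κ ℂ) a b))
    ⟨v.toHomUnits.ker, hfin, fun s hs => by
      rw [MonoidHom.mem_ker, Units.ext_iff, MonoidHom.coe_toHomUnits] at hs
      rw [map_sub, ev_X, ev_C, tot2_apply]
      change e (v s a b) - _ = 0
      rw [hs, Units.val_one, Matrix.one_apply, Matrix.one_apply]
      split_ifs <;> simp⟩
  rw [map_sub, map_sub, ev_D_X, ev_D_C, sub_zero, one_mul] at h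
  exact h

theorem HTc.SO (hB : T.Big c p q) (hcop : ∀ i, Nat.Coprime (p i) (q i)) (hg : GalQ c T.Q β)
    (h : HTc c p (tot2 v β) E P N) (hcase : (Set.range v).Finite ∨ ∀ i, 2 ≤ p i)
    (hfull : Full c β) (t : Matrix (Fin n) (Fin n) (AlgebraicClosure ℚ_[ℓ]))
    (ht : InSO c T.Q t) :
    fromBlocks 1 0 0 t ∈ St (IG (tot2 v β) (algebraMap ℚ_[ℓ] (AlgebraicClosure ℚ_[ℓ]))) := by
  obtain ⟨e⟩ := exists_emb ℓ
  refine SO_of_full hB hcop hg hfull e (h.cubeC e) (h.trD e) (h.lie e) ?_ ht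
  rcases hcase with hv | hp
  · exact Or.inl fun y Z hy => lie_fin hv hy
  · refine Or.inr ⟨hp, ?_⟩
    rw [← Matrix.map_mul, h.EE]

/-- **The Mumford-Tate conjecture for the second cohomology**: it is equivalent to the statement
on forms in two variables. -/
theorem main_H2 (hB : T.Big c p q) (hcop : ∀ i, Nat.Coprime (p i) (q i)) (hg : GalQ c T.Q β)
    (h : HTc c p (tot2 v β) E P N) (hv : (Set.range v).Finite) :
    MTC (hM (fun _ => (1 : Matrix κ κ ℂ)) T) (tot2 v β) ↔ SSr β ∧ Com c β := by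
  rw [main2 hB (fun _ _ => by rw [Matrix.det_one]; exact one_ne_zero) star_N hg
    (h.SO hB hcop hg (Or.inl hv))]
  exact ⟨fun h => h.2, fun h => ⟨MTC_N hv, h⟩⟩

/-- the condition on the commutants in terms of bilinear forms -/
theorem Com_iff (hbQ : BD c T.Q)
    (hβ : ∀ σ, (β σ)ᵀ * T.Q.map (algebraMap ℚ ℚ_[ℓ]) * β σ = T.Q.map (algebraMap ℚ ℚ_[ℓ]))
    (hc : ∀ σ, BD c (β σ)) :
    Com c β ↔ ∀ Δ : Subgroup Γ, Δ.FiniteIndex → ∀ F : Matrix (Fin n) (Fin n) ℚ_[ℓ],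
      (∀ σ ∈ Δ, (β σ)ᵀ * F * β σ = F) →
      ∃ z : Fin r → ℚ_[ℓ], ∀ a b, F a b = z (c a) * T.Q.map (algebraMap ℚ ℚ_[ℓ]) a b := by
  have hQd : (T.Q.map (algebraMap ℚ ℚ_[ℓ])).det ≠ 0 := by
    have h2 : (T.Q.map (algebraMap ℚ ℚ_[ℓ])).det = algebraMap ℚ ℚ_[ℓ] T.Q.det :=
      ((algebraMap ℚ ℚ_[ℓ]).map_det T.Q).symm
    rw [h2]
    exact (map_ne_zero _).2 (W74.PG.det_ne T)
  have hQb : BD c (T.Q.map (algebraMap ℚ ℚ_[ℓ])) := fun x y h => by
    rw [Matrix.map_apply, hbQ x y h, map_zero]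
  generalize T.Q.map (algebraMap ℚ ℚ_[ℓ]) = B at hβ hQd hQb
  have hu : IsUnit B.det := isUnit_iff_ne_zero.2 hQd
  have hinv : ∀ σ, β σ * β σ⁻¹ = 1 := fun σ => by rw [← map_mul, mul_inv_cancel, map_one]
  have hinv' : ∀ σ, β σ⁻¹ * β σ = 1 := fun σ => by rw [← map_mul, inv_mul_cancel, map_one]
  -- `B β = β⁻ᵀ B`
  have hB1 : ∀ σ, B * β σ = (β σ⁻¹)ᵀ * B := by
    intro σ
    calc B * β σ = ((β σ * β σ⁻¹)ᵀ) * (B * β σ) := by
          rw [hinv, Matrix.transpose_one, Matrix.one_mul]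
      _ = (β σ⁻¹)ᵀ * ((β σ)ᵀ * B * β σ) := by
          rw [Matrix.transpose_mul]; simp only [Matrix.mul_assoc]
      _ = _ := by rw [hβ]
  constructor
  · intro h Δ hΔ F hF
    obtain ⟨d, hd⟩ := h Δ hΔ (B⁻¹ * F) fun s hs => by
      have h1 : F * β s = (β s⁻¹)ᵀ * F := by
        calc F * β s = ((β s * β s⁻¹)ᵀ) * (F * β s) := by
              rw [hinv, Matrix.transpose_one, Matrix.one_mul]
          _ = (β s⁻¹)ᵀ * ((β s)ᵀ * F * β s) := by
              rw [Matrix.transpose_mul]; simp only [Matrix.mul_assoc]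
          _ = _ := by rw [hF s hs]
      have h2 : B⁻¹ * (β s⁻¹)ᵀ = β s * B⁻¹ := by
        calc B⁻¹ * (β s⁻¹)ᵀ = B⁻¹ * ((β s⁻¹)ᵀ * B) * B⁻¹ := by
              rw [Matrix.mul_assoc, Matrix.mul_assoc, Matrix.mul_nonsing_inv _ hu, Matrix.mul_one]
          _ = B⁻¹ * (B * β s) * B⁻¹ := by rw [hB1]
          _ = _ := by rw [← Matrix.mul_assoc, Matrix.nonsing_inv_mul _ hu, Matrix.one_mul]
      rw [Matrix.mul_assoc, h1, ← Matrix.mul_assoc, h2, Matrix.mul_assoc]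
    refine ⟨d, fun a b => ?_⟩
    have h3 : F = B * Matrix.diagonal fun a => d (c a) := by
      rw [← hd, ← Matrix.mul_assoc, Matrix.mul_nonsing_inv _ hu, Matrix.one_mul]
    rw [h3, Matrix.mul_diagonal]
    by_cases hab : c a = c b
    · rw [hab, mul_comm]
    · rw [hQb a b hab, zero_mul, mul_zero]
  · intro h Δ hΔ M hM
    obtain ⟨z, hz⟩ := h Δ hΔ (B * M) fun σ hσ => by
      calc (β σ)ᵀ * (B * M) * β σ = (β σ)ᵀ * B * (M * β σ) := by simp only [Matrix.mul_assoc]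
        _ = (β σ)ᵀ * B * β σ * M := by rw [hM σ hσ]; simp only [Matrix.mul_assoc]
        _ = _ := by rw [hβ]
    refine ⟨z, ?_⟩
    have h3 : B * M = B * Matrix.diagonal fun a => z (c a) := by
      ext a b
      rw [hz, Matrix.mul_diagonal]
      by_cases hab : c a = c b
      · rw [hab, mul_comm]
      · rw [hQb a b hab, zero_mul, mul_zero]
    calc M = B⁻¹ * (B * M) := by rw [← Matrix.mul_assoc, Matrix.nonsing_inv_mul _ hu, Matrix.one_mul]
      _ = _ := by rw [h3, ← Matrix.mul_assoc, Matrix.nonsing_inv_mul _ hu, Matrix.one_mul]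

/-- **The Mumford-Tate conjecture for sums with a Hodge structure of abelian type.** -/
theorem main_HV (hB : T.Big c p q) (hp2 : ∀ i, 2 ≤ p i) (hcop : ∀ i, Nat.Coprime (p i) (q i))
    (V : RHS κ)
    (hShim : ∀ y ∈ lieMT V.h,
      V.X * (V.X * (V.X * y - y * V.X) - (V.X * y - y * V.X) * V.X) -
        (V.X * (V.X * y - y * V.X) - (V.X * y - y * V.X) * V.X) * V.X =
        (4 : ℂ) • (V.X * y - y * V.X))
    (hg : GalQ c T.Q β) (h : HTc c p (tot2 v β) E P N) :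
    MTC (hM V.h T) (tot2 v β) ↔ MTC V.h v ∧ SSr β ∧ Com c β := by
  refine main2 hB V.h_det ?_ hg (h.SO hB hcop hg (Or.inr hp2))
  refine star_V hB hp2 V.h_det (X_mem V T) fun y Z hy => ?_
  have h1 := hShim y (lie_of_LS V.h_det hB.bQ hB.bx hy)
  have h2 : ∀ w : Matrix κ κ ℂ, (2 : ℂ)⁻¹ • V.X * w - w * (2 : ℂ)⁻¹ • V.X =
      (2 : ℂ)⁻¹ • (V.X * w - w * V.X) := by
    intro w
    rw [Matrix.smul_mul, Matrix.mul_smul, smul_sub]
  have h3 : ∀ w : Matrix κ κ ℂ, V.X * ((2 : ℂ)⁻¹ • w) - ((2 : ℂ)⁻¹ • w) * V.X =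
      (2 : ℂ)⁻¹ • (V.X * w - w * V.X) := by
    intro w
    rw [Matrix.smul_mul, Matrix.mul_smul, smul_sub]
  rw [h2, h2, h3, h2, h3, h3, h1]
  rw [smul_smul, smul_smul, smul_smul]
  congr 1
  norm_num

end

end Pool.Agent.Y95.ZG
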