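import Pool.Agent.Y95.ZG.GenV

/-!
# The motivated Mumford-Tate conjecture for sums with a motive of abelian type
-/

set_option autoImplicit false
set_option linter.unusedSectionVars false

namespace Pool.Agent.Y95.ZG

open MvPolynomial Matrix Pool.Agent.Y95.MT Pool.Agent.Y95.ZL Pool.Agent
open Pool.Agent.W544.PG hiding ev Gr

noncomputable section

variable {ℓ : ℕ} [Fact ℓ.Prime] {n r : ℕ} {κ : Type} [Fintype κ] [DecidableEq κ] {Γ : Type}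
  [Group Γ] {c : Fin n → Fin r} {T : HS n} {p q : Fin r → ℕ}
  {β : Γ →* Matrix (Fin n) (Fin n) ℚ_[ℓ]} {v : Γ →* Matrix κ κ ℚ_[ℓ]}

/-- points of an algebraic group over the rational numbers -/
def InGp {ι : Type} [Fintype ι] [DecidableEq ι] {R : Type} [Field R] [Algebra ℚ R]
    (G : Set (Matrix ι ι ℂ)) (g : Matrix ι ι R) : Prop :=
  ∀ f : MvPolynomial (ι × ι) ℚ, (∀ m ∈ G, vQ m f = 0) → vQ g f = 0

/-- The three groups agree. -/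
def MMT {ι : Type} [Fintype ι] [DecidableEq ι] (h : ℂ → Matrix ι ι ℂ) (G : Set (Matrix ι ι ℂ))
    (ρ : Γ →* Matrix ι ι ℚ_[ℓ]) : Prop :=
  MTgroup h = G ∧ ∀ g : Matrix ι ι (AlgebraicClosure ℚ_[ℓ]), g.det ≠ 0 → (InG0 ρ g ↔ InGp G g)

theorem MMT_iff {ι : Type} [Fintype ι] [DecidableEq ι] {h : ℂ → Matrix ι ι ℂ}
    {G : Set (Matrix ι ι ℂ)} {ρ : Γ →* Matrix ι ι ℚ_[ℓ]} :
    MMT h G ρ ↔ MTgroup h = G ∧ MTC h ρ := by
  constructor
  · rintro ⟨rfl, h⟩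
    exact ⟨rfl, h⟩
  · rintro ⟨rfl, h⟩
    exact ⟨rfl, h⟩

theorem hx_V (hB : T.Big c p q) (hp2 : ∀ i, 2 ≤ p i) (V : RHS κ)
    (hShim : ∀ y ∈ lieMT V.h,
      V.X * (V.X * (V.X * y - y * V.X) - (V.X * y - y * V.X) * V.X) -
        (V.X * (V.X * y - y * V.X) - (V.X * y - y * V.X) * V.X) * V.X =
        (4 : ℂ) • (V.X * y - y * V.X)) :
    fromBlocks 0 0 0 T.x ∈ LS (SH (hM V.h T)) := by
  refine star_V hB hp2 V.h_det (X_mem V T) fun y Z hy => ?_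
  have h1 := hShim y (lie_of_LS V.h_det hB.bQ hB.bx hy)
  have h2 : ∀ w : Matrix κ κ ℂ, (2 : ℂ)⁻¹ • V.X * w - w * (2 : ℂ)⁻¹ • V.X =
      (2 : ℂ)⁻¹ • (V.X * w - w * V.X) := by
    intro w
    rw [Matrix.smul_mul, Matrix.mul_smul, smul_sub]
  have h3 : ∀ w : Matrix κ κ ℂ, V.X * ((2 : ℂ)⁻¹ • w) - ((2 : ℂ)⁻¹ • w) * V.X =
      (2 : ℂ)⁻¹ • (V.X * w - w * V.X) := by
    intro w
    rw [Matrix.smul_mul, Matrix.mul_smul, smul_sub]
  rw [h2, h2, h3, h2, h3, h3, h1]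
  rw [smul_smul, smul_smul, smul_smul]
  congr 1
  norm_num

/-- **the motivated Mumford-Tate conjecture for a direct sum** -/
theorem mot (hB : T.Big c p q) (hp2 : ∀ i, 2 ≤ p i) (V : RHS κ)
    (hShim : ∀ y ∈ lieMT V.h,
      V.X * (V.X * (V.X * y - y * V.X) - (V.X * y - y * V.X) * V.X) -
        (V.X * (V.X * y - y * V.X) - (V.X * y - y * V.X) * V.X) * V.X =
        (4 : ℂ) • (V.X * y - y * V.X))
    (hmain : MTC (hM V.h T) (tot2 v β) ↔ MTC V.h v ∧ SSr β ∧ Com c β)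
    {G : Set (Matrix (κ ⊕ Fin n) (κ ⊕ Fin n) ℂ)} (hG : IsQGroup G)
    (hh : ∀ z, z ≠ 0 → hM V.h T z ∈ G)
    (hb : ∀ g ∈ G, ∃ x t, g = fromBlocks x 0 0 t ∧
      tᵀ * T.Q.map (algebraMap ℚ ℂ) * t = T.Q.map (algebraMap ℚ ℂ) ∧ BD c t) :
    MMT (hM V.h T) G (tot2 v β) ↔ MMT V.h {x | ∃ t, fromBlocks x 0 0 t ∈ G} v ∧
      (∀ x t, fromBlocks x 0 0 t ∈ G → ∀ i, (bl c i t).det = 1) ∧ SSr β ∧ Com c β := by
  have hx := hx_V hB hp2 V hShim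
  rw [MMT_iff, MMT_iff, hmain]
  constructor
  · rintro ⟨hE, h1, h2, h3⟩
    refine ⟨⟨?_, h1⟩, ?_, h2, h3⟩
    · ext x
      constructor
      · intro hxv
        refine ⟨1, ?_⟩
        rw [← hE]
        exact MT_eq (c := c) hB V.h_det hx hxv (InSO_one _)
      · rintro ⟨t, ht⟩
        rw [← hE] at ht
        obtain ⟨x', t', h4, h5, -⟩ := MT_le (c := c) V.h_det hB.bQ hB.bx ht
        rw [Matrix.fromBlocks_inj] at h4
        rw [h4.1]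
        exact h5
    · intro x t hxt i
      rw [← hE] at hxt
      obtain ⟨x', t', h4, -, h5⟩ := MT_le (c := c) V.h_det hB.bQ hB.bx hxt
      rw [Matrix.fromBlocks_inj] at h4
      rw [h4.2.2.2]
      exact h5.2.2 i
  · rintro ⟨⟨hE, h1⟩, hd, h2, h3⟩
    refine ⟨Set.Subset.antisymm (fun g hg => hg G hG hh) fun g hg => ?_, h1, h2, h3⟩
    obtain ⟨x, t, rfl, h4, h5⟩ := hb g hg
    refine MT_eq (c := c) hB V.h_det hx ?_ ⟨h4, h5, hd x t hg⟩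
    rw [hE]
    exact ⟨t, hg⟩

end

end Pool.Agent.Y95.ZG
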