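import Pool.Agent.Y95.ZG.Gou

/-!
# Lie algebras normalised by a group with large algebra: the theorem for direct sums
-/

open Matrix Finset Module

namespace Pool.Agent.Y95.ZG

open Pool.Agent.W544.PG Pool.Agent.Y95.ZL Pool.Agent

noncomputable section

variable {n r : ℕ} {T : HS n} {c : Fin n → Fin r} {p q : Fin r → ℕ} {Γ : Type} [Group Γ]

/-- the restriction of the representation to a block -/
def rb {k : ℕ} {e : Fin k → Fin n} {i : Fin r} (he : Enum c e i)
    (b : Γ →* Matrix (Fin n) (Fin n) ℂ) (hb : ∀ s, BD c (b s)) :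
    Γ →* Matrix (Fin k) (Fin k) ℂ where
  toFun s := (b s).submatrix e e
  map_one' := by
    rw [map_one]
    ext x y
    rw [Matrix.submatrix_apply, Matrix.one_apply, Matrix.one_apply]
    simp [he.inj.eq_iff]
  map_mul' s t := by
    rw [map_mul, he.sub_mul (hb t)]

theorem rb_apply {k : ℕ} {e : Fin k → Fin n} {i : Fin r} (he : Enum c e i)
    (b : Γ →* Matrix (Fin n) (Fin n) ℂ) (hb : ∀ s, BD c (b s)) (s : Γ) :
    rb he b hb s = (b s).submatrix e e := rfl

theorem sel_BD' {k : ℕ} {e : Fin k → Fin n} {i : Fin r} (he : Enum c e i)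
    (Y : Matrix (Fin k) (Fin k) ℂ) : BD c (sel e * Y * (sel e)ᵀ) := by
  intro a b hab
  rw [Matrix.mul_apply]
  refine Finset.sum_eq_zero fun l _ => ?_
  by_cases ha : c a = i
  · have h2 : (sel e)ᵀ l b = 0 := by
      rw [Matrix.transpose_apply, sel, Matrix.of_apply, if_neg]
      rintro rfl
      exact hab (by rw [ha, he.col])
    rw [h2, mul_zero]
  · have h2 : (sel e * Y) a l = 0 := by
      rw [Matrix.mul_apply]
      refine Finset.sum_eq_zero fun l' _ => ?_
      have h3 : sel e a l' = 0 := by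
        rw [sel, Matrix.of_apply, if_neg]
        rintro rfl
        exact ha (he.col _)
      rw [h3, zero_mul]
    rw [h2, zero_mul]

theorem sel_sub' {k : ℕ} {e : Fin k → Fin n} {i : Fin r} (he : Enum c e i)
    (Y : Matrix (Fin k) (Fin k) ℂ) : (sel e * Y * (sel e)ᵀ).submatrix e e = Y := by
  rw [sub_eq]
  calc (sel e)ᵀ * (sel e * Y * (sel e)ᵀ) * sel e = ((sel e)ᵀ * sel e) * Y * ((sel e)ᵀ * sel e) := by
        simp only [Matrix.mul_assoc]
    _ = Y := by rw [sel_T_sel _ he.inj, Matrix.one_mul, Matrix.mul_one]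

theorem Full.sirr {b : Γ →* Matrix (Fin n) (Fin n) ℂ} (hfull : Full c b) (hb : ∀ s, BD c (b s))
    {k : ℕ} {e : Fin k → Fin n} {i : Fin r} (he : Enum c e i) : SIrr (rb he b hb) := by
  intro Δ hΔ W hW
  refine irr_of_all W fun Y w hw => ?_
  have h1 := hfull Δ hΔ _ (sel_BD' he Y)
  have h2 : ∀ X ∈ Submodule.span ℂ {y | ∃ s ∈ Δ, y = b s}, (X.submatrix e e) *ᵥ w ∈ W := by
    intro X hX
    induction hX using Submodule.span_induction with
    | mem X h =>
      obtain ⟨s, hs, rfl⟩ := h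
      exact hW s hs w hw
    | zero =>
      rw [Matrix.submatrix_zero]
      change (0 : Matrix (Fin k) (Fin k) ℂ) *ᵥ w ∈ W
      rw [Matrix.zero_mulVec]
      exact W.zero_mem
    | add x y _ _ hx hy =>
      rw [Matrix.submatrix_add]
      change (x.submatrix e e + y.submatrix e e) *ᵥ w ∈ W
      rw [Matrix.add_mulVec]
      exact W.add_mem hx hy
    | smul z x _ hx =>
      rw [Matrix.submatrix_smul]
      change (z • x.submatrix e e) *ᵥ w ∈ W
      rw [Matrix.smul_mulVec]
      exact W.smul_mem z hx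
  have h3 := h2 _ h1
  rwa [sel_sub' he] at h3

theorem sub_trace {k : ℕ} {e : Fin k → Fin n} {i : Fin r} (he : Enum c e i)
    (A : Matrix (Fin n) (Fin n) ℂ) :
    (A.submatrix e e).trace = ∑ a with c a = i, A a a := by
  rw [Matrix.trace]
  simp only [Matrix.diag_apply, Matrix.submatrix_apply]
  have h1 : (univ.filter fun a => c a = i) = univ.image e := by
    ext a
    simp only [Finset.mem_filter, Finset.mem_univ, true_and, Finset.mem_image]
    constructor
    · intro h
      exact he.surj a h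
    · rintro ⟨j, rfl⟩
      exact he.col j
  rw [h1, Finset.sum_image (fun x _ y _ h => he.inj h)]

/-- a single block -/
theorem blk_full {hh0 : Submodule ℂ (Matrix (Fin n) (Fin n) ℂ)} (hB : T.Big c p q)
    (hcop : ∀ i, Nat.Coprime (p i) (q i)) {b : Γ →* Matrix (Fin n) (Fin n) ℂ}
    (hb : ∀ s, BD c (b s)) (hfull : Full c b) (hbd : ∀ y ∈ hh0, BD c y)
    (hsk : ∀ y ∈ hh0, yᵀ * mC T.Q + mC T.Q * y = 0)
    (hli : ∀ y ∈ hh0, ∀ z ∈ hh0, y * z - z * y ∈ hh0) (hst : Stb b hh0)
    {D : Matrix (Fin n) (Fin n) ℂ} (hD : D * D * D = D) (hDh : D ∈ hh0)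
    (hDt : ∀ i, ∑ a with c a = i, (D * D) a a = 2 * (p i : ℂ)) {i : Fin r}
    {e : Fin (2 * p i + q i) → Fin n} {T' : HS (2 * p i + q i)} (bk : Blk T c i e T')
    (Z : Matrix (Fin (2 * p i + q i)) (Fin (2 * p i + q i)) ℂ)
    (hZ : Zᵀ * mC T'.Q + mC T'.Q * Z = 0) : ∃ y ∈ hh0, y.submatrix e e = Z := by
  have hbD := hbd D hDh
  have hp : 0 < p i := by
    rcases hB.num i with h' | h'
    · omega
    · exact h'.1
  have hq : 0 < q i := by
    rcases hB.num i with h' | ⟨h0, h'⟩
    · exact h'.2.1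
    · by_contra hq0
      have : q i - 2 * p i = 0 := by omega
      rw [this, zero_mul] at h'
      omega
  have hcond : p i = 1 ∨ 2 * p i ^ 2 * (p i ^ 2 + 1) < (q i - 2 * p i) * (q i + p i) := by
    rcases hB.num i with h' | h'
    · exact Or.inl h'.1
    · exact Or.inr h'.2
  have hdet : (mC T'.Q).det ≠ 0 := by
    intro h
    apply W74.PG.det_ne T'
    have h1 : (mC T'.Q).det = ((T'.Q.det : ℚ) : ℂ) := by
      have h2 := (Rat.castHom ℂ).map_det T'.Q
      exact h2.symm
    rw [h1] at h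
    exact_mod_cast h
  have h0 := core_Q (hfull.sirr hb bk.en) (Q := mC T'.Q) (D := D.submatrix e e)
    (by rw [mC_T, T'.symm]) hdet
    (by rw [← bk.en.sub_mul hbD, ← bk.en.sub_mul hbD, hD])
    (by rw [← bk.en.sub_mul hbD, sub_trace bk.en, hDt])
    (by ring) hp hq hcond (hcop i) (h := hh0.map (subL e)) ?_ ?_ ?_ ?_ Z hZ
  · obtain ⟨y, hy, hyZ⟩ := h0
    exact ⟨y, hy, hyZ⟩
  · rintro γ _ ⟨y, hy, rfl⟩
    refine ⟨_, hst γ y hy, ?_⟩
    change (b γ * y * b γ⁻¹).submatrix e e = (b γ).submatrix e e * y.submatrix e e *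
      (b γ⁻¹).submatrix e e
    rw [← bk.en.sub_mul (hbd y hy), ← bk.en.sub_mul (hb _)]
  · rintro _ ⟨y, hy, rfl⟩
    exact bk.skew hB (hsk y hy)
  · rintro _ ⟨y, hy, rfl⟩ _ ⟨z, hz, rfl⟩
    refine ⟨y * z - z * y, hli y hy z hz, ?_⟩
    change (y * z - z * y).submatrix e e = y.submatrix e e * z.submatrix e e -
      z.submatrix e e * y.submatrix e e
    rw [← bk.en.sub_mul (hbd z hz), ← bk.en.sub_mul (hbd y hy)]
    rfl
  · exact ⟨D, hDh, rfl⟩

/-- **the theorem on Lie algebras of direct sums** -/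
theorem galG {hh0 : Submodule ℂ (Matrix (Fin n) (Fin n) ℂ)} (hB : T.Big c p q)
    (hcop : ∀ i, Nat.Coprime (p i) (q i)) {b : Γ →* Matrix (Fin n) (Fin n) ℂ}
    (hb : ∀ s, BD c (b s)) (hbQ : ∀ s, (b s)ᵀ * mC T.Q * b s = mC T.Q) (hfull : Full c b)
    (hbd : ∀ y ∈ hh0, BD c y)
    (hsk : ∀ y ∈ hh0, yᵀ * mC T.Q + mC T.Q * y = 0)
    (hli : ∀ y ∈ hh0, ∀ z ∈ hh0, y * z - z * y ∈ hh0) (hst : Stb b hh0)
    {D : Matrix (Fin n) (Fin n) ℂ} (hD : D * D * D = D) (hDh : D ∈ hh0)
    (hDt : ∀ i, ∑ a with c a = i, (D * D) a a = 2 * (p i : ℂ))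
    (Z : Matrix (Fin n) (Fin n) ℂ)
    (hZ : Zᵀ * mC T.Q + mC T.Q * Z = 0) (hZc : BD c Z) : Z ∈ hh0 := by
  choose e T' bk using fun i => exists_blk W571.PG.sub hB i
  have hbD := hbd D hDh
  have hdet : ∀ i, (mC (T' i).Q).det ≠ 0 := by
    intro i h
    apply W74.PG.det_ne (T' i)
    have h1 : (mC (T' i).Q).det = (((T' i).Q.det : ℚ) : ℂ) := by
      have h2 := (Rat.castHom ℂ).map_det (T' i).Q
      exact h2.symm
    rw [h1] at h
    exact_mod_cast h
  have horth : ∀ i, ∃ g : Matrix (Fin (2 * p i + q i)) (Fin (2 * p i + q i)) ℂ,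
      gᵀ * mC (T' i).Q * g = 1 := fun i => W557.PG.orth _ (by rw [mC_T, (T' i).symm]) (hdet i)
  choose g hg using horth
  obtain ⟨g', hg'⟩ : ∃ g' : ∀ i, Matrix (Fin (2 * p i + q i)) (Fin (2 * p i + q i)) ℂ,
      g' = fun i => (g i)ᵀ * mC (T' i).Q := ⟨_, rfl⟩
  have e1 : ∀ i, g' i * g i = 1 := fun i => by rw [hg']; exact hg i
  have e2 : ∀ i, g i * g' i = 1 := fun i => mul_eq_one_comm.1 (e1 i)
  -- skewness in the new coordinates
  have sk1 : ∀ i (y : Matrix (Fin (2 * p i + q i)) (Fin (2 * p i + q i)) ℂ),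
      yᵀ * mC (T' i).Q + mC (T' i).Q * y = 0 → (g' i * y * g i)ᵀ = -(g' i * y * g i) := by
    intro i y hy
    have h1 := cc_skew (e2 i) (mC (T' i).Q) y hy
    rw [hg i, Matrix.mul_one, Matrix.one_mul] at h1
    exact eq_neg_of_add_eq_zero_left h1
  have t3 : ∀ i, (g i)ᵀ * mC (T' i).Q = g' i := fun i => by rw [hg']
  have t1 : ∀ i, (g i)ᵀ * (g' i)ᵀ = 1 := fun i => by
    rw [← Matrix.transpose_mul, e1, Matrix.transpose_one]
  have t2 : ∀ i, (g' i)ᵀ * (g i)ᵀ = 1 := fun i => by
    rw [← Matrix.transpose_mul, e2, Matrix.transpose_one]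
  have t4 : ∀ i, mC (T' i).Q * g i = (g' i)ᵀ := by
    intro i
    calc mC (T' i).Q * g i = (g' i)ᵀ * (g i)ᵀ * (mC (T' i).Q * g i) := by
          rw [t2, Matrix.one_mul]
      _ = (g' i)ᵀ * ((g i)ᵀ * mC (T' i).Q * g i) := by simp only [Matrix.mul_assoc]
      _ = (g' i)ᵀ := by rw [hg i, Matrix.mul_one]
  have sk2 : ∀ i (y : Matrix (Fin (2 * p i + q i)) (Fin (2 * p i + q i)) ℂ),
      yᵀ = -y → (g i * y * g' i)ᵀ * mC (T' i).Q + mC (T' i).Q * (g i * y * g' i) = 0 := by
    intro i y hy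
    have h1 : (g i * y * g' i)ᵀ * mC (T' i).Q = -(mC (T' i).Q * (g i * y * g' i)) := by
      rw [Matrix.transpose_mul, Matrix.transpose_mul, hy]
      calc (g' i)ᵀ * (-y * (g i)ᵀ) * mC (T' i).Q = -((g' i)ᵀ * y * ((g i)ᵀ * mC (T' i).Q)) := by
            simp only [Matrix.mul_assoc, Matrix.neg_mul, Matrix.mul_neg]
        _ = -((g' i)ᵀ * y * g' i) := by rw [t3]
        _ = -(mC (T' i).Q * (g i * y * g' i)) := by
            rw [← t4]
            simp only [Matrix.mul_assoc]
    rw [h1, neg_add_cancel]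
  -- the action of the group in the new coordinates
  obtain ⟨o, ho⟩ : ∃ o : ∀ i, Γ → Matrix (Fin (2 * p i + q i)) (Fin (2 * p i + q i)) ℂ,
      o = fun i γ => g' i * (b γ).submatrix (e i) (e i) * g i := ⟨_, rfl⟩
  have hbQi : ∀ i γ, ((b γ).submatrix (e i) (e i))ᵀ * mC (T' i).Q *
      (b γ).submatrix (e i) (e i) = mC (T' i).Q := by
    intro i γ
    have h1 : mC (T' i).Q = (mC T.Q).submatrix (e i) (e i) := by rw [(bk i).Q]; rfl
    rw [h1, Matrix.transpose_submatrix, ← (bk i).en.sub_mul hB.bQ.mC,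
      ← (bk i).en.sub_mul (hb γ), hbQ]
  have ho1 : ∀ i γ, (o i γ)ᵀ * o i γ = 1 := by
    intro i γ
    rw [ho]
    change (g' i * (b γ).submatrix (e i) (e i) * g i)ᵀ * (g' i * (b γ).submatrix (e i) (e i) * g i)
      = 1
    rw [Matrix.transpose_mul, Matrix.transpose_mul]
    calc (g i)ᵀ * (((b γ).submatrix (e i) (e i))ᵀ * (g' i)ᵀ) *
          (g' i * (b γ).submatrix (e i) (e i) * g i) =
        (g i)ᵀ * (((b γ).submatrix (e i) (e i))ᵀ * (((g' i)ᵀ * g' i) *
          (b γ).submatrix (e i) (e i))) * g i := by simp only [Matrix.mul_assoc]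
      _ = (g i)ᵀ * (((b γ).submatrix (e i) (e i))ᵀ * mC (T' i).Q *
          (b γ).submatrix (e i) (e i)) * g i := by
          rw [← t4, Matrix.mul_assoc (mC (T' i).Q), e2, Matrix.mul_one]
          simp only [Matrix.mul_assoc]
      _ = 1 := by rw [hbQi, hg]
  have ho2 : ∀ i γ, o i γ * (o i γ)ᵀ = 1 := fun i γ => mul_eq_one_comm.1 (ho1 i γ)
  have hom : ∀ i γ δ, o i (γ * δ) = o i γ * o i δ := by
    intro i γ δ
    rw [ho]
    change g' i * (b (γ * δ)).submatrix (e i) (e i) * g i =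
      g' i * (b γ).submatrix (e i) (e i) * g i * (g' i * (b δ).submatrix (e i) (e i) * g i)
    rw [cc_mul' (e2 i), map_mul, (bk i).en.sub_mul (hb δ)]
  have hoi : ∀ i γ, o i γ⁻¹ = (o i γ)ᵀ := by
    intro i γ
    have h1 : o i 1 = 1 := by
      have h2 := hom i 1 1
      rw [mul_one] at h2
      calc o i 1 = (o i 1)ᵀ * (o i 1 * o i 1) := by
            rw [← Matrix.mul_assoc, ho1, Matrix.one_mul]
        _ = 1 := by rw [← h2, ho1]
    calc o i γ⁻¹ = (o i γ)ᵀ * o i γ * o i γ⁻¹ := by rw [ho1, Matrix.one_mul]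
      _ = (o i γ)ᵀ := by rw [Matrix.mul_assoc, ← hom, mul_inv_cancel, h1, Matrix.mul_one]
  obtain ⟨h, hh⟩ : ∃ h, h = hh0.map (phi e g g') := ⟨_, rfl⟩
  have mem : ∀ y ∈ hh0, phi e g g' y ∈ h := fun y hy => by
    rw [hh]; exact ⟨y, hy, rfl⟩
  have A1 : ∀ y ∈ h, ∀ i, (y i)ᵀ = -y i := by
    rw [hh]
    rintro _ ⟨y, hy, rfl⟩ i
    exact sk1 i _ ((bk i).skew hB (hsk y hy))
  have A2 : ∀ y ∈ h, ∀ z ∈ h, (fun i => br (y i) (z i)) ∈ h := by
    rw [hh]
    rintro _ ⟨y, hy, rfl⟩ _ ⟨z, hz, rfl⟩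
    refine ⟨y * z - z * y, hli y hy z hz, ?_⟩
    funext i
    change g' i * (y * z - z * y).submatrix (e i) (e i) * g i =
      g' i * y.submatrix (e i) (e i) * g i * (g' i * z.submatrix (e i) (e i) * g i) -
      g' i * z.submatrix (e i) (e i) * g i * (g' i * y.submatrix (e i) (e i) * g i)
    rw [cc_mul' (e2 i), cc_mul' (e2 i), ← (bk i).en.sub_mul (hbd z hz),
      ← (bk i).en.sub_mul (hbd y hy), ← Matrix.sub_mul, ← Matrix.mul_sub]
    rfl
  have A3 : ∀ (i : Fin r) (Z : Matrix (Fin (2 * p i + q i)) (Fin (2 * p i + q i)) ℂ),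
      Zᵀ = -Z → ∃ y ∈ h, y i = Z := by
    intro i Z hZ
    obtain ⟨y, hy, hyZ⟩ := blk_full hB hcop hb hfull hbd hsk hli hst hD hDh hDt (bk i) _
      (sk2 i Z hZ)
    refine ⟨_, mem y hy, ?_⟩
    change g' i * y.submatrix (e i) (e i) * g i = Z
    rw [hyZ]
    exact cc_fwd (e1 i) Z
  have A5 : ∀ y ∈ h, ∀ γ, (fun i => o i γ * y i * (o i γ)ᵀ) ∈ h := by
    rw [hh]
    rintro _ ⟨y, hy, rfl⟩ γ
    refine ⟨b γ * y * b γ⁻¹, hst γ y hy, ?_⟩
    funext i
    rw [← hoi, ho]
    change g' i * (b γ * y * b γ⁻¹).submatrix (e i) (e i) * g i =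
      g' i * (b γ).submatrix (e i) (e i) * g i * (g' i * y.submatrix (e i) (e i) * g i) *
      (g' i * (b γ⁻¹).submatrix (e i) (e i) * g i)
    rw [cc_mul' (e2 i), cc_mul' (e2 i), ← (bk i).en.sub_mul (hbd y hy),
      ← (bk i).en.sub_mul (hb _)]
  have hm : ∀ i, 3 ≤ 2 * p i + q i ∧ 2 * p i + q i ≠ 4 ∧ (p i = 1 ∨ 2 * p i + q i ≠ 8) := by
    intro i
    rcases hB.num i with h | ⟨h0, h⟩
    · omega
    · have hlt : 2 * p i < q i := by
        by_contra h'
        rw [Nat.sub_eq_zero_of_le (not_lt.1 h'), zero_mul] at h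
        omega
      omega
  have A4 : ∀ i j, i ≠ j → ∃ y ∈ h, y i = 0 ∧ y j ≠ 0 := by
    intro i j hij
    by_contra hcon
    push Not at hcon
    obtain ⟨θ, hθ⟩ := exists_theta h (LinearMap.proj (R := ℂ)
      (φ := fun i : Fin r => Matrix (Fin (2 * p i + q i)) (Fin (2 * p i + q i)) ℂ) i)
      (LinearMap.proj (R := ℂ)
      (φ := fun i : Fin r => Matrix (Fin (2 * p i + q i)) (Fin (2 * p i + q i)) ℂ) j) hcon
    replace hθ : ∀ y ∈ h, θ (y i) = y j := hθ
    have hbr : ∀ y z, yᵀ = -y → zᵀ = -z → θ (br y z) = br (θ y) (θ z) := by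
      intro y z hy hz
      obtain ⟨Y, hY, rfl⟩ := A3 i y hy
      obtain ⟨W, hW, rfl⟩ := A3 i z hz
      have h1 := hθ _ (A2 Y hY W hW)
      rw [hθ Y hY, hθ W hW]
      exact h1
    have hinj : ∀ y, yᵀ = -y → θ y = 0 → y = 0 := by
      intro y hy hy0
      by_contra hne
      have hall : ∀ Z : Matrix (Fin (2 * p i + q i)) (Fin (2 * p i + q i)) ℂ, Zᵀ = -Z →
          θ Z = 0 := by
        intro Z hZ
        let J : Submodule ℂ (Matrix (Fin (2 * p i + q i)) (Fin (2 * p i + q i)) ℂ) :=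
          { carrier := {y | yᵀ = -y ∧ θ y = 0}
            zero_mem' := by simp
            add_mem' := by
              rintro a b ⟨ha, ha'⟩ ⟨hb, hb'⟩
              refine ⟨?_, ?_⟩
              · rw [Matrix.transpose_add, ha, hb]; abel
              · rw [map_add, ha', hb', add_zero]
            smul_mem' := by
              rintro z a ⟨ha, ha'⟩
              refine ⟨?_, ?_⟩
              · rw [Matrix.transpose_smul, ha, smul_neg]
              · rw [map_smul, ha', smul_zero] }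
        have h1 : Z ∈ J := by
          apply W589.PG.Sim.sim _ (hm i).1 (hm i).2.1 J (fun y hy => hy.1) _ _ Z hZ
          · intro Z hZ y hy
            refine ⟨?_, ?_⟩
            · unfold br
              rw [Matrix.transpose_sub, Matrix.transpose_mul, Matrix.transpose_mul, hy.1, hZ]
              simp only [Matrix.neg_mul, Matrix.mul_neg, neg_neg]
              abel
            · rw [hbr Z y hZ hy.1, hy.2]
              unfold br
              rw [Matrix.mul_zero, Matrix.zero_mul, sub_zero]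
          · intro hJ
            apply hne
            have : y ∈ J := ⟨hy, hy0⟩
            rw [hJ] at this
            exact (Submodule.mem_bot ℂ).1 this
        exact h1.2
      have hj3 := (hm j).1
      obtain ⟨i0, i1, hi⟩ : ∃ i0 i1 : Fin (2 * p j + q j), i0 ≠ i1 :=
        ⟨⟨0, by omega⟩, ⟨1, by omega⟩, by simp [Fin.ext_iff]⟩
      obtain ⟨W, hW, hWj⟩ := A3 j (Matrix.single i0 i1 1 - Matrix.single i1 i0 1) (by
          rw [Matrix.transpose_sub, Matrix.transpose_single, Matrix.transpose_single, neg_sub])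
      have h2 := hθ W hW
      rw [hall _ (A1 W hW i), hWj] at h2
      have h3 := congrFun (congrFun h2 i0) i1
      simp [Matrix.single, hi, hi.symm] at h3
    have hiso : IsoSo θ := by
      refine ⟨?_, hinj, ?_, hbr⟩
      · intro y hy
        obtain ⟨Y, hY, rfl⟩ := A3 i y hy
        rw [hθ Y hY]
        exact A1 Y hY j
      · intro z hz
        obtain ⟨Y, hY, rfl⟩ := A3 j z hz
        exact ⟨Y i, A1 Y hY i, hθ Y hY⟩
    obtain ⟨d, hd⟩ : ∃ d : ∀ i, Matrix (Fin (2 * p i + q i)) (Fin (2 * p i + q i)) ℂ,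
        d = phi e g g' D := ⟨_, rfl⟩
    have hdh : d ∈ h := by rw [hd]; exact mem D hDh
    have hda : ∀ i, d i = g' i * D.submatrix (e i) (e i) * g i := fun i => by rw [hd]; rfl
    have hcube : ∀ i, d i * d i * d i = d i := by
      intro i
      rw [hda, cc_mul' (e2 i), cc_mul' (e2 i), ← (bk i).en.sub_mul hbD, ← (bk i).en.sub_mul hbD,
        hD]
    obtain ⟨A, hA0, hA⟩ := thtF (2 * p i + q i) (2 * p j + q j) (p i) (hm i).1 (hm j).1
      (hm i).2.2 θ hiso (d i) (A1 d hdh i) (hcube i) (by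
        rw [hda, cc_mul' (e2 i), Matrix.mul_assoc, Matrix.trace_mul_comm, Matrix.mul_assoc, e2,
          Matrix.mul_one, ← (bk i).en.sub_mul hbD, sub_trace (bk i).en, hDt]) (by
        rw [hθ d hdh, hcube j])
    -- the conjugates of the intertwiner
    have hAc : ∀ γ y, yᵀ = -y → (o j γ * A * (o i γ)ᵀ) * y = θ y * (o j γ * A * (o i γ)ᵀ) := by
      intro γ y hy
      obtain ⟨Y, hY, rfl⟩ := A3 i y hy
      have h1 := A5 Y hY γ⁻¹
      have h2 := hA _ (A1 _ h1 i)
      rw [hθ _ h1, hθ Y hY] at *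
      change A * (o i γ⁻¹ * Y i * (o i γ⁻¹)ᵀ) = o j γ⁻¹ * Y j * (o j γ⁻¹)ᵀ * A at h2
      rw [hoi, hoi, Matrix.transpose_transpose, Matrix.transpose_transpose] at h2
      calc (o j γ * A * (o i γ)ᵀ) * Y i = o j γ * (A * ((o i γ)ᵀ * Y i * o i γ)) * (o i γ)ᵀ := by
            calc o j γ * A * (o i γ)ᵀ * Y i = o j γ * A * (o i γ)ᵀ * Y i *
                  (o i γ * (o i γ)ᵀ) := by rw [ho2, Matrix.mul_one]
              _ = _ := by simp only [Matrix.mul_assoc]
        _ = (o j γ * (o j γ)ᵀ) * Y j * (o j γ * A * (o i γ)ᵀ) := by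
            rw [h2]; simp only [Matrix.mul_assoc]
        _ = _ := by rw [ho2, Matrix.one_mul]
    have hsgn : ∀ γ, o j γ * A * (o i γ)ᵀ = A ∨ o j γ * A * (o i γ)ᵀ = -A := fun γ =>
      sign (hm i).1 (hm j).1 hiso hA0 hA (hAc γ) (ho2 i γ) (ho1 j γ) rfl
    let Δ : Subgroup Γ :=
      { carrier := {γ | o j γ * A * (o i γ)ᵀ = A}
        one_mem' := by
          have h1 : ∀ i, o i 1 = 1 := by
            intro i
            have h2 := hom i 1 1
            rw [mul_one] at h2
            calc o i 1 = (o i 1)ᵀ * (o i 1 * o i 1) := by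
                  rw [← Matrix.mul_assoc, ho1, Matrix.one_mul]
              _ = 1 := by rw [← h2, ho1]
          change o j 1 * A * (o i 1)ᵀ = A
          rw [h1, h1, Matrix.transpose_one, Matrix.one_mul, Matrix.mul_one]
        mul_mem' := by
          intro γ δ hγ hδ
          change o j (γ * δ) * A * (o i (γ * δ))ᵀ = A
          rw [hom, hom, Matrix.transpose_mul]
          calc o j γ * o j δ * A * ((o i δ)ᵀ * (o i γ)ᵀ) =
              o j γ * (o j δ * A * (o i δ)ᵀ) * (o i γ)ᵀ := by simp only [Matrix.mul_assoc]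
            _ = o j γ * A * (o i γ)ᵀ := by rw [hδ]
            _ = A := hγ
        inv_mem' := by
          intro γ hγ
          change o j γ⁻¹ * A * (o i γ⁻¹)ᵀ = A
          rw [hoi, hoi, Matrix.transpose_transpose]
          calc (o j γ)ᵀ * A * o i γ = (o j γ)ᵀ * (o j γ * A * (o i γ)ᵀ) * o i γ := by rw [hγ]
            _ = ((o j γ)ᵀ * o j γ) * A * ((o i γ)ᵀ * o i γ) := by simp only [Matrix.mul_assoc]
            _ = A := by rw [ho1, ho1, Matrix.one_mul, Matrix.mul_one] }
    have hΔ : Δ.FiniteIndex := by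
      refine fin_stab (fun γ => o j γ * A * (o i γ)ᵀ) Δ ?_ ?_
      · refine Set.Finite.subset (Set.toFinite {A, -A}) ?_
        rintro _ ⟨γ, rfl⟩
        exact hsgn γ
      · intro γ δ hγδ
        change o j (γ⁻¹ * δ) * A * (o i (γ⁻¹ * δ))ᵀ = A
        replace hγδ : o j γ * A * (o i γ)ᵀ = o j δ * A * (o i δ)ᵀ := hγδ
        rw [hom, hom, hoi, hoi, Matrix.transpose_mul, Matrix.transpose_transpose]
        calc (o j γ)ᵀ * o j δ * A * ((o i δ)ᵀ * o i γ) =
            (o j γ)ᵀ * (o j δ * A * (o i δ)ᵀ) * o i γ := by simp only [Matrix.mul_assoc]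
          _ = ((o j γ)ᵀ * o j γ) * A * ((o i γ)ᵀ * o i γ) := by
              rw [← hγδ]; simp only [Matrix.mul_assoc]
          _ = A := by rw [ho1, ho1, Matrix.one_mul, Matrix.mul_one]
    obtain ⟨C, hC⟩ : ∃ C, C = sel (e j) * g j * A * g' i * (sel (e i))ᵀ := ⟨_, rfl⟩
    have hcomm : ∀ γ ∈ Δ, C * b γ = b γ * C := by
      intro γ hγ
      have h1 : A * o i γ = o j γ * A := by
        have h0 : o j γ * A * (o i γ)ᵀ = A := hγ
        calc A * o i γ = o j γ * A * (o i γ)ᵀ * o i γ := by rw [h0]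
          _ = o j γ * A := by rw [Matrix.mul_assoc, ho1, Matrix.mul_one]
      have hoe : ∀ i, o i γ = g' i * (b γ).submatrix (e i) (e i) * g i := fun i => by rw [ho]
      rw [hoe, hoe] at h1
      have h2 : C * b γ = sel (e j) * g j *
          (A * (g' i * (b γ).submatrix (e i) (e i) * g i)) * g' i * (sel (e i))ᵀ := by
        rw [hC, Matrix.mul_assoc, (bk i).en.selT_mul (hb γ)]
        calc sel (e j) * g j * A * g' i * ((b γ).submatrix (e i) (e i) * (sel (e i))ᵀ)
            = sel (e j) * g j * A * g' i * (b γ).submatrix (e i) (e i) * (g i * g' i) *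
              (sel (e i))ᵀ := by
              rw [e2, Matrix.mul_one]; simp only [Matrix.mul_assoc]
          _ = _ := by simp only [Matrix.mul_assoc]
      have h3 : b γ * C = sel (e j) * g j *
          ((g' j * (b γ).submatrix (e j) (e j) * g j) * A) * g' i * (sel (e i))ᵀ := by
        rw [hC]
        calc b γ * (sel (e j) * g j * A * g' i * (sel (e i))ᵀ)
            = (b γ * sel (e j)) * (g j * A * g' i * (sel (e i))ᵀ) := by
              simp only [Matrix.mul_assoc]
          _ = sel (e j) * (b γ).submatrix (e j) (e j) * (g j * A * g' i * (sel (e i))ᵀ) := by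
              rw [(bk j).en.mul_sel (hb γ)]
          _ = sel (e j) * (g j * g' j) * (b γ).submatrix (e j) (e j) *
              (g j * A * g' i * (sel (e i))ᵀ) := by
              rw [e2, Matrix.mul_one]
          _ = _ := by simp only [Matrix.mul_assoc]
      rw [h2, h3, h1]
    have hcomm' : ∀ X, BD c X → C * X = X * C := by
      intro X hX
      have h1 := hfull Δ hΔ X hX
      clear hX
      induction h1 using Submodule.span_induction with
      | mem X h =>
        obtain ⟨s, hs, rfl⟩ := h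
        exact hcomm s hs
      | zero => rw [Matrix.mul_zero, Matrix.zero_mul]
      | add x y _ _ hx hy => rw [Matrix.mul_add, Matrix.add_mul, hx, hy]
      | smul z x _ hx => rw [Matrix.mul_smul, Matrix.smul_mul, hx]
    have hC1 : ∀ a a', a ≠ a' → C a a' = 0 := by
      intro a a' haa'
      have h1 := hcomm' (Matrix.single a a 1) (by
        intro x y hxy
        rw [Matrix.single_apply, if_neg]
        rintro ⟨rfl, rfl⟩
        exact hxy rfl)
      have h2 := congrFun (congrFun h1 a) a'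
      rw [Matrix.mul_single_apply_of_ne _ _ _ _ _ (Ne.symm haa'),
        Matrix.single_mul_apply_same, one_mul] at h2
      exact h2.symm
    have hC2 : C = 0 := by
      ext a a'
      by_cases haa' : a = a'
      · subst haa'
        rw [hC, Matrix.zero_apply]
        by_cases hai : c a = i
        · have h1 : ∀ l, (sel (e j) * g j * A * g' i) a l = 0 := by
            intro l
            rw [Matrix.mul_assoc, Matrix.mul_assoc, Matrix.mul_apply]
            refine Finset.sum_eq_zero fun l' _ => ?_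
            have h2 : sel (e j) a l' = 0 := by
              rw [sel, Matrix.of_apply, if_neg]
              intro h
              apply hij
              rw [← hai, ← h, (bk j).en.col]
            rw [h2, zero_mul]
          rw [Matrix.mul_apply]
          refine Finset.sum_eq_zero fun l _ => ?_
          rw [h1, zero_mul]
        · rw [Matrix.mul_apply]
          refine Finset.sum_eq_zero fun l _ => ?_
          have h2 : (sel (e i))ᵀ l a = 0 := by
            rw [Matrix.transpose_apply, sel, Matrix.of_apply, if_neg]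
            intro h
            apply hai
            rw [← h, (bk i).en.col]
          rw [h2, mul_zero]
      · exact hC1 a a' haa'
    apply hA0
    have h4 : A = g' j * ((sel (e j))ᵀ * C * sel (e i)) * g i := by
      rw [hC]
      calc A = (g' j * g j) * A * (g' i * g i) := by rw [e1, e1, Matrix.one_mul, Matrix.mul_one]
        _ = g' j * (((sel (e j))ᵀ * sel (e j)) * g j * A * g' i * ((sel (e i))ᵀ * sel (e i))) *
            g i := by
            rw [sel_T_sel _ (bk j).en.inj, sel_T_sel _ (bk i).en.inj, Matrix.one_mul,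
              Matrix.mul_one]
            simp only [Matrix.mul_assoc]
        _ = _ := by simp only [Matrix.mul_assoc]
    rw [h4, hC2, Matrix.mul_zero, Matrix.zero_mul, Matrix.mul_zero, Matrix.zero_mul]
  have key := W756.PG.gou W589.PG.Sim.sim r (fun i => 2 * p i + q i)
    (fun i => ⟨(hm i).1, (hm i).2.1⟩) h A1 A2 A3 A4
    (phi e g g' Z) (fun i => sk1 i _ ((bk i).skew hB hZ))
  rw [hh] at key
  obtain ⟨y, hy, hyZ⟩ := key
  have hfin : y = Z := by
    refine ext_of_sub (fun i => (bk i).en) (hbd y hy) hZc fun i => ?_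
    have h1 := congrFun hyZ i
    change g' i * y.submatrix (e i) (e i) * g i = g' i * Z.submatrix (e i) (e i) * g i at h1
    rw [← cc_back (e2 i) (y.submatrix (e i) (e i)), h1, cc_back (e2 i)]
  rw [← hfin]
  exact hy

end

end Pool.Agent.Y95.ZG
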