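import Pool.Agent.Y95.ZG.Star

/-!
# The monodromy group of a direct sum
-/

set_option autoImplicit false
set_option linter.unusedSectionVars false

namespace Pool.Agent.Y95.ZG

open MvPolynomial Matrix Pool.Agent.W528.ZC Pool.Agent.Y95.MT Pool.Agent.Y95.ZL Pool.Agent
open Pool.Agent.W544.PG hiding ev

noncomputable section

variable {ℓ : ℕ} [Fact ℓ.Prime] {n r : ℕ} {κ : Type} [Fintype κ] [DecidableEq κ] {Γ : Type}
  [Group Γ] {c : Fin n → Fin r} {T : HS n} {β : Γ →* Matrix (Fin n) (Fin n) ℚ_[ℓ]}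
  {v : Γ →* Matrix κ κ ℚ_[ℓ]}

/-- a subgroup of finite index on which all determinants are `1` -/
theorem GalQ.exists_det (h : GalQ c T.Q β) (hbQ : BD c T.Q) (e : ℚ_[ℓ] →+* ℂ) :
    ∃ Δ : Subgroup Γ, Δ.FiniteIndex ∧ ∀ s ∈ Δ, ∀ i, (bl c i ((β s))).det = 1 := by
  have hmul : ∀ s t i, (bl c i (((β (s * t))).map e)).det =
      (bl c i (((β s)).map e)).det * (bl c i (((β t)).map e)).det := by
    intro s t i
    rw [map_mul, Matrix.map_mul, W918.PG.bl_mul (h.bdK e s) (h.bdK e t), Matrix.det_mul]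
  let χ : Fin r → Γ →* ℂ := fun i =>
    { toFun := fun s => (bl c i (((β s)).map e)).det
      map_one' := by
        rw [map_one, Matrix.map_one _ (map_zero _) (map_one _), W918.PG.bl_one,
          Matrix.det_one]
      map_mul' := fun s t => hmul s t i }
  have hχ : ∀ i s, χ i s = (bl c i (((β s)).map e)).det := fun i s => rfl
  have hsq : ∀ i s, χ i s * χ i s = 1 := by
    intro i s
    have h1 := congrArg (fun M => (bl c i M).det) (h.formK e s)
    have hb := h.bdK e s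
    have hbt : BD c (((β s)).map e)ᵀ := fun a b hab => hb b a (Ne.symm hab)
    have hbQ' : BD c (mC T.Q) := fun a b hab => by simp [mC, hbQ a b hab]
    rw [← mC_eq] at h1
    rw [W918.PG.bl_mul (W918.PG.bd_mul hbt hbQ') hb, W918.PG.bl_mul hbt hbQ', bl_T,
      Matrix.det_mul, Matrix.det_mul, Matrix.det_transpose] at h1
    have h2 : (bl c i (mC T.Q)).det ≠ 0 := by
      rw [bl_mC, det_mC]
      exact_mod_cast bl_det_ne hbQ i
    rw [hχ]
    have h4 : (bl c i (mC T.Q)).det * ((bl c i (((β s)).map e)).det *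
        (bl c i (((β s)).map e)).det) = (bl c i (mC T.Q)).det * 1 := by
      rw [mul_one]
      linear_combination h1
    exact mul_left_cancel₀ h2 h4
  have hfin : ∀ i, (χ i).toHomUnits.ker.FiniteIndex := by
    intro i
    have h1 : Finite (χ i).toHomUnits.range := by
      refine Set.Finite.subset (Set.toFinite ({1, -1} : Set ℂˣ)) ?_
      rintro _ ⟨s, rfl⟩
      have h2 : ((χ i).toHomUnits s : ℂ) * (χ i).toHomUnits s = 1 := by
        rw [MonoidHom.coe_toHomUnits]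
        exact hsq i s
      rcases mul_self_eq_one_iff.1 h2 with h3 | h3
      · exact Or.inl (Units.ext h3)
      · exact Or.inr (Units.ext (by rw [h3]; simp))
    infer_instance
  refine ⟨⨅ i, (χ i).toHomUnits.ker, Subgroup.finiteIndex_iInf hfin, fun s hs i => ?_⟩
  have h1 : s ∈ (χ i).toHomUnits.ker := (Subgroup.mem_iInf.1 hs) i
  rw [MonoidHom.mem_ker, Units.ext_iff, MonoidHom.coe_toHomUnits, hχ, det_bl_map] at h1
  apply e.injective
  rw [h1]
  simp

theorem GalQ.SO (h : GalQ c T.Q β) {K : Type} [Field K] [CharZero K] (j : ℚ_[ℓ] →+* K) {s : Γ}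
    (hs : ∀ i, (bl c i ((β s))).det = 1) : InSO c T.Q (((β s)).map j) := by
  refine ⟨h.formK j s, h.bdK j s, fun i => ?_⟩
  rw [det_bl_map, hs i, map_one]

/-- the monodromy group of the direct sum -/
theorem InG0_prod2 (hg : GalQ c T.Q β) (hbQ : BD c T.Q)
    (hSO : ∀ t : Matrix (Fin n) (Fin n) (AlgebraicClosure ℚ_[ℓ]), InSO c T.Q t → fromBlocks 1 0 0 t ∈
      St (IG (tot2 v β) (algebraMap ℚ_[ℓ] (AlgebraicClosure ℚ_[ℓ]))))
    (e : AlgebraicClosure ℚ_[ℓ] →+* ℂ)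
    {g : Matrix (κ ⊕ Fin n) (κ ⊕ Fin n) (AlgebraicClosure ℚ_[ℓ])} :
    InG0 (tot2 v β) g ↔ g = fromBlocks g.toBlocks₁₁ 0 0 g.toBlocks₂₂ ∧ InG0 v g.toBlocks₁₁ ∧
      InSO c T.Q g.toBlocks₂₂ := by
  obtain ⟨j, hj⟩ : ∃ j, j = algebraMap ℚ_[ℓ] (AlgebraicClosure ℚ_[ℓ]) := ⟨_, rfl⟩
  obtain ⟨Δ₀, hΔ₀, hdet⟩ := hg.exists_det hbQ (e.comp j)
  rw [InG0_iff, InG0_iff]
  have htot : ∀ s, (tot2 v β s).map j = fromBlocks ((v s).map j) 0 0 ((β s).map j) :=
    fun s => fb_map _ _ _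
  rw [← hj]
  constructor
  · intro h
    obtain ⟨h1, h2⟩ := (PSO_iff (c := c) (Q := T.Q) g).1 fun f hf => by
      rw [← ev_toK]
      refine h _ ⟨Δ₀, hΔ₀, fun s hs => ?_⟩
      rw [ev_toK]
      refine (PSO_iff (c := c) (Q := T.Q) _).2 ⟨?_, ?_⟩ f hf
      · rw [htot, Matrix.toBlocks_fromBlocks₁₁, Matrix.toBlocks_fromBlocks₂₂]
      · rw [htot, Matrix.toBlocks_fromBlocks₂₂]
        exact hg.SO j (hdet s hs)
    refine ⟨h1, ?_, h2⟩
    rintro f ⟨Δ, hΔ, hf⟩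
    rw [← ev_upK (n := n)]
    refine h _ ⟨Δ, hΔ, fun s hs => ?_⟩
    rw [ev_upK, htot, Matrix.toBlocks_fromBlocks₁₁]
    exact hf s hs
  · rintro ⟨h1, h2, h3⟩ f hf
    have hSt := hSO _ h3
    rw [← hj] at hSt
    have h4 : g = 1 * fromBlocks g.toBlocks₁₁ 0 0 1 * fromBlocks 1 0 0 g.toBlocks₂₂ := by
      rw [one_mul, MT.fb_mul, mul_one, one_mul]
      exact h1
    rw [h4, ← ev_sub]
    have h5 := hSt f hf
    generalize sub 1 (fromBlocks 1 0 0 g.toBlocks₂₂) f = f' at h5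
    rw [← ev_dnK]
    refine h2 _ ?_
    obtain ⟨Δ₁, hΔ₁, hu⟩ := exists_unif (tot2 v β) j
    refine ⟨Δ₀ ⊓ Δ₁, inferInstance, fun s hs => ?_⟩
    rw [ev_dnK]
    have hSt' := hSO _
      (hg.SO (algebraMap ℚ_[ℓ] (AlgebraicClosure ℚ_[ℓ])) (hdet s⁻¹ (Δ₀.inv_mem hs.1)))
    rw [← hj] at hSt'
    have h6 := hu _ (hSt' f' h5) s hs.2
    rw [ev_sub, htot, one_mul, MT.fb_mul, mul_one] at h6
    have h7 : (β s).map j * (β s⁻¹).map j = 1 := by
      rw [← Matrix.map_mul, ← map_mul, mul_inv_cancel, map_one,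
        Matrix.map_one _ (map_zero _) (map_one _)]
    rwa [h7] at h6


end

end Pool.Agent.Y95.ZG
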