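import Pool.Agent.Y95.ZG.Dens
import Pool.Agent.Y95.ZG.Prod

/-!
# The commutant of the special orthogonal group
-/

set_option autoImplicit false
set_option linter.unusedSectionVars false

namespace Pool.Agent.Y95.ZG

open MvPolynomial Matrix Pool.Agent.W528.ZC Pool.Agent.Y95.MT Pool.Agent.Y95.ZL Pool.Agent
open Pool.Agent.W544.PG hiding ev

noncomputable section

section com

variable {F : Type} [Field F] [CharZero F] {n r : ℕ} {c : Fin n → Fin r} {i : Fin r}
  {Q : Matrix (Fin n) (Fin n) F}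

theorem perp2 (h3 : 3 ≤ (Finset.univ.filter fun a => c a = i).card) (α ξ : Fin n → F) :
    ∃ U ∈ (col c i : Submodule F (Fin n → F)), U ≠ 0 ∧ α ⬝ᵥ U = 0 ∧ ξ ⬝ᵥ U = 0 := by
  obtain ⟨f, hf⟩ : ∃ f : ({a // c a = i} → F) →ₗ[F] (Fin 2 → F), ∀ u,
      f u = ![∑ a : {a // c a = i}, α a.1 * u a, ∑ a : {a // c a = i}, ξ a.1 * u a] := by
    refine ⟨{ toFun := fun u => ![∑ a : {a // c a = i}, α a.1 * u a,
                ∑ a : {a // c a = i}, ξ a.1 * u a]
              map_add' := ?_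
              map_smul' := ?_ }, fun u => rfl⟩
    · intro u v
      funext k
      fin_cases k <;> simp [mul_add, Finset.sum_add_distrib]
    · intro z u
      funext k
      fin_cases k <;> simp [Finset.mul_sum, mul_left_comm]
  have hker : LinearMap.ker f ≠ ⊥ := by
    apply LinearMap.ker_ne_bot_of_finrank_lt
    rw [Module.finrank_fin_fun, Module.finrank_fintype_fun_eq_card, Fintype.card_subtype]
    omega
  obtain ⟨u, hu, hu0⟩ := (Submodule.ne_bot_iff _).1 hker
  rw [LinearMap.mem_ker, hf] at hu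
  have hu1 : ∑ a : {a // c a = i}, α a.1 * u a = 0 := congrFun hu 0
  have hu2 : ∑ a : {a // c a = i}, ξ a.1 * u a = 0 := congrFun hu 1
  obtain ⟨U, hU⟩ : ∃ U : Fin n → F, U = fun a => if h : c a = i then u ⟨a, h⟩ else 0 := ⟨_, rfl⟩
  have hUc : U ∈ (col c i : Submodule F (Fin n → F)) := by
    intro a ha
    rw [hU]
    simp [ha]
  have hUs : ∀ z : Fin n → F, z ⬝ᵥ U = ∑ a : {a // c a = i}, z a.1 * u a := by
    intro z
    have h1 : ∑ a : {a // c a = i}, z a.1 * u a = ∑ a : {a // c a = i}, z a.1 * U a.1 := by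
      refine Finset.sum_congr rfl fun a _ => ?_
      rw [hU]
      simp [a.2]
    rw [h1, ← Finset.sum_subtype (Finset.univ.filter fun a => c a = i) (by simp)
      (fun a => z a * U a), dotProduct]
    rw [← Finset.sum_filter_add_sum_filter_not Finset.univ (fun a => c a = i)]
    have h2 : ∑ a with ¬ c a = i, z a * U a = 0 := by
      refine Finset.sum_eq_zero fun a ha => ?_
      rw [hUc a (Finset.mem_filter.1 ha).2, mul_zero]
    rw [h2, add_zero]
  refine ⟨U, hUc, ?_, by rw [hUs, hu1], by rw [hUs, hu2]⟩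
  intro h0
  apply hu0
  funext a
  have h1 := congrFun h0 a.1
  rw [hU] at h1
  simpa [a.2] using h1

/-- an operator commuting with the products of two reflections has eigenvectors -/
theorem eig_aniso (hQ : Qᵀ = Q) (hQb : BD c Q) (hQd : Q.det ≠ 0)
    (h3 : 3 ≤ (Finset.univ.filter fun a => c a = i).card) {M : Matrix (Fin n) (Fin n) F}
    (hM : ∀ a b : Fin n → F, a ∈ (col c i : Submodule F (Fin n → F)) →
      b ∈ (col c i : Submodule F (Fin n → F)) → a ⬝ᵥ Q *ᵥ a ≠ 0 → b ⬝ᵥ Q *ᵥ b ≠ 0 →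
      M * (rf Q a * rf Q b) = (rf Q a * rf Q b) * M) {a : Fin n → F}
    (ha : a ∈ (col c i : Submodule F (Fin n → F))) (ha0 : a ⬝ᵥ Q *ᵥ a ≠ 0) :
    ∃ s : F, M *ᵥ a = s • a := by
  have hane : a ≠ 0 := by
    rintro rfl
    rw [zero_dotProduct] at ha0
    exact ha0 rfl
  have hpl : ∀ b ∈ (col c i : Submodule F (Fin n → F)), b ⬝ᵥ Q *ᵥ a = 0 → b ⬝ᵥ Q *ᵥ b ≠ 0 →
      ∃ s u : F, M *ᵥ a = s • a + u • b := by
    intro b hb hba hb0
    have h1 := congrArg (fun N => N *ᵥ a) (hM a b ha hb ha0 hb0)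
    have hab : a ⬝ᵥ Q *ᵥ b = 0 := by rw [bsymm hQ, hba]
    simp only [← Matrix.mulVec_mulVec] at h1
    rw [rf_mulVec b a, dotProduct_comm (Q *ᵥ b), hab, mul_zero, zero_smul, sub_zero,
      rf_mulVec a a, dotProduct_comm (Q *ᵥ a), div_mul_cancel₀ _ ha0] at h1
    obtain ⟨x, hx⟩ : ∃ x, x = M *ᵥ a := ⟨_, rfl⟩
    have h2 : a - (2 : F) • a = -a := by module
    rw [h2, Matrix.mulVec_neg, ← hx, rf_mulVec b x, Matrix.mulVec_sub, Matrix.mulVec_smul,
      rf_mulVec a x, rf_mulVec a b, dotProduct_comm (Q *ᵥ a) b, hba, mul_zero, zero_smul,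
      sub_zero] at h1
    refine ⟨(2 : F)⁻¹ * (2 / (a ⬝ᵥ Q *ᵥ a) * (Q *ᵥ a ⬝ᵥ x)),
      (2 : F)⁻¹ * (2 / (b ⬝ᵥ Q *ᵥ b) * (Q *ᵥ b ⬝ᵥ x)), ?_⟩
    rw [← hx]
    have h3 : (2 : F) • x = (2 / (a ⬝ᵥ Q *ᵥ a) * (Q *ᵥ a ⬝ᵥ x)) • a +
        (2 / (b ⬝ᵥ Q *ᵥ b) * (Q *ᵥ b ⬝ᵥ x)) • b := by
      have h4 : (2 : F) • x = x - (-x) := by module
      rw [h4, h1]
      module
    have h5 : x = (2 : F)⁻¹ • ((2 : F) • x) := by
      rw [smul_smul, inv_mul_cancel₀ two_ne_zero, one_smul]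
    conv_lhs => rw [h5, h3]
    rw [smul_add, smul_smul, smul_smul]
  obtain ⟨b, hb, hba, hbb⟩ := exists_orth hQ hQb hQd h3 ha hane
  obtain ⟨s, u, hsu⟩ := hpl b hb hba hbb
  obtain ⟨U, hU, hU0, hUa, hUb⟩ := perp2 (F := F) h3 (Q *ᵥ a) (Q *ᵥ b)
  rw [dotProduct_comm] at hUa hUb
  have hsep : ∀ b' ∈ (col c i : Submodule F (Fin n → F)), b' ⬝ᵥ Q *ᵥ a = 0 →
      b' ⬝ᵥ Q *ᵥ b' ≠ 0 → ∃ u' : F, u • b = u' • b' := by
    intro b' hb' hb'a hb'b
    obtain ⟨s', u', hsu'⟩ := hpl b' hb' hb'a hb'b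
    refine ⟨u', ?_⟩
    rw [hsu] at hsu'
    have h1 := congrArg (fun x => x ⬝ᵥ Q *ᵥ a) hsu'
    simp only [add_dotProduct, smul_dotProduct, hba, hb'a, mul_zero, add_zero,
      smul_eq_mul] at h1
    have h2 : s = s' := mul_right_cancel₀ ha0 h1
    rw [h2] at hsu'
    exact add_left_cancel hsu'
  have hu : u = 0 := by
    by_cases hUU : U ⬝ᵥ Q *ᵥ U = 0
    · obtain ⟨u', hu'⟩ := hsep (b + U) (Submodule.add_mem _ hb hU)
        (by rw [add_dotProduct, hba, hUa, add_zero])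
        (by
          rw [Matrix.mulVec_add, dotProduct_add, add_dotProduct, add_dotProduct, hUU, hUb,
            bsymm hQ b U, hUb, add_zero, add_zero, add_zero]
          exact hbb)
      have h1 := congrArg (fun x => x ⬝ᵥ Q *ᵥ b) hu'
      simp only [smul_dotProduct, add_dotProduct, hUb, add_zero, smul_eq_mul] at h1
      have h2 : u = u' := mul_right_cancel₀ hbb h1
      rw [← h2, smul_add] at hu'
      have h4 : u • U = 0 := by
        have h5 : u • b + 0 = u • b + u • U := by rw [add_zero]; exact hu'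
        exact (add_left_cancel h5).symm
      exact (smul_eq_zero.1 h4).resolve_right hU0
    · obtain ⟨u', hu'⟩ := hsep U hU hUa hUU
      have h1 := congrArg (fun x => x ⬝ᵥ Q *ᵥ b) hu'
      simp only [smul_dotProduct, hUb, smul_eq_mul, mul_zero] at h1
      exact (mul_eq_zero.1 h1).resolve_right hbb
  exact ⟨s, by rw [hsu, hu, zero_smul, add_zero]⟩

/-- the commutant of the special orthogonal group -/
theorem com_SO [Algebra ℚ F] {Q : Matrix (Fin n) (Fin n) ℚ} (hQ : Qᵀ = Q) (hQb : BD c Q)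
    (hQd : Q.det ≠ 0)
    (h3 : ∀ i, 3 ≤ (Finset.univ.filter fun a => c a = i).card) {M : Matrix (Fin n) (Fin n) F}
    (hM : ∀ t : Matrix (Fin n) (Fin n) F, InSO c Q t → M * t = t * M) :
    ∃ d : Fin r → F, M = Matrix.diagonal fun a => d (c a) := by
  have hQ' : (Q.map (algebraMap ℚ F))ᵀ = Q.map (algebraMap ℚ F) := by
    rw [← Matrix.transpose_map, hQ]
  have hQb' : BD c (Q.map (algebraMap ℚ F)) := fun x y h => by
    rw [Matrix.map_apply, hQb x y h, map_zero]
  have hQd' : (Q.map (algebraMap ℚ F)).det ≠ 0 := by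
    have h2 : (Q.map (algebraMap ℚ F)).det = algebraMap ℚ F Q.det :=
      ((algebraMap ℚ F).map_det Q).symm
    rw [h2]
    exact (map_ne_zero _).2 hQd
  have key : ∀ i, ∃ s : F, ∀ w ∈ (col c i : Submodule F (Fin n → F)), M *ᵥ w = s • w := by
    intro i
    obtain ⟨x0, hx0⟩ : ∃ x0, x0 ∈ (Finset.univ.filter fun a => c a = i) := by
      have h4 : 0 < (Finset.univ.filter fun a => c a = i).card := by have := h3 i; omega
      exact Finset.card_pos.1 h4
    have hx0 : c x0 = i := (Finset.mem_filter.1 hx0).2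
    obtain ⟨a, ha, -, haa⟩ := exists_orth hQ' hQb' hQd' (h3 i) (single_col (F := F) hx0) (by
      intro h
      have := congrFun h x0
      simp at this)
    obtain ⟨s, hs⟩ := eig_aniso hQ' hQb' hQd' (h3 i) (M := M)
      (fun a b ha hb ha0 hb0 => hM _ (rr_SO hQ hQb ha hb ha0 hb0)) ha haa
    refine ⟨s, ?_⟩
    let W : Submodule F (Fin n → F) :=
      { carrier := {w | w ∈ (col c i : Submodule F (Fin n → F)) ∧ M *ᵥ w = s • w}
        zero_mem' := ⟨Submodule.zero_mem _, by rw [Matrix.mulVec_zero, smul_zero]⟩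
        add_mem' := by
          rintro x y ⟨hx1, hx2⟩ ⟨hy1, hy2⟩
          exact ⟨Submodule.add_mem _ hx1 hy1, by rw [Matrix.mulVec_add, hx2, hy2, smul_add]⟩
        smul_mem' := by
          rintro z x ⟨hx1, hx2⟩
          exact ⟨Submodule.smul_mem _ _ hx1, by rw [Matrix.mulVec_smul, hx2, smul_comm]⟩ }
    have hW := SO_irr (F := F) hQ hQb hQd (h3 i) (W := W) (fun w hw => hw.1) fun t ht w hw => by
      refine ⟨?_, ?_⟩
      · intro x hx
        rw [Matrix.mulVec, dotProduct]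
        refine Finset.sum_eq_zero fun y _ => ?_
        by_cases hy : c y = i
        · rw [ht.2.1 x y (by rw [hy]; exact hx), zero_mul]
        · rw [hw.1 y hy, mul_zero]
      · rw [Matrix.mulVec_mulVec, hM t ht, ← Matrix.mulVec_mulVec, hw.2, Matrix.mulVec_smul]
    rcases hW with hW | hW
    · exfalso
      have h5 : a ∈ W := ⟨ha, hs⟩
      rw [hW, Submodule.mem_bot] at h5
      rw [h5, zero_dotProduct] at haa
      exact haa rfl
    · intro w hw
      rw [← hW] at hw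
      exact hw.2
  choose s hs using key
  refine ⟨s, ?_⟩
  ext x y
  have h1 := congrFun (hs (c y) _ (single_col (F := F) (a := y) rfl)) x
  rw [Matrix.mulVec_single_one] at h1
  change M x y = _ at h1
  rw [h1, Pi.smul_apply, smul_eq_mul, Matrix.diagonal_apply]
  by_cases hxy : x = y
  · subst hxy
    rw [Pi.single_eq_same, mul_one, if_pos rfl]
  · rw [Pi.single_eq_of_ne hxy, mul_zero, if_neg hxy]

end com

end

end Pool.Agent.Y95.ZG
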