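import Pool.Agent.Y95.ZG.Gou

/-!
# Clifford's theorem and the density theorem
-/

set_option autoImplicit false
set_option linter.unusedSectionVars false

namespace Pool.Agent.Y95.ZG

open Matrix Module Pool.Agent.W544.PG

noncomputable section

section gen

variable {F V Γ : Type} [Field F] [AddCommGroup V] [Module F V] [FiniteDimensional F V] [Group Γ]
  (R : Γ →* Module.End F V)

/-- the algebra spanned by the image of a subgroup -/
def al (N : Subgroup Γ) : Subalgebra F (Module.End F V) :=
  Algebra.adjoin F ((N.toSubmonoid.map R : Submonoid (Module.End F V)) : Set (Module.End F V))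

variable {R}

theorem mem_al {N : Subgroup Γ} {s : Γ} (hs : s ∈ N) : R s ∈ al R N :=
  Algebra.subset_adjoin ⟨s, hs, rfl⟩

theorem al_span {N : Subgroup Γ} {x : Module.End F V} (hx : x ∈ al R N) :
    x ∈ Submodule.span F {y | ∃ s ∈ N, y = R s} := by
  have h1 : x ∈ Subalgebra.toSubmodule (al R N) := hx
  unfold al at h1
  rw [Algebra.adjoin_eq_span, Submonoid.closure_eq] at h1
  refine Submodule.span_mono ?_ h1
  rintro _ ⟨s, hs, rfl⟩
  exact ⟨s, hs, rfl⟩

/-- a stable subspace as a module over the algebra -/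
def upS {N : Subgroup Γ} (W : Submodule F V) (hW : ∀ s ∈ N, ∀ w ∈ W, R s w ∈ W) :
    Submodule (al R N) V where
  carrier := W
  zero_mem' := W.zero_mem
  add_mem' := W.add_mem
  smul_mem' := by
    rintro ⟨a, ha⟩ w hw
    change a w ∈ W
    have h1 := al_span ha
    clear ha
    induction h1 using Submodule.span_induction with
    | mem a h =>
      obtain ⟨s, hs, rfl⟩ := h
      exact hW s hs w hw
    | zero => exact W.zero_mem
    | add x y _ _ hx hy => exact W.add_mem hx hy
    | smul z x _ hx => exact W.smul_mem z hx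

/-- a module over the algebra as a subspace -/
def dnS {N : Subgroup Γ} (U : Submodule (al R N) V) : Submodule F V where
  carrier := U
  zero_mem' := U.zero_mem
  add_mem' := U.add_mem
  smul_mem' := by
    intro z w hw
    have h1 := U.smul_mem (⟨algebraMap F (Module.End F V) z, (al R N).algebraMap_mem z⟩ : al R N) hw
    exact h1

theorem dnS_st {N : Subgroup Γ} (U : Submodule (al R N) V) {s : Γ} (hs : s ∈ N) {w : V}
    (hw : w ∈ dnS U) : R s w ∈ dnS U :=
  U.smul_mem (⟨R s, mem_al hs⟩ : al R N) hw

theorem R_inv (s : Γ) (w : V) : R s (R s⁻¹ w) = w := by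
  rw [← Module.End.mul_apply, ← map_mul, mul_inv_cancel, map_one, Module.End.one_apply]

theorem R_inv' (s : Γ) (w : V) : R s⁻¹ (R s w) = w := by
  rw [← Module.End.mul_apply, ← map_mul, inv_mul_cancel, map_one, Module.End.one_apply]

/-- the translate of a submodule -/
def tr {N : Subgroup Γ} (hN : N.Normal) (s : Γ) (U : Submodule (al R N) V) :
    Submodule (al R N) V :=
  upS ((dnS U).map (R s)) (by
    rintro t ht _ ⟨w, hw, rfl⟩
    refine ⟨R (s⁻¹ * t * s) w, dnS_st U ?_ hw, ?_⟩
    · have h1 := hN.conj_mem t ht s⁻¹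
      rwa [inv_inv] at h1
    · rw [← Module.End.mul_apply, ← map_mul, ← Module.End.mul_apply, ← map_mul]
      congr 2
      group)

theorem mem_tr {N : Subgroup Γ} (hN : N.Normal) (s : Γ) (U : Submodule (al R N) V) (w : V) :
    w ∈ tr hN s U ↔ R s⁻¹ w ∈ U := by
  constructor
  · rintro ⟨u, hu, rfl⟩
    rw [R_inv']
    exact hu
  · intro h
    exact ⟨R s⁻¹ w, h, R_inv s w⟩

/-- translation as an order isomorphism -/
def trI {N : Subgroup Γ} (hN : N.Normal) (s : Γ) :
    Submodule (al R N) V ≃o Submodule (al R N) V where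
  toFun := tr hN s
  invFun := tr hN s⁻¹
  left_inv U := by
    ext w
    rw [mem_tr, mem_tr, inv_inv, R_inv']
  right_inv U := by
    ext w
    rw [mem_tr, mem_tr, inv_inv, R_inv]
  map_rel_iff' := by
    intro U U'
    change tr hN s U ≤ tr hN s U' ↔ U ≤ U'
    constructor
    · intro h w hw
      have h1 := h ((mem_tr hN s U (R s w)).2 (by rwa [R_inv']))
      rwa [mem_tr, R_inv'] at h1
    · intro h w hw
      rw [mem_tr] at hw ⊢
      exact h hw

/-- **Clifford's theorem** -/
theorem clifford {N : Subgroup Γ} (hN : N.Normal)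
    (hss : ∀ W : Submodule F V, (∀ s, ∀ w ∈ W, R s w ∈ W) →
      ∃ W' : Submodule F V, (∀ s, ∀ w ∈ W', R s w ∈ W') ∧ IsCompl W W') :
    IsSemisimpleModule (al R N) V := by
  obtain ⟨S, hS⟩ : ∃ S : Submodule (al R N) V, S = sSup {m | IsAtom m} := ⟨_, rfl⟩
  have hst : ∀ s, tr hN s S = S := by
    intro s
    change trI hN s S = S
    rw [hS, OrderIso.map_sSup]
    refine le_antisymm (iSup₂_le fun m hm => ?_) (sSup_le fun m hm => ?_)
    · exact le_sSup ((OrderIso.isAtom_iff (trI hN s) m).2 hm)
    · have h1 : IsAtom ((trI hN s).symm m) := (OrderIso.isAtom_iff (trI hN s).symm m).2 hm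
      have h2 : m = trI hN s ((trI hN s).symm m) := ((trI hN s).apply_symm_apply m).symm
      rw [h2]
      exact le_iSup₂ (f := fun x (_ : x ∈ {m : Submodule (al R N) V | IsAtom m}) => trI hN s x)
        ((trI hN s).symm m) h1
  obtain ⟨W', hW', hc⟩ := hss (dnS S) (by
    intro s w hw
    have h1 : R s w ∈ tr hN s S := by
      rw [mem_tr, R_inv']
      exact hw
    rw [hst] at h1
    exact h1)
  have hart : IsArtinian (al R N) V := isArtinian_of_tower F inferInstance
  have hatom : IsAtomic (Submodule (al R N) V) :=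
    isAtomic_of_orderBot_wellFounded_lt (wellFounded_lt)
  have htop : S = ⊤ := by
    obtain ⟨U, hU⟩ : ∃ U : Submodule (al R N) V, U = upS W' (fun s _ => hW' s) := ⟨_, rfl⟩
    have hU0 : U = ⊥ := by
      by_contra hne
      obtain ⟨m, hm, hmU⟩ := (eq_bot_or_exists_atom_le U).resolve_left hne
      obtain ⟨w, hw, hw0⟩ := (Submodule.ne_bot_iff _).1 hm.1
      have h1 : w ∈ dnS S := by
        have : m ≤ S := by rw [hS]; exact le_sSup hm
        exact this hw
      have h2 : w ∈ W' := by
        have := hmU hw
        rw [hU] at this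
        exact this
      exact hw0 ((Submodule.disjoint_def.1 hc.1) w h1 h2)
    have hW0 : W' = ⊥ := by
      rw [Submodule.eq_bot_iff]
      intro w hw
      have h1 : w ∈ U := by rw [hU]; exact hw
      rw [hU0] at h1
      exact (Submodule.mem_bot _).1 h1
    have h3 := hc.2
    rw [hW0, codisjoint_bot] at h3
    rw [Submodule.eq_top_iff']
    intro w
    have h4 : w ∈ dnS S := by rw [h3]; trivial
    exact h4
  refine IsSemisimpleModule.of_sSup_simples_eq_top ?_
  rw [← htop, hS]
  congr 1
  ext m
  exact isSimpleModule_iff_isAtom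

/-- **the density theorem** -/
theorem density {N : Subgroup Γ} (hN : IsSemisimpleModule (al R N) V) {X : Module.End F V}
    (hX : ∀ C : Module.End F V, (∀ s ∈ N, C * R s = R s * C) → C * X = X * C) : X ∈ al R N := by
  let f : Module.End (Module.End (al R N) V) V :=
    { toFun := X
      map_add' := fun x y => map_add X x y
      map_smul' := by
        intro C w
        let C' : Module.End F V :=
          { toFun := C
            map_add' := fun x y => map_add C x y
            map_smul' := fun z x => by
              have h1 := C.map_smul (⟨algebraMap F (Module.End F V) z,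
                (al R N).algebraMap_mem z⟩ : al R N) x
              exact h1 }
        have h1 := hX C' fun s hs => by
          ext x
          exact C.map_smul (⟨R s, mem_al hs⟩ : al R N) x
        have h2 := congrArg (fun g : Module.End F V => g w) h1
        exact h2.symm }
  classical
  obtain ⟨r, hr⟩ := jacobson_density f (Finset.univ.image (Module.finBasis F V))
  have h1 : X = r.1 := by
    refine (Module.finBasis F V).ext fun i => ?_
    exact hr _ (Finset.mem_image_of_mem _ (Finset.mem_univ i))
  rw [h1]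
  exact r.2

end gen

variable {F : Type} [Field F] {n r : ℕ} {c : Fin n → Fin r} {Γ : Type} [Group Γ]

/-- the representation is semisimple -/
def SSr (β : Γ →* Matrix (Fin n) (Fin n) F) : Prop :=
  ∀ W : Submodule F (Fin n → F), (∀ s, ∀ w ∈ W, β s *ᵥ w ∈ W) →
    ∃ W' : Submodule F (Fin n → F), (∀ s, ∀ w ∈ W', β s *ᵥ w ∈ W') ∧ IsCompl W W'

/-- the commutants of the subgroups of finite index are block scalars -/
def Com (c : Fin n → Fin r) (β : Γ →* Matrix (Fin n) (Fin n) F) : Prop :=
  ∀ Δ : Subgroup Γ, Δ.FiniteIndex → ∀ M : Matrix (Fin n) (Fin n) F,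
    (∀ s ∈ Δ, M * β s = β s * M) → ∃ d : Fin r → F, M = Matrix.diagonal fun a => d (c a)

theorem bs_comm {X : Matrix (Fin n) (Fin n) F} (hX : BD c X) (d : Fin r → F) :
    (Matrix.diagonal fun a => d (c a)) * X = X * Matrix.diagonal fun a => d (c a) := by
  ext a b
  rw [Matrix.diagonal_mul, Matrix.mul_diagonal]
  by_cases hab : c a = c b
  · rw [hab, mul_comm]
  · rw [hX a b hab, mul_zero, zero_mul]

theorem Full_of {β : Γ →* Matrix (Fin n) (Fin n) F} (hss : SSr β) (hcom : Com c β) : Full c β := by
  intro Δ hΔ X hX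
  obtain ⟨R, hR⟩ : ∃ R : Γ →* Module.End F (Fin n → F), ∀ s, R s = Matrix.toLin' (β s) := by
    refine ⟨{ toFun := fun s => Matrix.toLin' (β s)
              map_one' := by rw [map_one, Matrix.toLin'_one]; rfl
              map_mul' := fun s t => by rw [map_mul, Matrix.toLin'_mul]; rfl }, fun s => rfl⟩
  have hN : Δ.normalCore.Normal := inferInstance
  have hNf : Δ.normalCore.FiniteIndex := inferInstance
  have h1 := clifford (R := R) hN fun W hW => by
    obtain ⟨W', hW', hc⟩ := hss W fun s w hw => by
      have := hW s w hw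
      rwa [hR, Matrix.toLin'_apply] at this
    refine ⟨W', fun s w hw => ?_, hc⟩
    rw [hR, Matrix.toLin'_apply]
    exact hW' s w hw
  have h2 : Matrix.toLin' X ∈ al R Δ.normalCore := by
    refine density h1 fun C hC => ?_
    obtain ⟨M, rfl⟩ : ∃ M, C = Matrix.toLin' M := ⟨LinearMap.toMatrix' C, by
      rw [Matrix.toLin'_toMatrix']⟩
    obtain ⟨d, hd⟩ := hcom Δ.normalCore hNf M fun s hs => by
      have h3 := hC s hs
      rw [hR, Module.End.mul_eq_comp, Module.End.mul_eq_comp, ← Matrix.toLin'_mul,
        ← Matrix.toLin'_mul] at h3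
      exact (Matrix.toLin' (R := F)).injective h3
    rw [Module.End.mul_eq_comp, Module.End.mul_eq_comp, ← Matrix.toLin'_mul, ← Matrix.toLin'_mul,
      hd, bs_comm hX]
  have h3 := al_span h2
  have h4 := Submodule.mem_map_of_mem (f := (LinearMap.toMatrix' (R := F) (m := Fin n)
    (n := Fin n)).toLinearMap) h3
  rw [Submodule.map_span] at h4
  change LinearMap.toMatrix' (Matrix.toLin' X) ∈ _ at h4
  rw [LinearMap.toMatrix'_toLin'] at h4
  refine Submodule.span_mono ?_ h4
  rintro _ ⟨_, ⟨s, hs, rfl⟩, rfl⟩
  refine ⟨s, Δ.normalCore_le hs, ?_⟩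
  change LinearMap.toMatrix' (R s) = β s
  rw [hR, LinearMap.toMatrix'_toLin']

end

end Pool.Agent.Y95.ZG
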