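import Pool.Agent.Y95.ZG.Fin

/-!
# The Mumford-Tate conjecture for sums with a motive of abelian type, from a Hodge-Tate cocharacter
-/

set_option autoImplicit false
set_option linter.unusedSectionVars false

namespace Pool.Agent.Y95.ZG

open MvPolynomial Matrix Pool.Agent.W528.ZC Pool.Agent.Y95.MT Pool.Agent.Y95.ZL Pool.Agent
open Pool.Agent.W544.PG hiding ev Gr

noncomputable section

/-! ### Gradings -/

section grading

variable {K : Type} [Field K] {ι ι' : Type} [Fintype ι] [DecidableEq ι] [Fintype ι']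
  [DecidableEq ι'] {S F : Finset ℤ} {E : ℤ → Matrix ι ι K} {E' : ℤ → Matrix ι' ι' K}

theorem gr_ext (h : MT.Gr S E) (hS : S ⊆ F) : MT.Gr F (fun k => if k ∈ S then E k else 0) := by
  constructor
  · intro a _ b _
    by_cases ha : a ∈ S
    · by_cases hb : b ∈ S
      · simp only [ha, hb, if_true]
        exact h.mul a ha b hb
      · simp only [ha, hb, if_true, if_false, mul_zero]
        rw [if_neg]
        rintro rfl
        exact hb ha
    · simp only [ha, if_false, zero_mul]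
      split_ifs <;> rfl
  · rw [← h.sum, ← Finset.sum_subset hS]
    · exact Finset.sum_congr rfl fun k hk => if_pos hk
    · intro k _ hk
      exact if_neg hk

theorem pw_ext (hS : S ⊆ F) (z : K) :
    MT.pw F (fun k => if k ∈ S then E k else 0) z = MT.pw S E z := by
  unfold MT.pw
  rw [← Finset.sum_subset hS]
  · exact Finset.sum_congr rfl fun k hk => by simp only [hk, if_true]
  · intro k _ hk
    simp only [hk, if_false, smul_zero]

theorem dr_ext (hS : S ⊆ F) :
    MT.dr F (fun k => if k ∈ S then E k else 0) = MT.dr S E := by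
  unfold MT.dr
  rw [← Finset.sum_subset hS]
  · exact Finset.sum_congr rfl fun k hk => by simp only [hk, if_true]
  · intro k _ hk
    simp only [hk, if_false, smul_zero]

theorem fb_sum {τ : Type} (F : Finset τ) (f : τ → Matrix ι ι K) (g : τ → Matrix ι' ι' K) :
    ∑ k ∈ F, (fromBlocks (f k) 0 0 (g k) : Matrix (ι ⊕ ι') (ι ⊕ ι') K) =
      fromBlocks (∑ k ∈ F, f k) 0 0 (∑ k ∈ F, g k) := by
  classical
  induction F using Finset.induction_on with
  | empty => simp
  | insert a F ha ih =>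
    rw [Finset.sum_insert ha, Finset.sum_insert ha, Finset.sum_insert ha, ih,
      Matrix.fromBlocks_add, add_zero, add_zero]

theorem gr_fb (h : MT.Gr F E) (h' : MT.Gr F E') :
    MT.Gr F (fun k => (fromBlocks (E k) 0 0 (E' k) : Matrix (ι ⊕ ι') (ι ⊕ ι') K)) := by
  constructor
  · intro a ha b hb
    rw [Matrix.fromBlocks_multiply]
    simp only [Matrix.zero_mul, Matrix.mul_zero, add_zero, zero_add]
    rw [h.mul a ha b hb, h'.mul a ha b hb]
    split_ifs
    · rfl
    · exact Matrix.fromBlocks_zero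
  · rw [fb_sum, h.sum, h'.sum, Matrix.fromBlocks_one]

theorem pw_fb2 (z : K) :
    MT.pw F (fun k => (fromBlocks (E k) 0 0 (E' k) : Matrix (ι ⊕ ι') (ι ⊕ ι') K)) z =
      fromBlocks (MT.pw F E z) 0 0 (MT.pw F E' z) := by
  unfold MT.pw
  rw [← fb_sum]
  refine Finset.sum_congr rfl fun k _ => ?_
  rw [Matrix.fromBlocks_smul, smul_zero, smul_zero]

theorem dr_fb2 :
    MT.dr F (fun k => (fromBlocks (E k) 0 0 (E' k) : Matrix (ι ⊕ ι') (ι ⊕ ι') K)) =
      fromBlocks (MT.dr F E) 0 0 (MT.dr F E') := by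
  unfold MT.dr
  rw [← fb_sum]
  refine Finset.sum_congr rfl fun k _ => ?_
  rw [Matrix.fromBlocks_smul, smul_zero, smul_zero]

theorem gr_map {L : Type} [Field L] (e : K →+* L) (h : MT.Gr F E) :
    MT.Gr F (fun k => (E k).map e) := by
  constructor
  · intro a ha b hb
    rw [← Matrix.map_mul, h.mul a ha b hb]
    split_ifs
    · rfl
    · exact Matrix.map_zero _ (map_zero e)
  · have h1 := congrArg (fun M => M.map e) h.sum
    simp only [Matrix.map_one _ (map_zero e) (map_one e)] at h1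
    rw [← h1]
    ext a b
    simp [Matrix.sum_apply, Matrix.map_apply]

theorem pw_map {L : Type} [Field L] (e : K →+* L) (z : K) :
    MT.pw F (fun k => (E k).map e) (e z) = (MT.pw F E z).map e := by
  unfold MT.pw
  ext a b
  simp only [Matrix.sum_apply, Matrix.smul_apply, Matrix.map_apply, smul_eq_mul, map_sum, map_mul,
    map_zpow₀]

theorem dr_map {L : Type} [Field L] (e : K →+* L) :
    MT.dr F (fun k => (E k).map e) = (MT.dr F E).map e := by
  unfold MT.dr
  ext a b
  simp only [Matrix.sum_apply, Matrix.smul_apply, Matrix.map_apply, smul_eq_mul, map_sum, map_mul,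
    map_intCast]

end grading

section coch

variable {k K : Type} [Field k] [Field K] {ι : Type} [Fintype ι] [DecidableEq ι] {Γ : Type}
  [Group Γ] {ρ : Γ →* Matrix ι ι k} {j : k →+* K}

/-- a cocharacter of the identity component gives an element of the Lie algebra -/
theorem coch_gen [CharZero K] {L : Type} [Field L] [CharZero L] (e : K →+* L) {F : Finset ℤ}
    {E : ℤ → Matrix ι ι K} (hg : MT.Gr F E)
    (h : ∀ z : K, z ≠ 0 → InZS (IG ρ j) (MT.pw F E z)) :
    (MT.dr F E).map e ∈ LS (IG ρ (e.comp j)) := by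
  rw [← dr_map]
  refine dr_mem_LS (gr_map e hg) fun f hf => ?_
  have hinf : (Set.range fun m : ℕ => (e ((m : K) + 1) : L)).Infinite := by
    refine Set.infinite_range_of_injective fun a b hab => ?_
    have h1 := e.injective hab
    have h2 : (a : K) = b := add_right_cancel h1
    exact_mod_cast h2
  refine hinf.mono ?_
  rintro _ ⟨m, rfl⟩
  have hm : ((m : K) + 1) ≠ 0 := by exact_mod_cast Nat.succ_ne_zero m
  refine ⟨(map_ne_zero e).2 hm, ?_⟩
  change sub 1 (MT.pw F (fun k => (E k).map e) (e ((m : K) + 1))) f ∈ _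
  rw [pw_map]
  exact St_of_InZS (InZS_map e (h _ hm)) f hf

end coch

variable {ℓ : ℕ} [Fact ℓ.Prime] {n r : ℕ} {κ : Type} [Fintype κ] [DecidableEq κ] {Γ : Type}
  [Group Γ] {c : Fin n → Fin r} {T : HS n} {p q : Fin r → ℕ}
  {β : Γ →* Matrix (Fin n) (Fin n) ℚ_[ℓ]} {v : Γ →* Matrix κ κ ℚ_[ℓ]} {hV : ℂ → Matrix κ κ ℂ}

/-- the Lie algebra of the monodromy group -/
def lieG (v : Γ →* Matrix κ κ ℚ_[ℓ]) : Set (Matrix κ κ (AlgebraicClosure ℚ_[ℓ])) :=
  {y | ∀ f : MvPolynomial (κ × κ) (AlgebraicClosure ℚ_[ℓ]),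
    (∃ Δ : Subgroup Γ, Δ.FiniteIndex ∧ ∀ s ∈ Δ,
      aeval (fun q : κ × κ => algebraMap ℚ_[ℓ] (AlgebraicClosure ℚ_[ℓ]) (v s q.1 q.2)) f = 0) →
    ∑ x : κ × κ, y x.1 x.2 *
      aeval (fun q : κ × κ => (1 : Matrix κ κ (AlgebraicClosure ℚ_[ℓ])) q.1 q.2) (pderiv x f) = 0}

theorem ev_D2 {K L : Type} [Field K] [Field L] (e : K →+* L)
    (Y : Matrix (κ ⊕ Fin n) (κ ⊕ Fin n) L) (f : MvPolynomial (κ × κ) K) :
    ev 1 (D Y (MvPolynomial.map e (upK (n := n) f))) =
      ∑ x : κ × κ, Y.toBlocks₁₁ x.1 x.2 *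
        e (aeval (fun q : κ × κ => (1 : Matrix κ κ K) q.1 q.2) (pderiv x f)) := by
  have hup : ∀ g : MvPolynomial (κ × κ) K, ev 1 (MvPolynomial.map e (upK (n := n) g)) =
      e (aeval (fun q : κ × κ => (1 : Matrix κ κ K) q.1 q.2) g) := by
    intro g
    have h1 : (1 : Matrix (κ ⊕ Fin n) (κ ⊕ Fin n) L) =
        (1 : Matrix (κ ⊕ Fin n) (κ ⊕ Fin n) K).map e :=
      (Matrix.map_one _ (map_zero e) (map_one e)).symm
    rw [h1, ev_map_poly, ev_upK]
    congr 1
    unfold Pool.Agent.W528.ZC.ev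
    congr 2
    funext q
    simp [Matrix.toBlocks₁₁, Matrix.one_apply]
  induction f using MvPolynomial.induction_on with
  | C a =>
    have h1 : MvPolynomial.map e (upK (n := n) (C a : MvPolynomial (κ × κ) K)) = C (e a) := by
      unfold upK
      rw [aeval_C, MvPolynomial.algebraMap_eq, MvPolynomial.map_C]
    rw [h1, D_C', map_zero]
    symm
    refine Finset.sum_eq_zero fun x _ => ?_
    rw [pderiv_C, map_zero, map_zero, mul_zero]
  | add f g hf hg =>
    have h1 : MvPolynomial.map e (upK (n := n) (f + g)) = MvPolynomial.map e (upK (n := n) f) +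
        MvPolynomial.map e (upK (n := n) g) := by
      unfold upK
      rw [map_add, map_add]
    rw [h1, map_add, map_add, hf, hg, ← Finset.sum_add_distrib]
    refine Finset.sum_congr rfl fun x _ => ?_
    rw [map_add, map_add, map_add, mul_add]
  | mul_X f q hf =>
    have h1 : MvPolynomial.map e (upK (n := n) (f * X q)) = MvPolynomial.map e (upK (n := n) f) *
        X (Sum.inl q.1, Sum.inl q.2) := by
      unfold upK
      rw [map_mul, map_mul, aeval_X, MvPolynomial.map_X]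
    rw [h1, Derivation.leibniz, map_add, smul_eq_mul, smul_eq_mul, map_mul, map_mul, hf, D_X',
      Pool.Agent.W528.ZC.ev_X, hup]
    have h2 : ev 1 (lin Y (Sum.inl q.1, Sum.inl q.2)) = Y.toBlocks₁₁ q.1 q.2 := by
      unfold lin
      rw [map_sum, Finset.sum_eq_single (Sum.inl q.1)]
      · rw [map_mul, Pool.Agent.W528.ZC.ev_X, Pool.Agent.W528.ZC.ev_C, Matrix.one_apply_eq, mul_one]
        rfl
      · intro b _ hb
        rw [map_mul, Pool.Agent.W528.ZC.ev_X, Matrix.one_apply_ne (Ne.symm hb), mul_zero]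
      · intro h
        exact absurd (Finset.mem_univ _) h
    rw [h2]
    have h3 : ∀ x : κ × κ, Y.toBlocks₁₁ x.1 x.2 *
        e (aeval (fun q : κ × κ => (1 : Matrix κ κ K) q.1 q.2) (pderiv x (f * X q))) =
        Y.toBlocks₁₁ x.1 x.2 *
          e (aeval (fun q : κ × κ => (1 : Matrix κ κ K) q.1 q.2) (pderiv x f)) *
          (1 : Matrix κ κ L) q.1 q.2 +
        (if x = q then Y.toBlocks₁₁ q.1 q.2 *
          e (aeval (fun q : κ × κ => (1 : Matrix κ κ K) q.1 q.2) f) else 0) := by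
      intro x
      have h5 : e ((1 : Matrix κ κ K) q.1 q.2) = (1 : Matrix κ κ L) q.1 q.2 := by
        rw [Matrix.one_apply, Matrix.one_apply]
        split_ifs <;> simp
      rw [Derivation.leibniz, smul_eq_mul, smul_eq_mul, map_add, map_mul, map_mul, aeval_X,
        pderiv_X, map_add, map_mul, map_mul, h5]
      split_ifs with hx
      · subst hx
        rw [Pi.single_eq_same, map_one, map_one]
        ring
      · rw [Pi.single_eq_of_ne (Ne.symm hx), map_zero, map_zero]
        ring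
    rw [Finset.sum_congr rfl fun x _ => h3 x, Finset.sum_add_distrib, Finset.sum_ite_eq',
      if_pos (Finset.mem_univ _), ← Finset.sum_mul]
    have h4 : (1 : Matrix (κ ⊕ Fin n) (κ ⊕ Fin n) L) (Sum.inl q.1) (Sum.inl q.2) =
        (1 : Matrix κ κ L) q.1 q.2 := by
      simp [Matrix.one_apply]
    rw [h4]
    ring

/-- linear functionals on the Lie algebra -/
theorem lam_lie {e : AlgebraicClosure ℚ_[ℓ] →+* ℂ} (lam : ℂ →+ AlgebraicClosure ℚ_[ℓ])
    (hlam : ∀ (a : ℂ) (b : AlgebraicClosure ℚ_[ℓ]), lam (a * e b) = lam a * b)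
    {y : Matrix κ κ ℂ} {Z : Matrix (Fin n) (Fin n) ℂ}
    (hy : dg y Z ∈ LS (IG (tot2 v β) (e.comp (algebraMap ℚ_[ℓ] (AlgebraicClosure ℚ_[ℓ]))))) :
    y.map lam ∈ lieG v := by
  rintro f ⟨Δ, hΔ, hf⟩
  have h1 := lie_rel hy (f := MvPolynomial.map e (upK (n := n) f)) ⟨Δ, hΔ, fun s hs => by
    have h2 : (tot2 v β s).map (e.comp (algebraMap ℚ_[ℓ] (AlgebraicClosure ℚ_[ℓ]))) =
        ((tot2 v β s).map (algebraMap ℚ_[ℓ] (AlgebraicClosure ℚ_[ℓ]))).map e := rfl
    rw [h2, ev_map_poly, ev_upK, tot2_apply, fb_map, Matrix.toBlocks_fromBlocks₁₁]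
    have h3 := hf s hs
    have h4 : ev ((v s).map (algebraMap ℚ_[ℓ] (AlgebraicClosure ℚ_[ℓ]))) f =
      aeval (fun q : κ × κ => algebraMap ℚ_[ℓ] (AlgebraicClosure ℚ_[ℓ]) (v s q.1 q.2)) f := rfl
    rw [h4, h3, map_zero]⟩
  rw [ev_D2] at h1
  have h2 := congrArg lam h1
  rw [map_zero, map_sum] at h2
  rw [← h2]
  refine Finset.sum_congr rfl fun x _ => ?_
  rw [hlam, Matrix.map_apply]
  rfl

theorem map_mul_lam {e : AlgebraicClosure ℚ_[ℓ] →+* ℂ} {lam : ℂ →+ AlgebraicClosure ℚ_[ℓ]}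
    (hlam : ∀ (a : ℂ) (b : AlgebraicClosure ℚ_[ℓ]), lam (a * e b) = lam a * b)
    (X : Matrix κ κ (AlgebraicClosure ℚ_[ℓ])) (y : Matrix κ κ ℂ) :
    (X.map e * y - y * X.map e).map lam = X * y.map lam - y.map lam * X := by
  ext a b
  simp only [Matrix.map_apply, Matrix.sub_apply, Matrix.mul_apply, map_sub, map_sum]
  congr 1
  · refine Finset.sum_congr rfl fun x _ => ?_
    rw [mul_comm, hlam, mul_comm]
  · exact Finset.sum_congr rfl fun x _ => hlam _ _

theorem ad_lie {e : AlgebraicClosure ℚ_[ℓ] →+* ℂ} {X : Matrix κ κ (AlgebraicClosure ℚ_[ℓ])}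
    (hX : ∀ y ∈ lieG v,
      X * (X * (X * y - y * X) - (X * y - y * X) * X) -
        (X * (X * y - y * X) - (X * y - y * X) * X) * X = X * y - y * X)
    {y : Matrix κ κ ℂ} {Z : Matrix (Fin n) (Fin n) ℂ}
    (hy : dg y Z ∈ LS (IG (tot2 v β) (e.comp (algebraMap ℚ_[ℓ] (AlgebraicClosure ℚ_[ℓ]))))) :
    X.map e * (X.map e * (X.map e * y - y * X.map e) - (X.map e * y - y * X.map e) * X.map e) -
      (X.map e * (X.map e * y - y * X.map e) - (X.map e * y - y * X.map e) * X.map e) * X.map e =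
      X.map e * y - y * X.map e := by
  letI : Algebra (AlgebraicClosure ℚ_[ℓ]) ℂ := e.toAlgebra
  have hsm : ∀ (a : ℂ) (b : AlgebraicClosure ℚ_[ℓ]), a * e b = b • a := fun a b => by
    rw [Algebra.smul_def, mul_comm]; rfl
  rw [← sub_eq_zero]
  ext a b
  rw [Matrix.zero_apply]
  refine (Module.forall_dual_apply_eq_zero_iff (AlgebraicClosure ℚ_[ℓ]) _).1 fun lam => ?_
  have hlam : ∀ (a : ℂ) (b : AlgebraicClosure ℚ_[ℓ]),
      lam.toAddMonoidHom (a * e b) = lam.toAddMonoidHom a * b := by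
    intro a b
    change lam (a * e b) = lam a * b
    rw [hsm, map_smul, smul_eq_mul, mul_comm]
  have h1 := hX _ (lam_lie lam.toAddMonoidHom hlam hy)
  rw [← map_mul_lam hlam, ← map_mul_lam hlam, ← map_mul_lam hlam, ← sub_eq_zero] at h1
  have h2 := congrFun (congrFun h1 a) b
  rw [Matrix.sub_apply, Matrix.map_apply, Matrix.map_apply, Matrix.zero_apply, ← map_sub] at h2
  exact h2

/-- **The Mumford-Tate conjecture for sums with a motive of abelian type.** -/
theorem main_gen (hB : T.Big c p q) (hp2 : ∀ i, 2 ≤ p i) (hcop : ∀ i, Nat.Coprime (p i) (q i))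
    (V : RHS κ)
    (hShim : ∀ y ∈ lieMT V.h,
      V.X * (V.X * (V.X * y - y * V.X) - (V.X * y - y * V.X) * V.X) -
        (V.X * (V.X * y - y * V.X) - (V.X * y - y * V.X) * V.X) * V.X =
        (4 : ℂ) • (V.X * y - y * V.X))
    (hg : GalQ c T.Q β) {S : Finset ℤ} {E : ℤ → Matrix κ κ (AlgebraicClosure ℚ_[ℓ])}
    {P N : Matrix (Fin n) (Fin n) (AlgebraicClosure ℚ_[ℓ])} (hE : MT.Gr S E)
    (hLie : ∀ y ∈ lieG v,
      MT.dr S E * (MT.dr S E * (MT.dr S E * y - y * MT.dr S E) -
        (MT.dr S E * y - y * MT.dr S E) * MT.dr S E) -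
        (MT.dr S E * (MT.dr S E * y - y * MT.dr S E) -
        (MT.dr S E * y - y * MT.dr S E) * MT.dr S E) * MT.dr S E =
        MT.dr S E * y - y * MT.dr S E)
    (PP : P * P = P) (NN : N * N = N) (PN : P * N = 0) (NP : N * P = 0)
    (trP : ∀ i, ∑ a with c a = i, P a a = (p i : AlgebraicClosure ℚ_[ℓ]))
    (trN : ∀ i, ∑ a with c a = i, N a a = (p i : AlgebraicClosure ℚ_[ℓ]))
    (mem : ∀ z : AlgebraicClosure ℚ_[ℓ], z ≠ 0 →
      InG0 (tot2 v β) (fromBlocks (MT.pw S E z) 0 0 (1 + (z - 1) • P + (z⁻¹ - 1) • N))) :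
    MTC (hM V.h T) (tot2 v β) ↔ MTC V.h v ∧ SSr β ∧ Com c β := by
  have hsq : (P - N) * (P - N) = P + N := by
    simp only [Matrix.sub_mul, Matrix.mul_sub, PP, NN, PN, NP]
    abel
  have hcube : (P - N) * (P - N) * (P - N) = P - N := by
    rw [hsq]
    simp only [Matrix.add_mul, Matrix.mul_sub, PP, NN, PN, NP]
    abel
  have hpw : ∀ z : AlgebraicClosure ℚ_[ℓ], pw F3 (E3 (P - N)) z =
      1 + (z - 1) • P + (z⁻¹ - 1) • N := by
    intro z
    have h2 : (2 : AlgebraicClosure ℚ_[ℓ]) ≠ 0 := two_ne_zero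
    have h3 : P + N + (P - N) = (2 : AlgebraicClosure ℚ_[ℓ]) • P := by module
    have h4 : P + N - (P - N) = (2 : AlgebraicClosure ℚ_[ℓ]) • N := by module
    rw [pw3, hsq, h3, h4, smul_smul, smul_smul, div_mul_cancel₀ _ h2, div_mul_cancel₀ _ h2]
  refine main2 hB V.h_det ?_ hg fun hfull t ht => ?_
  · refine star_V hB hp2 V.h_det (X_mem V T) fun y Z hy => ?_
    have h1 := hShim y (lie_of_LS V.h_det hB.bQ hB.bx hy)
    have h2 : ∀ w : Matrix κ κ ℂ, (2 : ℂ)⁻¹ • V.X * w - w * (2 : ℂ)⁻¹ • V.X =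
        (2 : ℂ)⁻¹ • (V.X * w - w * V.X) := by
      intro w
      rw [Matrix.smul_mul, Matrix.mul_smul, smul_sub]
    have h3 : ∀ w : Matrix κ κ ℂ, V.X * ((2 : ℂ)⁻¹ • w) - ((2 : ℂ)⁻¹ • w) * V.X =
        (2 : ℂ)⁻¹ • (V.X * w - w * V.X) := by
      intro w
      rw [Matrix.smul_mul, Matrix.mul_smul, smul_sub]
    rw [h2, h2, h3, h2, h3, h3, h1]
    rw [smul_smul, smul_smul, smul_smul]
    congr 1
    norm_num
  · obtain ⟨e⟩ := exists_emb ℓ
    have hgr := gr_fb (gr_ext hE (Finset.subset_union_left (s₂ := F3)))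
      (gr_ext (Gr3 hcube) (Finset.subset_union_right (s₁ := S)))
    have hlie := coch_gen (ρ := tot2 v β) (j := algebraMap ℚ_[ℓ] (AlgebraicClosure ℚ_[ℓ])) e hgr
      fun z hz => by
        rw [pw_fb2, pw_ext Finset.subset_union_left, pw_ext Finset.subset_union_right, hpw]
        exact mem z hz
    rw [dr_fb2, dr_ext Finset.subset_union_left, dr_ext Finset.subset_union_right, dr3,
      fb_map] at hlie
    have hD : (P - N).map e * (P - N).map e * (P - N).map e = (P - N).map e := by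
      rw [← Matrix.map_mul, ← Matrix.map_mul, hcube]
    have hDt : ∀ i, ∑ a with c a = i, ((P - N).map e * (P - N).map e) a a = 2 * (p i : ℂ) := by
      intro i
      rw [← Matrix.map_mul, hsq]
      have h1 : ∑ a with c a = i, ((P + N).map e) a a =
          e (∑ a with c a = i, P a a) + e (∑ a with c a = i, N a a) := by
        rw [map_sum, map_sum, ← Finset.sum_add_distrib]
        refine Finset.sum_congr rfl fun a _ => ?_
        rw [Matrix.map_apply, Matrix.add_apply, map_add]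
      rw [h1, trP, trN, map_natCast]
      ring
    refine St_transfer e ?_
    rw [fb_map, Matrix.map_one _ (map_zero e) (map_one e)]
    refine SO_St (T := T) hB.bQ (fun Z hZ hZb => ?_) (InSO_map e ht)
    exact star2 hB (fun Z hZ hZc => prT_full hB hcop hg (hfull.map _) hD hDt hlie Z hZ hZc)
      (fun y Z y' Z' h h' => dg_br h h') hD (lie_bd hg hlie) (lie_skew hg hlie) hDt hlie
      (Or.inr ⟨hp2, fun y Z hy => ad_lie hLie hy⟩) Z hZ hZb

end

end Pool.Agent.Y95.ZG
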