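import Pool.Agent.Y95.ZL.Coord
import Pool.Agent.Y95.MT.HodgeSide

/-!
# Lie algebras normalised by a group with large algebra: direct sums
-/

open Matrix Finset Module

namespace Pool.Agent.Y95.ZG

open Pool.Agent.W544.PG Pool.Agent.Y95.ZL Pool.Agent

noncomputable section

variable {n r : ℕ} {T : HS n} {c : Fin n → Fin r} {p q : Fin r → ℕ} {Γ : Type} [Group Γ]

/-- the image of every subgroup of finite index spans the algebra of block-diagonal matrices -/
def Full (c : Fin n → Fin r) {K : Type} [Field K] (b : Γ →* Matrix (Fin n) (Fin n) K) : Prop :=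
  ∀ Δ : Subgroup Γ, Δ.FiniteIndex → ∀ X, BD c X → X ∈ Submodule.span K {y | ∃ s ∈ Δ, y = b s}

theorem fin_stab {X : Type} (f : Γ → X) (Δ : Subgroup Γ) (hf : (Set.range f).Finite)
    (h : ∀ a b, f a = f b → a⁻¹ * b ∈ Δ) : Δ.FiniteIndex := by
  have h1 : Finite (Set.range f) := hf
  have h2 : Finite (Γ ⧸ Δ) := by
    refine Finite.of_surjective (fun x : Set.range f => (QuotientGroup.mk x.2.choose : Γ ⧸ Δ)) ?_
    intro y
    obtain ⟨b, rfl⟩ := QuotientGroup.mk_surjective y
    refine ⟨⟨f b, b, rfl⟩, ?_⟩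
    rw [QuotientGroup.eq]
    exact h _ _ (Exists.choose_spec (⟨b, rfl⟩ : ∃ y, f y = f b))
  exact Subgroup.finiteIndex_of_finite_quotient

theorem irr_of_all {m : ℕ} {K : Type} [Field K] (W : Submodule K (Fin m → K))
    (hW : ∀ Y : Matrix (Fin m) (Fin m) K, ∀ w ∈ W, Y *ᵥ w ∈ W) : W = ⊥ ∨ W = ⊤ := by
  by_cases h : W = ⊥
  · exact Or.inl h
  · right
    obtain ⟨w, hw, hw0⟩ := Submodule.exists_mem_ne_zero_of_ne_bot h
    obtain ⟨a, ha⟩ : ∃ a, w a ≠ 0 := by
      by_contra h'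
      push Not at h'
      exact hw0 (funext h')
    rw [Submodule.eq_top_iff']
    intro v
    have h1 := hW (vecMulVec v (Pi.single a (w a)⁻¹)) w hw
    have h2 : vecMulVec v (Pi.single a (w a)⁻¹) *ᵥ w = v := by
      funext j
      simp only [Matrix.mulVec, dotProduct, vecMulVec_apply]
      rw [Finset.sum_eq_single a]
      · rw [Pi.single_eq_same, mul_assoc, inv_mul_cancel₀ ha, mul_one]
      · intro x _ hx
        rw [Pi.single_eq_of_ne hx, mul_zero, zero_mul]
      · intro h'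
        exact absurd (Finset.mem_univ _) h'
    rwa [h2] at h1

/-! ### The Lie algebra `so(m)` -/

/-- a skew matrix -/
def sk {m : ℕ} (a b : Fin m) : Matrix (Fin m) (Fin m) ℂ :=
  Matrix.single a b 1 - Matrix.single b a 1

theorem sk_T {m : ℕ} (a b : Fin m) : (sk a b)ᵀ = -sk a b := by
  unfold sk
  rw [Matrix.transpose_sub, Matrix.transpose_single, Matrix.transpose_single, neg_sub]

theorem sk_mulVec {m : ℕ} (a b : Fin m) (w : Fin m → ℂ) :
    sk a b *ᵥ w = Pi.single a (w b) - Pi.single b (w a) := by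
  unfold sk
  rw [Matrix.sub_mulVec]
  congr 1
  · funext x
    rw [Matrix.single_mulVec]
    simp [Function.update_apply, Pi.single_apply]
  · funext x
    rw [Matrix.single_mulVec]
    simp [Function.update_apply, Pi.single_apply]

theorem exists_third {m : ℕ} (hm : 3 ≤ m) (a b : Fin m) : ∃ d : Fin m, d ≠ a ∧ d ≠ b := by
  have h : ({a, b} : Finset (Fin m)).card < (Finset.univ : Finset (Fin m)).card := by
    rw [Finset.card_univ, Fintype.card_fin]
    exact lt_of_le_of_lt (Finset.card_le_two) (by omega)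
  obtain ⟨d, _, hd⟩ := Finset.exists_mem_notMem_of_card_lt_card h
  refine ⟨d, fun h1 => hd ?_, fun h1 => hd ?_⟩
  · rw [h1]; simp
  · rw [h1]; simp

theorem so_irr {m : ℕ} (hm : 3 ≤ m) (W : Submodule ℂ (Fin m → ℂ))
    (hW : ∀ y : Matrix (Fin m) (Fin m) ℂ, yᵀ = -y → ∀ w ∈ W, y *ᵥ w ∈ W) : W = ⊥ ∨ W = ⊤ := by
  by_cases h : W = ⊥
  · exact Or.inl h
  · right
    obtain ⟨w, hw, hw0⟩ := Submodule.exists_mem_ne_zero_of_ne_bot h
    obtain ⟨a, ha⟩ : ∃ a, w a ≠ 0 := by
      by_contra h'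
      push Not at h'
      exact hw0 (funext h')
    have hoff : ∀ d b : Fin m, d ≠ a → b ≠ a → d ≠ b → (Pi.single d (1 : ℂ) : Fin m → ℂ) ∈ W := by
      intro d b hda hba hdb
      have h1 := hW _ (sk_T d b) _ (hW _ (sk_T b a) w hw)
      rw [sk_mulVec b a, sk_mulVec] at h1
      simp only [Pi.sub_apply, Pi.single_eq_same, Pi.single_eq_of_ne hba,
        Pi.single_eq_of_ne hda, Pi.single_eq_of_ne hdb, sub_zero, Pi.single_zero] at h1
      have h2 := W.smul_mem (w a)⁻¹ h1
      rwa [← Pi.single_smul, smul_eq_mul, inv_mul_cancel₀ ha] at h2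
    have hd : ∀ d : Fin m, (Pi.single d (1 : ℂ) : Fin m → ℂ) ∈ W := by
      intro d
      by_cases hda : d = a
      · subst hda
        obtain ⟨b, hb, -⟩ := exists_third hm d d
        obtain ⟨b', hb', hbb⟩ := exists_third hm d b
        have h1 := hW _ (sk_T d b) _ (hoff b b' hb hb' (Ne.symm hbb))
        rw [sk_mulVec, Pi.single_eq_same, Pi.single_eq_of_ne (Ne.symm hb), Pi.single_zero,
          sub_zero] at h1
        exact h1
      · obtain ⟨b, hb1, hb2⟩ := exists_third hm a d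
        exact hoff d b hda hb1 (Ne.symm hb2)
    rw [Submodule.eq_top_iff']
    intro v
    rw [← Finset.univ_sum_single v]
    refine W.sum_mem fun d _ => ?_
    have h1 := W.smul_mem (v d) (hd d)
    rwa [← Pi.single_smul, smul_eq_mul, mul_one] at h1

theorem so_com {m : ℕ} (hm : 3 ≤ m) (Y : Matrix (Fin m) (Fin m) ℂ)
    (hY : ∀ y : Matrix (Fin m) (Fin m) ℂ, yᵀ = -y → Y * y = y * Y) : ∃ s : ℂ, Y = s • 1 := by
  have hcol : ∀ a b : Fin m, a ≠ b → Y *ᵥ Pi.single a 1 = (Y b b) • Pi.single a 1 := by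
    intro a b hab
    have h1 := congrArg (fun M => M *ᵥ (Pi.single b (1 : ℂ) : Fin m → ℂ)) (hY _ (sk_T a b))
    simp only [← Matrix.mulVec_mulVec, sk_mulVec] at h1
    rw [Pi.single_eq_same, Pi.single_eq_of_ne hab, Pi.single_zero, sub_zero] at h1
    rw [h1]
    funext x
    have h2 : (Y *ᵥ (Pi.single b (1 : ℂ) : Fin m → ℂ)) b = Y b b := by
      rw [Matrix.mulVec_single_one]
      rfl
    have h3 : ∀ x, x ≠ a → x ≠ b → (Y *ᵥ (Pi.single a (1 : ℂ) : Fin m → ℂ)) x = 0 := by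
      intro x hxa hxb
      rw [h1, Pi.sub_apply, Pi.single_eq_of_ne hxa, Pi.single_eq_of_ne hxb, sub_zero]
    by_cases hxa : x = a
    · subst hxa
      rw [Pi.sub_apply, Pi.single_eq_same, Pi.single_eq_of_ne hab, sub_zero, h2, Pi.smul_apply,
        Pi.single_eq_same, smul_eq_mul, mul_one]
    · by_cases hxb : x = b
      · subst hxb
        have h4 : (Y *ᵥ (Pi.single a (1 : ℂ) : Fin m → ℂ)) x = 0 := by
          obtain ⟨d, hda, hdx⟩ := exists_third hm a x
          have h5 := congrArg (fun M => M *ᵥ (Pi.single d (1 : ℂ) : Fin m → ℂ)) (hY _ (sk_T a d))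
          simp only [← Matrix.mulVec_mulVec, sk_mulVec] at h5
          rw [Pi.single_eq_same, Pi.single_eq_of_ne (Ne.symm hda), Pi.single_zero, sub_zero] at h5
          rw [h5, Pi.sub_apply, Pi.single_eq_of_ne hxa, Pi.single_eq_of_ne (Ne.symm hdx), sub_zero]
        rw [h1] at h4
        rw [h4, Pi.smul_apply, Pi.single_eq_of_ne hxa, smul_zero]
      · rw [← h1, h3 x hxa hxb, Pi.smul_apply, Pi.single_eq_of_ne hxa, smul_zero]
  have hdiag : ∀ a b : Fin m, a ≠ b → Y a a = Y b b := by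
    intro a b hab
    have h1 := congrFun (hcol a b hab) a
    rw [Matrix.mulVec_single_one, Pi.smul_apply, Pi.single_eq_same, smul_eq_mul, mul_one] at h1
    exact h1
  refine ⟨Y ⟨0, by omega⟩ ⟨0, by omega⟩, ?_⟩
  ext x a
  obtain ⟨b, hb, -⟩ := exists_third hm a a
  have h1 := congrFun (hcol a b (Ne.symm hb)) x
  rw [Matrix.mulVec_single_one] at h1
  change Y x a = _ at h1
  rw [h1, Pi.smul_apply, Matrix.smul_apply, smul_eq_mul, smul_eq_mul]
  by_cases hxa : x = a
  · subst hxa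
    rw [Pi.single_eq_same, Matrix.one_apply_eq, mul_one, mul_one]
    by_cases hb0 : b = ⟨0, by omega⟩
    · rw [hb0]
    · exact hdiag _ _ hb0
  · rw [Pi.single_eq_of_ne hxa, Matrix.one_apply_ne hxa, mul_zero, mul_zero]

/-- intertwiners are unique up to sign -/
theorem sign {m m' : ℕ} (hm : 3 ≤ m) (hm' : 3 ≤ m')
    {θ : Matrix (Fin m) (Fin m) ℂ →ₗ[ℂ] Matrix (Fin m') (Fin m') ℂ} (hθ : IsoSo θ)
    {A A' : Matrix (Fin m') (Fin m) ℂ} (hA0 : A ≠ 0) (hA : ∀ y, yᵀ = -y → A * y = θ y * A)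
    (hA' : ∀ y, yᵀ = -y → A' * y = θ y * A') {b : Matrix (Fin m) (Fin m) ℂ}
    {b' : Matrix (Fin m') (Fin m') ℂ} (hb : b * bᵀ = 1) (hb' : b'ᵀ * b' = 1)
    (hAb : A' = b' * A * bᵀ) : A' = A ∨ A' = -A := by
  have hT : ∀ y, yᵀ = -y → y * Aᵀ = Aᵀ * θ y := by
    intro y hy
    have h1 := congrArg Matrix.transpose (hA y hy)
    rw [Matrix.transpose_mul, Matrix.transpose_mul, hy, hθ.map y hy, Matrix.neg_mul,
      Matrix.mul_neg, neg_inj] at h1
    exact h1
  obtain ⟨c, hc⟩ := so_com hm (Aᵀ * A) fun y hy => by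
    rw [Matrix.mul_assoc, hA y hy, ← Matrix.mul_assoc, ← hT y hy, Matrix.mul_assoc]
  obtain ⟨c', hc'⟩ := so_com hm' (A * Aᵀ) fun z hz => by
    obtain ⟨y, hy, rfl⟩ := hθ.surj z hz
    rw [Matrix.mul_assoc, ← hT y hy, ← Matrix.mul_assoc, hA y hy, Matrix.mul_assoc]
  obtain ⟨s, hs⟩ := so_com hm (Aᵀ * A') fun y hy => by
    rw [Matrix.mul_assoc, hA' y hy, ← Matrix.mul_assoc, ← hT y hy, Matrix.mul_assoc]
  have hk1 : ∀ v, A *ᵥ v = 0 → v = 0 := by
    have h1 := so_irr hm (LinearMap.ker (Matrix.toLin' A)) fun y hy w hw => by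
      rw [LinearMap.mem_ker, Matrix.toLin'_apply] at hw ⊢
      rw [Matrix.mulVec_mulVec, hA y hy, ← Matrix.mulVec_mulVec, hw, Matrix.mulVec_zero]
    rcases h1 with h1 | h1
    · intro v hv
      have h2 : v ∈ LinearMap.ker (Matrix.toLin' A) := by
        rw [LinearMap.mem_ker, Matrix.toLin'_apply]; exact hv
      rw [h1] at h2
      exact (Submodule.mem_bot ℂ).1 h2
    · exfalso
      apply hA0
      rw [LinearMap.ker_eq_top] at h1
      exact (Matrix.toLin' (R := ℂ)).injective (by rw [h1, map_zero])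
  have hk2 : ∀ v, Aᵀ *ᵥ v = 0 → v = 0 := by
    have h1 := so_irr hm' (LinearMap.ker (Matrix.toLin' Aᵀ)) fun z hz w hw => by
      obtain ⟨y, hy, rfl⟩ := hθ.surj z hz
      rw [LinearMap.mem_ker, Matrix.toLin'_apply] at hw ⊢
      rw [Matrix.mulVec_mulVec, ← hT y hy, ← Matrix.mulVec_mulVec, hw, Matrix.mulVec_zero]
    rcases h1 with h1 | h1
    · intro v hv
      have h2 : v ∈ LinearMap.ker (Matrix.toLin' Aᵀ) := by
        rw [LinearMap.mem_ker, Matrix.toLin'_apply]; exact hv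
      rw [h1] at h2
      exact (Submodule.mem_bot ℂ).1 h2
    · exfalso
      apply hA0
      rw [LinearMap.ker_eq_top] at h1
      have h2 : Aᵀ = 0 := (Matrix.toLin' (R := ℂ)).injective (by rw [h1, map_zero])
      rw [← Matrix.transpose_transpose A, h2, Matrix.transpose_zero]
  have hzero : ∀ {k l : ℕ} (M : Matrix (Fin k) (Fin l) ℂ), (∀ v, M *ᵥ v = 0) → M = 0 := by
    intro k l M h
    apply (Matrix.toLin' (R := ℂ)).injective
    rw [map_zero]
    apply LinearMap.ext
    intro v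
    rw [Matrix.toLin'_apply, h v]
    rfl
  have hc0 : c ≠ 0 := by
    rintro rfl
    apply hA0
    apply hzero
    intro v
    apply hk2
    rw [Matrix.mulVec_mulVec, hc, zero_smul, Matrix.zero_mulVec]
  have hc'0 : c' ≠ 0 := by
    rintro rfl
    have h1 : Aᵀ = 0 := by
      apply hzero
      intro v
      apply hk1
      rw [Matrix.mulVec_mulVec, hc', zero_smul, Matrix.zero_mulVec]
    apply hA0
    rw [← Matrix.transpose_transpose A, h1, Matrix.transpose_zero]
  have h1 : c' • A' = s • A := by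
    calc c' • A' = (A * Aᵀ) * A' := by rw [hc', Matrix.smul_mul, Matrix.one_mul]
      _ = A * (Aᵀ * A') := by rw [Matrix.mul_assoc]
      _ = s • A := by rw [hs, Matrix.mul_smul, Matrix.mul_one]
  have h2 : A' = (s / c') • A := by
    rw [div_eq_inv_mul, ← smul_smul, ← h1, smul_smul, inv_mul_cancel₀ hc'0, one_smul]
  have h3 : A'ᵀ * A' = c • (1 : Matrix (Fin m) (Fin m) ℂ) := by
    rw [hAb, Matrix.transpose_mul, Matrix.transpose_mul, Matrix.transpose_transpose]
    calc b * (Aᵀ * b'ᵀ) * (b' * A * bᵀ) = b * (Aᵀ * (b'ᵀ * b') * A) * bᵀ := by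
          simp only [Matrix.mul_assoc]
      _ = c • (b * bᵀ) := by
          rw [hb', Matrix.mul_one, hc, Matrix.mul_smul, Matrix.smul_mul, Matrix.mul_one]
      _ = c • 1 := by rw [hb]
  have h4 : ((s / c') * (s / c')) * c = c := by
    rw [h2, Matrix.transpose_smul, Matrix.smul_mul, Matrix.mul_smul, hc, smul_smul, smul_smul] at h3
    have h5 := congrFun (congrFun h3 ⟨0, by omega⟩) ⟨0, by omega⟩
    rw [Matrix.smul_apply, Matrix.smul_apply, Matrix.one_apply_eq, smul_eq_mul, smul_eq_mul,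
      mul_one, mul_one] at h5
    linear_combination h5
  have h5 : (s / c') * (s / c') = 1 := by
    have : ((s / c') * (s / c')) * c = 1 * c := by rw [h4, one_mul]
    exact mul_right_cancel₀ hc0 this
  rcases mul_self_eq_one_iff.1 h5 with h6 | h6
  · left
    rw [h2, h6, one_smul]
  · right
    rw [h2, h6, neg_smul, one_smul]

end

end Pool.Agent.Y95.ZG
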