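import Pool.Agent.Y95.MT.LieV
import Pool.Agent.Y95.ZG.Alg

/-!
# The Lie algebra of the monodromy group: conjugation, cocharacters
-/

set_option autoImplicit false
set_option linter.unusedSectionVars false

namespace Pool.Agent.Y95.ZG

open MvPolynomial Matrix Pool.Agent.W528.ZC Pool.Agent.W544.PG Pool.Agent.Y95.MT

noncomputable section

/-! ### General facts -/

section general

variable {k K : Type} [Field k] [Field K] {ι : Type} [Fintype ι] [DecidableEq ι] {Γ : Type}
  [Group Γ] {ρ : Γ →* Matrix ι ι k} {j : k →+* K}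

/-- extension of scalars of a representation -/
def mp (j : k →+* K) (ρ : Γ →* Matrix ι ι k) : Γ →* Matrix ι ι K where
  toFun s := (ρ s).map j
  map_one' := by rw [map_one, Matrix.map_one _ (map_zero _) (map_one _)]
  map_mul' s t := by rw [map_mul, Matrix.map_mul]

theorem mp_apply (j : k →+* K) (ρ : Γ →* Matrix ι ι k) (s : Γ) : mp j ρ s = (ρ s).map j := rfl

theorem LS_rho (γ : Γ) {y : Matrix ι ι K} (hy : y ∈ LS (IG ρ j)) :
    mp j ρ γ * y * mp j ρ γ⁻¹ ∈ LS (IG ρ j) := by
  have hinv : ∀ γ, mp j ρ γ * mp j ρ γ⁻¹ = 1 := fun γ => by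
    rw [← map_mul, mul_inv_cancel, map_one]
  have hsub : ∀ γ : Γ, ∀ f ∈ IG ρ j, sub (mp j ρ γ) (mp j ρ γ⁻¹) f ∈ IG ρ j := by
    rintro γ f ⟨Δ, hΔ, h⟩
    refine ⟨Δ.normalCore, inferInstance, fun s hs => ?_⟩
    rw [ev_sub]
    have h1 : mp j ρ γ * (ρ s).map j * mp j ρ γ⁻¹ = (ρ (γ * s * γ⁻¹)).map j := by
      rw [← mp_apply, ← mp_apply, map_mul, map_mul]
    rw [h1]
    exact h _ (Δ.normalCore_le ((inferInstance : Δ.normalCore.Normal).conj_mem s hs γ))
  refine LS_conj (hinv γ) ?_ (hsub γ) ?_ hy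
  · have h1 := hinv γ⁻¹
    rwa [inv_inv] at h1
  · have h1 := hsub γ⁻¹
    rwa [inv_inv] at h1

/-- the identity component is a group -/
theorem St_of_InZS [Infinite K] {x : Matrix ι ι K} (hx : InZS (IG ρ j) x) : x ∈ St (IG ρ j) := by
  rintro f ⟨Δ, hΔ, h⟩
  refine ⟨Δ, hΔ, fun s hs => ?_⟩
  rw [ev_sub, one_mul]
  have h1 : sub ((ρ s).map j) 1 f ∈ IG ρ j := by
    refine ⟨Δ, hΔ, fun t ht => ?_⟩
    rw [ev_sub, mul_one, ← Matrix.map_mul, ← map_mul]
    exact h _ (Δ.mul_mem hs ht)
  have h2 := hx _ h1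
  rwa [ev_sub, mul_one] at h2

/-- the coefficients of a polynomial under a linear functional -/
def lamP {L : Type} [Field L] (e : K →+* L) (lam : L →+ K) (f : MvPolynomial (ι × ι) L) :
    MvPolynomial (ι × ι) K :=
  ∑ m ∈ f.support, monomial m (lam (f.coeff m))

theorem ev_lamP {L : Type} [Field L] (e : K →+* L) (lam : L →+ K)
    (hlam : ∀ (a : L) (b : K), lam (a * e b) = lam a * b) (x : Matrix ι ι K)
    (f : MvPolynomial (ι × ι) L) : ev x (lamP e lam f) = lam (ev (x.map e) f) := by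
  unfold lamP
  rw [map_sum]
  conv_rhs => rw [f.as_sum, map_sum, map_sum]
  refine Finset.sum_congr rfl fun m _ => ?_
  have h1 : ev x (monomial m (lam (f.coeff m))) =
      lam (f.coeff m) * m.prod fun p k => (x p.1 p.2) ^ k := by
    unfold Pool.Agent.W528.ZC.ev
    rw [aeval_monomial]
    rfl
  have h2 : ev (x.map e) (monomial m (f.coeff m)) =
      f.coeff m * e (m.prod fun p k => (x p.1 p.2) ^ k) := by
    unfold Pool.Agent.W528.ZC.ev
    rw [aeval_monomial]
    congr 1
    rw [Finsupp.prod, Finsupp.prod, map_prod]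
    refine Finset.prod_congr rfl fun p _ => ?_
    rw [map_pow]
    rfl
  rw [h1, h2, hlam]

theorem InZS_map {L : Type} [Field L] (e : K →+* L) {x : Matrix ι ι K} (hx : InZS (IG ρ j) x) :
    InZS (IG ρ (e.comp j)) (x.map e) := by
  letI : Algebra K L := e.toAlgebra
  have hsm : ∀ (a : L) (b : K), a * e b = b • a := fun a b => by
    rw [Algebra.smul_def, mul_comm]; rfl
  rintro f ⟨Δ, hΔ, h⟩
  by_contra hne
  obtain ⟨lam, hl⟩ : ∃ lam : L →ₗ[K] K, lam (ev (x.map e) f) ≠ 0 := by
    by_contra hcon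
    push Not at hcon
    exact hne ((Module.forall_dual_apply_eq_zero_iff K _).1 hcon)
  have hlam : ∀ (a : L) (b : K), lam.toAddMonoidHom (a * e b) = lam.toAddMonoidHom a * b := by
    intro a b
    change lam (a * e b) = lam a * b
    rw [hsm, map_smul, smul_eq_mul, mul_comm]
  apply hl
  have h1 := hx (lamP e lam.toAddMonoidHom f) ⟨Δ, hΔ, fun s hs => by
    rw [ev_lamP e _ hlam]
    have h2 := h s hs
    have h3 : ((ρ s).map j).map e = (ρ s).map (e.comp j) := rfl
    rw [h3, h2, map_zero]⟩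
  rw [ev_lamP e _ hlam] at h1
  exact h1

/-- a cocharacter of the identity component gives an element of the Lie algebra -/
theorem coch_LS [CharZero K] {L : Type} [Field L] [CharZero L] (e : K →+* L) {x : Matrix ι ι K}
    (hx : x * x * x = x) (h : ∀ z : K, z ≠ 0 → InZS (IG ρ j) (pw F3 (E3 x) z)) :
    x.map e ∈ LS (IG ρ (e.comp j)) := by
  have hx' : x.map e * x.map e * x.map e = x.map e := by
    rw [← Matrix.map_mul, ← Matrix.map_mul, hx]
  rw [← dr3 (x := x.map e)]
  refine dr_mem_LS (Gr3 hx') fun f hf => ?_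
  have hinf : (Set.range fun m : ℕ => (e ((m : K) + 1) : L)).Infinite := by
    refine Set.infinite_range_of_injective fun a b hab => ?_
    have h1 := e.injective hab
    have h2 : (a : K) = b := add_right_cancel h1
    exact_mod_cast h2
  refine hinf.mono ?_
  rintro _ ⟨m, rfl⟩
  have hm : ((m : K) + 1) ≠ 0 := by exact_mod_cast Nat.succ_ne_zero m
  refine ⟨(map_ne_zero e).2 hm, ?_⟩
  have h1 : pw F3 (E3 (x.map e)) (e ((m : K) + 1)) = (pw F3 (E3 x) ((m : K) + 1)).map e := by
    rw [pw3, pw3]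
    ext a b
    simp only [Matrix.add_apply, Matrix.smul_apply, Matrix.sub_apply, Matrix.map_apply,
      ← Matrix.map_mul, map_add, map_sub, map_mul, smul_eq_mul, map_div₀, map_inv₀, map_one,
      map_ofNat, Matrix.one_apply]
    split_ifs <;> simp
  change sub 1 (pw F3 (E3 (x.map e)) (e ((m : K) + 1))) f ∈ _
  rw [h1]
  exact St_of_InZS (InZS_map e (h _ hm)) f hf

end general

end

end Pool.Agent.Y95.ZG
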