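import Pool.Agent.Y95.ZG.Conv

/-!
# The Mumford-Tate conjecture for direct sums, from semisimplicity and the commutant
-/

set_option autoImplicit false
set_option linter.unusedSectionVars false

namespace Pool.Agent.Y95.ZG

open MvPolynomial Matrix Pool.Agent.W528.ZC Pool.Agent.Y95.MT Pool.Agent.Y95.ZL Pool.Agent
open Pool.Agent.W544.PG hiding ev

noncomputable section

variable {ℓ : ℕ} [Fact ℓ.Prime] {n r : ℕ} {κ : Type} [Fintype κ] [DecidableEq κ] {Γ : Type}
  [Group Γ] {c : Fin n → Fin r} {T : HS n} {p q : Fin r → ℕ}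
  {β : Γ →* Matrix (Fin n) (Fin n) ℚ_[ℓ]} {v : Γ →* Matrix κ κ ℚ_[ℓ]} {hV : ℂ → Matrix κ κ ℂ}

/-- extension of scalars -/
theorem Full.map (hf : Full c β) (e : ℚ_[ℓ] →+* ℂ) : Full c (mp e β) := by
  intro Δ hΔ X hX
  have h1 : X = ∑ a, ∑ b, X a b • (Matrix.single a b (1 : ℚ_[ℓ])).map e := by
    ext x y
    simp only [Matrix.sum_apply, Matrix.smul_apply, Matrix.map_apply, Matrix.single_apply,
      smul_eq_mul]
    rw [Finset.sum_eq_single x, Finset.sum_eq_single y]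
    · simp
    · intro b _ hb
      rw [if_neg (fun h => hb h.2), map_zero, mul_zero]
    · intro h; exact absurd (Finset.mem_univ _) h
    · intro a _ ha
      refine Finset.sum_eq_zero fun b _ => ?_
      rw [if_neg (fun h => ha h.1), map_zero, mul_zero]
    · intro h; exact absurd (Finset.mem_univ _) h
  rw [h1]
  refine Submodule.sum_mem _ fun a _ => Submodule.sum_mem _ fun b _ => ?_
  by_cases hab : c a = c b
  · refine Submodule.smul_mem _ _ ?_
    have h2 := hf Δ hΔ (Matrix.single a b 1) (by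
      intro x y hxy
      rw [Matrix.single_apply, if_neg]
      rintro ⟨rfl, rfl⟩
      exact hxy hab)
    generalize Matrix.single a b (1 : ℚ_[ℓ]) = Y at h2
    induction h2 using Submodule.span_induction with
    | mem Y h =>
      obtain ⟨s, hs, rfl⟩ := h
      exact Submodule.subset_span ⟨s, hs, rfl⟩
    | zero =>
      rw [Matrix.map_zero _ (map_zero e)]
      exact Submodule.zero_mem _
    | add x y _ _ hx hy =>
      rw [Matrix.map_add _ (map_add e)]
      exact Submodule.add_mem _ hx hy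
    | smul z x _ hx =>
      have h3 : (z • x).map e = e z • x.map e := by
        ext i j
        simp
      rw [h3]
      exact Submodule.smul_mem _ _ hx
  · rw [hX a b hab, zero_smul]
    exact Submodule.zero_mem _

/-- the special orthogonal group lies in the monodromy group -/
theorem SO_of_full (hB : T.Big c p q) (hcop : ∀ i, Nat.Coprime (p i) (q i)) (hg : GalQ c T.Q β)
    (hfull : Full c β) (e : AlgebraicClosure ℚ_[ℓ] →+* ℂ) {Xv : Matrix κ κ ℂ}
    {Dt : Matrix (Fin n) (Fin n) ℂ}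
    (hD : Dt * Dt * Dt = Dt) (hDt : ∀ i, ∑ a with c a = i, (Dt * Dt) a a = 2 * (p i : ℂ))
    (hX : dg Xv Dt ∈ LS (IG (tot2 v β) (e.comp (algebraMap ℚ_[ℓ] (AlgebraicClosure ℚ_[ℓ])))))
    (hcase : (∀ y Z, dg y Z ∈ LS (IG (tot2 v β)
      (e.comp (algebraMap ℚ_[ℓ] (AlgebraicClosure ℚ_[ℓ])))) → y = 0) ∨
      ((∀ i, 2 ≤ p i) ∧ Xv * Xv = Xv))
    {t : Matrix (Fin n) (Fin n) (AlgebraicClosure ℚ_[ℓ])} (ht : InSO c T.Q t) :
    fromBlocks 1 0 0 t ∈ St (IG (tot2 v β) (algebraMap ℚ_[ℓ] (AlgebraicClosure ℚ_[ℓ]))) := by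
  refine St_transfer e ?_
  rw [fb_map, Matrix.map_one _ (map_zero e) (map_one e)]
  refine SO_St (T := T) hB.bQ (fun Z hZ hZb => ?_) (InSO_map e ht)
  refine star2 hB (fun Z hZ hZc => prT_full hB hcop hg (hfull.map _) hD hDt hX Z hZ hZc)
    (fun y Z y' Z' h h' => dg_br h h') hD (lie_bd hg hX) (lie_skew hg hX) hDt hX ?_ Z hZ hZb
  rcases hcase with h | ⟨h1, h2⟩
  · exact Or.inl h
  · exact Or.inr ⟨h1, fun y _ _ => proj_ad h2 y⟩

/-! ### The converse -/

/-- the points of the special orthogonal group are points of the monodromy group -/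
theorem G0_of_MTC (hB : T.Big c p q) (hVd : ∀ z, z ≠ 0 → (hV z).det ≠ 0)
    (hx : fromBlocks 0 0 0 T.x ∈ LS (SH (hM hV T))) (h : MTC (hM hV T) (tot2 v β))
    {t : Matrix (Fin n) (Fin n) (AlgebraicClosure ℚ_[ℓ])} (ht : InSO c T.Q t) :
    InG0 (tot2 v β) (fromBlocks (1 : Matrix κ κ (AlgebraicClosure ℚ_[ℓ])) 0 0 t) := by
  obtain ⟨e⟩ := exists_emb ℓ
  have hd : (fromBlocks (1 : Matrix κ κ (AlgebraicClosure ℚ_[ℓ])) 0 0 t).det ≠ 0 := by
    rw [fb_det, Matrix.det_one, one_mul]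
    exact InSO_det (W74.PG.det_ne T) ht
  rw [h _ hd, InMT_iff (c := c) hB hVd hx e hd]
  rw [Matrix.toBlocks_fromBlocks₁₁, Matrix.toBlocks_fromBlocks₂₂]
  exact ⟨rfl, InMT_one e hV, ht⟩

/-- a linear functional which vanishes on a subgroup of finite index vanishes on the special
orthogonal group -/
theorem lin_of_MTC (hB : T.Big c p q) (hVd : ∀ z, z ≠ 0 → (hV z).det ≠ 0)
    (hx : fromBlocks 0 0 0 T.x ∈ LS (SH (hM hV T))) (h : MTC (hM hV T) (tot2 v β))
    {Δ : Subgroup Γ} (hΔ : Δ.FiniteIndex) (F : Fin n → Fin n → ℚ_[ℓ])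
    (hF : ∀ s ∈ Δ, ∑ a, ∑ b, F a b * β s a b = 0)
    {t : Matrix (Fin n) (Fin n) ℚ_[ℓ]} (ht : InSO c T.Q t) : ∑ a, ∑ b, F a b * t a b = 0 := by
  obtain ⟨j, hj⟩ : ∃ j, j = algebraMap ℚ_[ℓ] (AlgebraicClosure ℚ_[ℓ]) := ⟨_, rfl⟩
  obtain ⟨f, hf⟩ : ∃ f : MvPolynomial ((κ ⊕ Fin n) × (κ ⊕ Fin n)) (AlgebraicClosure ℚ_[ℓ]),
      f = ∑ a, ∑ b, C (j (F a b)) * X (Sum.inr a, Sum.inr b) := ⟨_, rfl⟩
  have hev : ∀ (g : Matrix κ κ (AlgebraicClosure ℚ_[ℓ])) (M : Matrix (Fin n) (Fin n) ℚ_[ℓ]),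
      aeval (fun q : (κ ⊕ Fin n) × (κ ⊕ Fin n) => (fromBlocks g 0 0 (M.map j)) q.1 q.2) f =
      j (∑ a, ∑ b, F a b * M a b) := by
    intro g M
    rw [hf, map_sum, map_sum]
    refine Finset.sum_congr rfl fun a _ => ?_
    rw [map_sum, map_sum]
    refine Finset.sum_congr rfl fun b _ => ?_
    rw [map_mul, aeval_X, aeval_C, map_mul]
    rfl
  have h1 := G0_of_MTC hB hVd hx h (InSO_map j ht) f ⟨Δ, hΔ, fun s hs => by
    have h2 := hev ((v s).map j) (β s)
    rw [hF s hs, map_zero] at h2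
    rw [← h2]
    congr 1
    congr 1
    funext q
    have h4 : fromBlocks ((v s).map j) 0 0 ((β s).map j) = (tot2 v β s).map j := by
      rw [tot2_apply, fb_map]
    rw [h4, hj]
    rfl⟩
  rw [hev] at h1
  exact (map_eq_zero j).1 h1

theorem Com_of_MTC (hB : T.Big c p q) (hVd : ∀ z, z ≠ 0 → (hV z).det ≠ 0)
    (hx : fromBlocks 0 0 0 T.x ∈ LS (SH (hM hV T))) (h : MTC (hM hV T) (tot2 v β)) :
    Com c β := by
  intro Δ hΔ M hM
  refine com_SO T.symm hB.bQ (W74.PG.det_ne T) (Big.card hB) fun t ht => ?_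
  ext x y
  have h1 := lin_of_MTC hB hVd hx h hΔ (fun a b => (if b = y then M x a else 0) -
    (if a = x then M b y else 0)) (fun s hs => by
      have h2 := congrFun (congrFun (hM s hs) x) y
      rw [Matrix.mul_apply, Matrix.mul_apply, ← sub_eq_zero] at h2
      simp only [sub_mul, Finset.sum_sub_distrib, ite_mul, zero_mul, Finset.sum_ite_eq',
        Finset.mem_univ, if_true, Finset.sum_ite_irrel, Finset.sum_const_zero]
      rw [← h2]
      congr 1
      exact Finset.sum_congr rfl fun b _ => mul_comm _ _) ht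
  simp only [sub_mul, Finset.sum_sub_distrib, ite_mul, zero_mul, Finset.sum_ite_eq',
    Finset.mem_univ, if_true, Finset.sum_ite_irrel, Finset.sum_const_zero] at h1
  rw [Matrix.mul_apply, Matrix.mul_apply]
  rw [sub_eq_zero] at h1
  rw [h1]
  exact Finset.sum_congr rfl fun b _ => mul_comm _ _

theorem SSr_of_MTC (hB : T.Big c p q) (hVd : ∀ z, z ≠ 0 → (hV z).det ≠ 0)
    (hx : fromBlocks 0 0 0 T.x ∈ LS (SH (hM hV T))) (h : MTC (hM hV T) (tot2 v β))
    (hbd : ∀ s, BD c (β s)) : SSr β := by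
  intro W hW
  -- `W` is stable under the special orthogonal group
  have hst : ∀ t : Matrix (Fin n) (Fin n) ℚ_[ℓ], InSO c T.Q t → ∀ w ∈ W, t *ᵥ w ∈ W := by
    intro t ht w hw
    by_contra hcon
    obtain ⟨φ, hφ, hφW⟩ := Submodule.exists_le_ker_of_notMem hcon
    have hlin : ∀ M : Matrix (Fin n) (Fin n) ℚ_[ℓ],
        φ (M *ᵥ w) = ∑ a, ∑ b, (φ (Pi.single a 1) * w b) * M a b := by
      intro M
      have h5 : M *ᵥ w = ∑ a, (M *ᵥ w) a • (Pi.single a (1 : ℚ_[ℓ]) : Fin n → ℚ_[ℓ]) := by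
        funext x
        simp [Finset.sum_apply, Pi.single_apply]
      rw [h5, map_sum]
      refine Finset.sum_congr rfl fun a _ => ?_
      rw [map_smul, smul_eq_mul, Matrix.mulVec, dotProduct, Finset.sum_mul]
      exact Finset.sum_congr rfl fun b _ => by ring
    have h1 := lin_of_MTC hB hVd hx h (Δ := ⊤) inferInstance
      (fun a b => φ (Pi.single a 1) * w b) (fun s _ => by
        rw [← hlin]
        exact LinearMap.mem_ker.1 (hφW (hW s w hw))) ht
    rw [← hlin] at h1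
    exact hφ h1
  have hcol : ∀ i, W ⊓ col c i = ⊥ ∨ (col c i : Submodule ℚ_[ℓ] (Fin n → ℚ_[ℓ])) ≤ W := by
    intro i
    have h1 := SO_irr (F := ℚ_[ℓ]) T.symm hB.bQ (W74.PG.det_ne T) (Big.card hB i)
      (W := W ⊓ col c i) inf_le_right fun t ht w hw => by
        refine ⟨hst t ht w hw.1, ?_⟩
        intro x hx
        rw [Matrix.mulVec, dotProduct]
        refine Finset.sum_eq_zero fun y _ => ?_
        by_cases hy : c y = i
        · rw [ht.2.1 x y (by rw [hy]; exact hx), zero_mul]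
        · rw [hw.2 y hy, mul_zero]
    rcases h1 with h1 | h1
    · exact Or.inl h1
    · exact Or.inr (inf_eq_right.1 h1)
  -- components
  have hcomp : ∀ i, ¬ ((col c i : Submodule ℚ_[ℓ] (Fin n → ℚ_[ℓ])) ≤ W) → ∀ w ∈ W,
      ∀ a, c a = i → w a = 0 := by
    intro i hi w hw
    have h0 := (hcol i).resolve_right hi
    obtain ⟨u, hu⟩ : ∃ u : Fin n → ℚ_[ℓ], u = fun a => if c a = i then w a else 0 := ⟨_, rfl⟩
    have huc : u ∈ (col c i : Submodule ℚ_[ℓ] (Fin n → ℚ_[ℓ])) := by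
      intro a ha
      rw [hu]
      exact if_neg ha
    have hB' : (T.Q.map (algebraMap ℚ ℚ_[ℓ]))ᵀ = T.Q.map (algebraMap ℚ ℚ_[ℓ]) := by
      rw [← Matrix.transpose_map, T.symm]
    have hQb' : BD c (T.Q.map (algebraMap ℚ ℚ_[ℓ])) := fun x y h => by
      rw [Matrix.map_apply, hB.bQ x y h, map_zero]
    -- products of two reflections fix `w`
    have hfix : ∀ a b : Fin n → ℚ_[ℓ], a ∈ (col c i : Submodule ℚ_[ℓ] (Fin n → ℚ_[ℓ])) →
        b ∈ (col c i : Submodule ℚ_[ℓ] (Fin n → ℚ_[ℓ])) →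
        a ⬝ᵥ T.Q.map (algebraMap ℚ ℚ_[ℓ]) *ᵥ a ≠ 0 → b ⬝ᵥ T.Q.map (algebraMap ℚ ℚ_[ℓ]) *ᵥ b ≠ 0 →
        (rf (T.Q.map (algebraMap ℚ ℚ_[ℓ])) a * rf (T.Q.map (algebraMap ℚ ℚ_[ℓ])) b) *ᵥ w = w := by
      intro a b ha hb ha0 hb0
      have h1 := hst _ (rr_SO T.symm hB.bQ ha hb ha0 hb0) w hw
      have h2 : (rf (T.Q.map (algebraMap ℚ ℚ_[ℓ])) a * rf (T.Q.map (algebraMap ℚ ℚ_[ℓ])) b) *ᵥ w
          - w ∈ W ⊓ col c i := by
        refine ⟨W.sub_mem h1 hw, ?_⟩
        intro x hx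
        rw [Pi.sub_apply, sub_eq_zero, Matrix.mulVec, dotProduct]
        have h3 : ∀ y, (rf (T.Q.map (algebraMap ℚ ℚ_[ℓ])) a *
            rf (T.Q.map (algebraMap ℚ ℚ_[ℓ])) b) x y * w y =
            (1 : Matrix (Fin n) (Fin n) ℚ_[ℓ]) x y * w y := fun y => by
          rw [rr_entry hQb' ha hb x y (fun h => hx h.1)]
        rw [Finset.sum_congr rfl fun y _ => h3 y]
        have h4 := congrFun (Matrix.one_mulVec w) x
        rw [Matrix.mulVec, dotProduct] at h4
        exact h4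
      rw [h0, Submodule.mem_bot, sub_eq_zero] at h2
      exact h2
    by_contra hcon
    push Not at hcon
    obtain ⟨x0, hx0, hwx⟩ := hcon
    have hu0 : u ≠ 0 := by
      intro h
      have := congrFun h x0
      rw [hu] at this
      simp only [hx0, if_true, Pi.zero_apply] at this
      exact hwx this
    have hQd' : (T.Q.map (algebraMap ℚ ℚ_[ℓ])).det ≠ 0 := by
      have h2 : (T.Q.map (algebraMap ℚ ℚ_[ℓ])).det = algebraMap ℚ ℚ_[ℓ] T.Q.det :=
        ((algebraMap ℚ ℚ_[ℓ]).map_det T.Q).symm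
      rw [h2]
      exact (map_ne_zero _).2 (W74.PG.det_ne T)
    generalize T.Q.map (algebraMap ℚ ℚ_[ℓ]) = B at hB' hQb' hQd' hfix
    -- a vector `b` orthogonal to `u`
    obtain ⟨b, hb, hbu, hbb⟩ := exists_orth hB' hQb' hQd' (Big.card hB i) huc hu0
    have hdot : ∀ a ∈ (col c i : Submodule ℚ_[ℓ] (Fin n → ℚ_[ℓ])), (B *ᵥ a) ⬝ᵥ w =
        a ⬝ᵥ B *ᵥ u := by
      intro a ha
      have h1 : (B *ᵥ a) ⬝ᵥ w = (B *ᵥ a) ⬝ᵥ u := by
        rw [dotProduct, dotProduct]
        refine Finset.sum_congr rfl fun x _ => ?_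
        rw [hu]
        by_cases hx : c x = i
        · simp only [hx, if_true]
        · rw [mulVec_col hQb' ha x hx, zero_mul, zero_mul]
      rw [h1, dotProduct_comm, bsymm hB']
    have hkey : ∀ a ∈ (col c i : Submodule ℚ_[ℓ] (Fin n → ℚ_[ℓ])), a ⬝ᵥ B *ᵥ a ≠ 0 →
        a ⬝ᵥ B *ᵥ u = 0 := by
      intro a ha ha0
      have h1 := hfix a b ha hb ha0 hbb
      rw [← Matrix.mulVec_mulVec, rf_mulVec b, hdot b hb, hbu, mul_zero, zero_smul, sub_zero,
        rf_mulVec a, hdot a ha] at h1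
      have h2 : (2 / (a ⬝ᵥ B *ᵥ a) * (a ⬝ᵥ B *ᵥ u)) • a = 0 := by
        have h3 : w - (2 / (a ⬝ᵥ B *ᵥ a) * (a ⬝ᵥ B *ᵥ u)) • a = w - 0 := by rw [h1, sub_zero]
        exact sub_right_injective h3
      rcases smul_eq_zero.1 h2 with h3 | h3
      · rcases mul_eq_zero.1 h3 with h4 | h4
        · exact absurd h4 (div_ne_zero two_ne_zero ha0)
        · exact h4
      · rw [h3, zero_dotProduct] at ha0
        exact absurd rfl ha0
    obtain ⟨x, hxc, hxu⟩ := exists_dual hB' hQb' hQd' huc hu0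
    have hx1 : x ⬝ᵥ B *ᵥ x = 0 := by
      by_contra hne
      have := hkey x hxc hne
      rw [hxu] at this
      exact one_ne_zero this
    have hx2 : (x + b) ⬝ᵥ B *ᵥ (x + b) = 0 := by
      by_contra hne
      have := hkey _ (Submodule.add_mem _ hxc hb) hne
      rw [add_dotProduct, hxu, hbu, add_zero] at this
      exact one_ne_zero this
    have hx3 : (x - b) ⬝ᵥ B *ᵥ (x - b) = 0 := by
      by_contra hne
      have := hkey _ (Submodule.sub_mem _ hxc hb) hne
      rw [sub_dotProduct, hxu, hbu, sub_zero] at this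
      exact one_ne_zero this
    rw [Matrix.mulVec_add, dotProduct_add, add_dotProduct, add_dotProduct, hx1] at hx2
    rw [Matrix.mulVec_sub, dotProduct_sub, sub_dotProduct, sub_dotProduct, hx1] at hx3
    apply hbb
    have h4 : (2 : ℚ_[ℓ]) * (b ⬝ᵥ B *ᵥ b) = 0 := by linear_combination hx2 + hx3
    exact (mul_eq_zero.1 h4).resolve_left two_ne_zero
  -- the complement
  classical
  let S : Fin r → Prop := fun i => (col c i : Submodule ℚ_[ℓ] (Fin n → ℚ_[ℓ])) ≤ W
  let W' : Submodule ℚ_[ℓ] (Fin n → ℚ_[ℓ]) :=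
    { carrier := {w | ∀ a, S (c a) → w a = 0}
      zero_mem' := fun _ _ => rfl
      add_mem' := by
        intro x y hx hy a ha
        rw [Pi.add_apply, hx a ha, hy a ha, add_zero]
      smul_mem' := by
        intro z x hx a ha
        rw [Pi.smul_apply, hx a ha, smul_zero] }
  refine ⟨W', ?_, ?_, ?_⟩
  · intro s w hw a ha
    rw [Matrix.mulVec, dotProduct]
    refine Finset.sum_eq_zero fun b _ => ?_
    by_cases hab : c a = c b
    · rw [hw b (by rw [← hab]; exact ha), mul_zero]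
    · rw [hbd s a b hab, zero_mul]
  · rw [Submodule.disjoint_def]
    intro w hw hw'
    funext a
    by_cases ha : S (c a)
    · exact hw' a ha
    · exact hcomp (c a) ha w hw a rfl
  · rw [codisjoint_iff, Submodule.eq_top_iff']
    intro w
    have h1 : w = (∑ i with S i, fun a => if c a = i then w a else 0) +
        fun a => if S (c a) then 0 else w a := by
      funext a
      rw [Pi.add_apply, Finset.sum_apply]
      by_cases ha : S (c a)
      · rw [if_pos ha, add_zero, Finset.sum_eq_single (c a)]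
        · rw [if_pos rfl]
        · intro i _ hi
          rw [if_neg (Ne.symm hi)]
        · intro hn
          exact absurd (Finset.mem_filter.2 ⟨Finset.mem_univ _, ha⟩) hn
      · rw [if_neg ha, Finset.sum_eq_zero, zero_add]
        intro i hi
        rw [if_neg]
        rintro rfl
        exact ha (Finset.mem_filter.1 hi).2
    rw [h1]
    refine Submodule.add_mem_sup (Submodule.sum_mem _ fun i hi => ?_) ?_
    · refine (Finset.mem_filter.1 hi).2 ?_
      intro a ha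
      exact if_neg ha
    · intro a ha
      exact if_pos ha

/-- **The Mumford-Tate conjecture for direct sums** -/
theorem main2 (hB : T.Big c p q) (hVd : ∀ z, z ≠ 0 → (hV z).det ≠ 0)
    (hx : fromBlocks 0 0 0 T.x ∈ LS (SH (hM hV T))) (hg : GalQ c T.Q β)
    (hSO : Full c β → ∀ t : Matrix (Fin n) (Fin n) (AlgebraicClosure ℚ_[ℓ]), InSO c T.Q t →
      fromBlocks 1 0 0 t ∈ St (IG (tot2 v β) (algebraMap ℚ_[ℓ] (AlgebraicClosure ℚ_[ℓ])))) :
    MTC (hM hV T) (tot2 v β) ↔ MTC hV v ∧ SSr β ∧ Com c β := by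
  obtain ⟨e⟩ := exists_emb ℓ
  constructor
  · intro h
    have hss := SSr_of_MTC hB hVd hx h hg.bd
    have hcom := Com_of_MTC hB hVd hx h
    refine ⟨fun g hgd => ?_, hss, hcom⟩
    have hd : (fromBlocks g 0 0 (1 : Matrix (Fin n) (Fin n) (AlgebraicClosure ℚ_[ℓ]))).det ≠ 0 := by
      rw [fb_det, Matrix.det_one, mul_one]
      exact hgd
    have h1 := h _ hd
    rw [InG0_prod2 hg hB.bQ (hSO (Full_of hss hcom)) e, InMT_iff (c := c) hB hVd hx e hd,
      Matrix.toBlocks_fromBlocks₁₁, Matrix.toBlocks_fromBlocks₂₂] at h1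
    have h2 : InSO c T.Q (1 : Matrix (Fin n) (Fin n) (AlgebraicClosure ℚ_[ℓ])) := InSO_one _
    constructor
    · intro h3
      exact (h1.1 ⟨rfl, h3, h2⟩).2.1
    · intro h3
      exact (h1.2 ⟨rfl, h3, h2⟩).2.1
  · rintro ⟨h, hss, hcom⟩ g hgd
    rw [InG0_prod2 hg hB.bQ (hSO (Full_of hss hcom)) e, InMT_iff (c := c) hB hVd hx e hgd]
    refine and_congr_right fun h1 => and_congr_left fun _ => ?_
    refine h _ fun h2 => hgd ?_
    rw [h1, fb_det, h2, zero_mul]

end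

end Pool.Agent.Y95.ZG
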