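import Pool.Agent.Y95.ZG.Tot

/-!
# The Lie algebra of the monodromy group contains `so(T)`
-/

set_option autoImplicit false
set_option linter.unusedSectionVars false

namespace Pool.Agent.Y95.ZG

open Matrix Pool.Agent.W544.PG Pool.Agent.W216.PG Pool.Agent.Y95.MT Pool.Agent.Y95.ZL Pool.Agent

noncomputable section

theorem big2_skew {p q : ℕ} {Y : Matrix (Fin p) (Fin p) ℂ} (hY : Yᵀ = -Y) :
    (big2 Y : Matrix (I p q) (I p q) ℂ)ᵀ * B0 p q + B0 p q * big2 Y = 0 := by
  unfold big2 B0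
  ext i j
  rcases i with i | i | i <;> rcases j with j | j | j <;>
    simp [Matrix.fromBlocks_transpose, Matrix.transpose_fromCols, Matrix.fromBlocks_multiply,
      Matrix.fromRows_mul, Matrix.mul_fromCols, Matrix.fromRows_mul_fromCols, hY]

/-- an operator of degree two -/
theorem deg2 {n p q : ℕ} (hp2 : 2 ≤ p) {Q D : Matrix (Fin n) (Fin n) ℂ} (hQ : Qᵀ = Q)
    (hQd : Q.det ≠ 0) (hD : D * D * D = D) (hsk : Dᵀ * Q + Q * D = 0)
    (htr : (D * D).trace = 2 * p) (hn : n = q + 2 * p) :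
    ∃ Z : Matrix (Fin n) (Fin n) ℂ, Z ≠ 0 ∧ Zᵀ * Q + Q * Z = 0 ∧ D * Z - Z * D = (2 : ℂ) • Z := by
  obtain ⟨M, M', h1, h2, h3, h4⟩ := coord (p := p) (q := q) hQ hQd hD hsk htr hn
  obtain ⟨i0, i1, hi⟩ : ∃ i0 i1 : Fin p, i0 ≠ i1 :=
    ⟨⟨0, by omega⟩, ⟨1, by omega⟩, by simp [Fin.ext_iff]⟩
  obtain ⟨Y, hY⟩ : ∃ Y : Matrix (Fin p) (Fin p) ℂ, Y = Matrix.single i0 i1 1 -
      Matrix.single i1 i0 1 := ⟨_, rfl⟩
  have hYT : Yᵀ = -Y := by
    rw [hY, Matrix.transpose_sub, Matrix.transpose_single, Matrix.transpose_single, neg_sub]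
  have hYn : Y ≠ 0 := by
    intro h
    have h5 := congrFun (congrFun h i0) i1
    rw [hY] at h5
    simp [Matrix.single, hi, hi.symm] at h5
  have hQM : Q * M = M'ᵀ * B0 p q := by
    rw [← h3]
    calc Q * M = (M * M')ᵀ * Q * M := by rw [h2, Matrix.transpose_one, Matrix.one_mul]
      _ = _ := by rw [Matrix.transpose_mul]; simp only [Matrix.mul_assoc]
  have hMQ : Mᵀ * Q = B0 p q * M' := by
    rw [← h3]
    calc Mᵀ * Q = Mᵀ * Q * (M * M') := by rw [h2, Matrix.mul_one]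
      _ = _ := by simp only [Matrix.mul_assoc]
  have hM'D : M' * D = x0 p q * M' := by
    calc M' * D = M' * D * (M * M') := by rw [h2, Matrix.mul_one]
      _ = M' * (D * M) * M' := by simp only [Matrix.mul_assoc]
      _ = (M' * M) * x0 p q * M' := by rw [h4]; simp only [Matrix.mul_assoc]
      _ = _ := by rw [h1, Matrix.one_mul]
  obtain ⟨E, hE⟩ : ∃ E : Matrix (I p q) (I p q) ℂ, E = big2 Y := ⟨_, rfl⟩
  have hx : x0 p q * E - E * x0 p q = (2 : ℂ) • E := by
    rw [hE, GRD.x0_eq, big2_eq, bl_mul, bl_mul, bl_sub, bl_smul, bl_inj]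
    refine ⟨?_, ?_, ?_, ?_, ?_, ?_, ?_, ?_, ?_⟩ <;> simp [two_smul]
  refine ⟨M * E * M', ?_, ?_, ?_⟩
  · intro h
    apply hYn
    have h5 : E = 0 := by
      calc E = (M' * M) * E * (M' * M) := by
            rw [h1, Matrix.one_mul, Matrix.mul_one]
        _ = M' * (M * E * M') * M := by simp only [Matrix.mul_assoc]
        _ = 0 := by rw [h, Matrix.mul_zero, Matrix.zero_mul]
    rw [hE] at h5
    exact big2_z h5
  · have h5 : (M * E * M')ᵀ * Q = M'ᵀ * (Eᵀ * B0 p q) * M' := by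
      rw [Matrix.transpose_mul, Matrix.transpose_mul]
      calc M'ᵀ * (Eᵀ * Mᵀ) * Q = M'ᵀ * Eᵀ * (Mᵀ * Q) := by
            simp only [Matrix.mul_assoc]
        _ = _ := by rw [hMQ]; simp only [Matrix.mul_assoc]
    have h6 : Q * (M * E * M') = M'ᵀ * (B0 p q * E) * M' := by
      calc Q * (M * E * M') = (Q * M) * E * M' := by simp only [Matrix.mul_assoc]
        _ = _ := by rw [hQM]; simp only [Matrix.mul_assoc]
    rw [h5, h6, ← Matrix.add_mul, ← Matrix.mul_add, hE, big2_skew hYT, Matrix.mul_zero,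
      Matrix.zero_mul]
  · have h5 : D * (M * E * M') = M * (x0 p q * E) * M' := by
      calc D * (M * E * M') = (D * M) * E * M' := by simp only [Matrix.mul_assoc]
        _ = _ := by rw [h4]; simp only [Matrix.mul_assoc]
    have h6 : (M * E * M') * D = M * (E * x0 p q) * M' := by
      calc (M * E * M') * D = M * E * (M' * D) := by simp only [Matrix.mul_assoc]
        _ = _ := by rw [hM'D]; simp only [Matrix.mul_assoc]
    rw [h5, h6, ← Matrix.sub_mul, ← Matrix.mul_sub, hx, Matrix.mul_smul, Matrix.smul_mul]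

variable {n r : ℕ} {T : HS n} {c : Fin n → Fin r} {p q : Fin r → ℕ} {κ : Type} [Fintype κ]
  [DecidableEq κ]

/-- separation of `so(T)` from the first summand -/
theorem star2 (hB : T.Big c p q) {L : Submodule ℂ (Matrix (κ ⊕ Fin n) (κ ⊕ Fin n) ℂ)}
    (hfull : ∀ Z : Matrix (Fin n) (Fin n) ℂ, Zᵀ * mC T.Q + mC T.Q * Z = 0 → BD c Z →
      ∃ y, dg y Z ∈ L)
    (hli : ∀ y Z y' Z', dg y Z ∈ L → dg y' Z' ∈ L →
      dg (y * y' - y' * y) (Z * Z' - Z' * Z) ∈ L)
    {X : Matrix κ κ ℂ} {D : Matrix (Fin n) (Fin n) ℂ}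
    (hD : D * D * D = D) (hDb : BD c D) (hDsk : Dᵀ * mC T.Q + mC T.Q * D = 0)
    (hDt : ∀ i, ∑ a with c a = i, (D * D) a a = 2 * (p i : ℂ)) (hX : dg X D ∈ L)
    (hcase : (∀ y Z, dg y Z ∈ L → y = 0) ∨ ((∀ i, 2 ≤ p i) ∧ ∀ y Z, dg y Z ∈ L →
      X * (X * (X * y - y * X) - (X * y - y * X) * X) -
        (X * (X * y - y * X) - (X * y - y * X) * X) * X = X * y - y * X))
    (Z : Matrix (Fin n) (Fin n) ℂ)
    (hZ : Zᵀ * mC T.Q + mC T.Q * Z = 0) (hZc : BD c Z) : dg 0 Z ∈ L := by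
  rcases hcase with hcase | ⟨hp2, hShim⟩
  · obtain ⟨y, hy⟩ := hfull Z hZ hZc
    rw [← hcase y Z hy]
    exact hy
  choose e T' b using fun i => exists_blk W571.PG.sub hB i
  have hbr : ∀ Z Z' : Matrix (Fin n) (Fin n) ℂ, (∃ y, dg y Z ∈ L) → dg (0 : Matrix κ κ ℂ) Z' ∈ L →
      dg (0 : Matrix κ κ ℂ) (Z * Z' - Z' * Z) ∈ L := by
    rintro Z Z' ⟨V, hV⟩ hZ'
    have h1 := hli _ _ _ _ hV hZ'
    rwa [Matrix.mul_zero, Matrix.zero_mul, sub_zero] at h1
  have hm : ∀ i, 3 ≤ 2 * p i + q i ∧ 2 * p i + q i ≠ 4 := by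
    intro i
    rcases hB.num i with h | ⟨h0, h⟩
    · omega
    · have hlt : 2 * p i < q i := by
        by_contra h'
        rw [Nat.sub_eq_zero_of_le (not_lt.1 h'), zero_mul] at h
        omega
      omega
  have hblock : ∀ (i : Fin r) (y : Matrix (Fin (2 * p i + q i)) (Fin (2 * p i + q i)) ℂ),
      yᵀ * mC (T' i).Q + mC (T' i).Q * y = 0 →
      dg (0 : Matrix κ κ ℂ) (sel (e i) * y * (sel (e i))ᵀ) ∈ L := by
    intro i y hy
    let J : Submodule ℂ (Matrix (Fin (2 * p i + q i)) (Fin (2 * p i + q i)) ℂ) :=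
      { carrier := {y | yᵀ * mC (T' i).Q + mC (T' i).Q * y = 0 ∧
          dg (0 : Matrix κ κ ℂ) (sel (e i) * y * (sel (e i))ᵀ) ∈ L}
        zero_mem' := by
          refine ⟨by simp, ?_⟩
          rw [Matrix.mul_zero, Matrix.zero_mul, dg_zero]
          exact L.zero_mem
        add_mem' := by
          rintro y z ⟨hy1, hy2⟩ ⟨hz1, hz2⟩
          refine ⟨?_, ?_⟩
          · rw [Matrix.transpose_add, Matrix.add_mul, Matrix.mul_add, add_add_add_comm, hy1, hz1,
              add_zero]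
          · rw [Matrix.mul_add, Matrix.add_mul]
            have := L.add_mem hy2 hz2
            rwa [dg_add, add_zero] at this
        smul_mem' := by
          rintro z y ⟨hy1, hy2⟩
          refine ⟨?_, ?_⟩
          · rw [Matrix.transpose_smul, Matrix.smul_mul, Matrix.mul_smul, ← smul_add, hy1,
              smul_zero]
          · rw [Matrix.mul_smul, Matrix.smul_mul]
            have := L.smul_mem z hy2
            rwa [dg_smul, smul_zero] at this }
    have hJmem : ∀ y, y ∈ J ↔ (yᵀ * mC (T' i).Q + mC (T' i).Q * y = 0 ∧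
      dg (0 : Matrix κ κ ℂ) (sel (e i) * y * (sel (e i))ᵀ) ∈ L) := fun y => Iff.rfl
    have h3 : ∀ A B : Matrix (Fin (2 * p i + q i)) (Fin (2 * p i + q i)) ℂ,
        sel (e i) * A * (sel (e i))ᵀ * (sel (e i) * B * (sel (e i))ᵀ) =
        sel (e i) * (A * B) * (sel (e i))ᵀ := by
      intro A B
      calc sel (e i) * A * (sel (e i))ᵀ * (sel (e i) * B * (sel (e i))ᵀ) =
          sel (e i) * A * ((sel (e i))ᵀ * sel (e i)) * B * (sel (e i))ᵀ := by
            simp only [Matrix.mul_assoc]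
        _ = _ := by
            rw [sel_T_sel _ (b i).en.inj, Matrix.mul_one]
            simp only [Matrix.mul_assoc]
    have h1 := simB (T' i) (hm i).1 (hm i).2 J (fun y hy => hy.1) ?_ ?_ y hy
    · exact h1.2
    · intro Z hZ y hy
      rw [hJmem] at hy ⊢
      refine ⟨?_, ?_⟩
      · have h2 : Zᵀ * mC (T' i).Q = -(mC (T' i).Q * Z) := eq_neg_of_add_eq_zero_left hZ
        have h3 : yᵀ * mC (T' i).Q = -(mC (T' i).Q * y) := eq_neg_of_add_eq_zero_left hy.1
        rw [Matrix.transpose_sub, Matrix.transpose_mul, Matrix.transpose_mul, Matrix.sub_mul,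
          Matrix.mul_assoc, Matrix.mul_assoc, h2, h3, Matrix.mul_neg, Matrix.mul_neg,
          ← Matrix.mul_assoc, ← Matrix.mul_assoc, h2, h3, Matrix.mul_sub]
        simp only [Matrix.neg_mul, neg_neg, Matrix.mul_assoc]
        abel
      · have h2 := hbr _ _ (hfull _ ((b i).sel_skew hB hZ) (sel_BD (b i).en Z)) hy.2
        rw [h3, h3, ← Matrix.sub_mul, ← Matrix.mul_sub] at h2
        exact h2
    · have hdet : (mC (T' i).Q).det ≠ 0 := by
        intro h
        apply W74.PG.det_ne (T' i)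
        have h1 : (mC (T' i).Q).det = (((T' i).Q.det : ℚ) : ℂ) := by
          have h2 := (Rat.castHom ℂ).map_det (T' i).Q
          exact h2.symm
        rw [h1] at h
        exact_mod_cast h
      obtain ⟨W, hW0, hWs, hWx⟩ := deg2 (p := p i) (q := q i) (hp2 i)
        (Q := mC (T' i).Q) (D := D.submatrix (e i) (e i)) (by rw [mC_T, (T' i).symm]) hdet
        (by rw [← (b i).en.sub_mul hDb, ← (b i).en.sub_mul hDb, hD])
        ((b i).skew hB hDsk)
        (by rw [← (b i).en.sub_mul hDb, sub_trace (b i).en, hDt])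
        (by ring)
      obtain ⟨Z0, hZ0⟩ : ∃ Z0, Z0 = sel (e i) * W * (sel (e i))ᵀ := ⟨_, rfl⟩
      have hZx : D * Z0 - Z0 * D = (2 : ℂ) • Z0 := by
        have e1 : D * Z0 = sel (e i) * (D.submatrix (e i) (e i) * W) * (sel (e i))ᵀ := by
          rw [hZ0, ← Matrix.mul_assoc, ← Matrix.mul_assoc, (b i).en.mul_sel hDb]
          simp only [Matrix.mul_assoc]
        have e2 : Z0 * D = sel (e i) * (W * D.submatrix (e i) (e i)) * (sel (e i))ᵀ := by
          rw [hZ0, Matrix.mul_assoc, (b i).en.selT_mul hDb]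
          simp only [Matrix.mul_assoc]
        rw [e1, e2, ← Matrix.sub_mul, ← Matrix.mul_sub, hWx, hZ0, Matrix.mul_smul,
          Matrix.smul_mul]
      obtain ⟨V, hV⟩ := hfull Z0 (by rw [hZ0]; exact (b i).sel_skew hB hWs)
        (by rw [hZ0]; exact sel_BD (b i).en W)
      have h2 := hli _ _ _ _ hX hV
      rw [hZx] at h2
      have h3 := hli _ _ _ _ hX h2
      rw [Matrix.mul_smul, Matrix.smul_mul, ← smul_sub, hZx] at h3
      have h4 := hli _ _ _ _ hX h3
      rw [Matrix.mul_smul, Matrix.smul_mul, ← smul_sub,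
        Matrix.mul_smul, Matrix.smul_mul, ← smul_sub, hZx] at h4
      have h5 := L.sub_mem h4 h2
      rw [dg_sub, hShim _ _ hV, sub_self] at h5
      have h7 : (2 : ℂ) • (2 : ℂ) • (2 : ℂ) • Z0 - (2 : ℂ) • Z0 = (6 : ℂ) • Z0 := by module
      rw [h7] at h5
      have h8 := L.smul_mem (1 / 6 : ℂ) h5
      rw [dg_smul, smul_smul, smul_zero] at h8
      norm_num at h8
      refine ⟨W, ?_, hW0⟩
      rw [hJmem, ← hZ0]
      exact ⟨hWs, h8⟩
  have hsum : dg (0 : Matrix κ κ ℂ) Z = ∑ i, dg (0 : Matrix κ κ ℂ)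
      (sel (e i) * Z.submatrix (e i) (e i) * (sel (e i))ᵀ) := by
    conv_lhs => rw [sel_dec (fun i => (b i).en) hZc]
    ext x y
    rw [Matrix.sum_apply]
    rcases x with x | x <;> rcases y with y | y <;> simp [dg, Matrix.sum_apply]
  rw [hsum]
  refine Submodule.sum_mem _ fun i _ => ?_
  apply hblock
  exact (b i).skew hB hZ

/-- a projection has only the weights `-1`, `0`, `1` on operators -/
theorem proj_ad {X : Matrix κ κ ℂ} (hX : X * X = X) (y : Matrix κ κ ℂ) :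
    X * (X * (X * y - y * X) - (X * y - y * X) * X) -
      (X * (X * y - y * X) - (X * y - y * X) * X) * X = X * y - y * X := by
  have h1 : ∀ A : Matrix κ κ ℂ, X * (X * A) = X * A := fun A => by rw [← Matrix.mul_assoc, hX]
  simp only [Matrix.mul_sub, Matrix.sub_mul, Matrix.mul_assoc, hX, h1]
  abel

end

end Pool.Agent.Y95.ZG
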