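import Pool.Agent.Y95.ZG.Grp
import Pool.Agent.W528.ZC.Lin

/-!
# The Lie algebra of the monodromy group of a direct sum
-/

set_option autoImplicit false
set_option linter.unusedSectionVars false

namespace Pool.Agent.Y95.ZG

open MvPolynomial Matrix Pool.Agent.W528.ZC Pool.Agent.Y95.MT Pool.Agent.Y95.ZL Pool.Agent
open Pool.Agent.W544.PG hiding ev

noncomputable section

variable {ℓ : ℕ} [Fact ℓ.Prime] {n r : ℕ} {κ : Type} [Fintype κ] [DecidableEq κ] {Γ : Type}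
  [Group Γ] {c : Fin n → Fin r}

/-- the direct sum of two representations -/
def tot2 (v : Γ →* Matrix κ κ ℚ_[ℓ]) (β : Γ →* Matrix (Fin n) (Fin n) ℚ_[ℓ]) :
    Γ →* Matrix (κ ⊕ Fin n) (κ ⊕ Fin n) ℚ_[ℓ] where
  toFun s := fromBlocks (v s) 0 0 (β s)
  map_one' := by rw [map_one, map_one, Matrix.fromBlocks_one]
  map_mul' s t := by
    rw [map_mul, map_mul, Matrix.fromBlocks_multiply]
    simp

theorem tot2_apply (v : Γ →* Matrix κ κ ℚ_[ℓ]) (β : Γ →* Matrix (Fin n) (Fin n) ℚ_[ℓ]) (s : Γ) :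
    tot2 v β s = fromBlocks (v s) 0 0 (β s) := rfl

variable (c) in
/-- `β` preserves the form and the decomposition. -/
structure GalQ (Q : Matrix (Fin n) (Fin n) ℚ) (β : Γ →* Matrix (Fin n) (Fin n) ℚ_[ℓ]) : Prop where
  form : ∀ s, (β s)ᵀ * Q.map (algebraMap ℚ ℚ_[ℓ]) * β s = Q.map (algebraMap ℚ ℚ_[ℓ])
  bd : ∀ s, BD c (β s)

variable {T : HS n} {β : Γ →* Matrix (Fin n) (Fin n) ℚ_[ℓ]} {v : Γ →* Matrix κ κ ℚ_[ℓ]}

theorem GalQ.formK (h : GalQ c T.Q β) {K : Type} [Field K] [CharZero K] (j : ℚ_[ℓ] →+* K) (s : Γ) :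
    ((β s).map j)ᵀ * T.Q.map (algebraMap ℚ K) * (β s).map j =
      T.Q.map (algebraMap ℚ K) := by
  rw [← map_alg j, ← Matrix.transpose_map, ← Matrix.map_mul, ← Matrix.map_mul, h.form s]

theorem GalQ.bdK (h : GalQ c T.Q β) {K : Type} [Field K] (j : ℚ_[ℓ] →+* K) (s : Γ) :
    BD c ((β s).map j) := by
  intro a b hab
  rw [Matrix.map_apply, h.bd s a b hab, map_zero]

/-- a polynomial relation gives a relation for the Lie algebra -/
theorem lie_rel {ι : Type} [Fintype ι] [DecidableEq ι] {k K : Type} [Field k] [Field K]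
    {ρ : Γ →* Matrix ι ι k} {j : k →+* K} {y : Matrix ι ι K} (hy : y ∈ LS (IG ρ j))
    {f : MvPolynomial (ι × ι) K} (hf : f ∈ IG ρ j) : ev 1 (D y f) = 0 :=
  InZS_one _ (hy f hf)

theorem lie_blk {e : ℚ_[ℓ] →+* ℂ} {y : Matrix (κ ⊕ Fin n) (κ ⊕ Fin n) ℂ}
    (hy : y ∈ LS (IG (tot2 v β) e)) : y = dg y.toBlocks₁₁ y.toBlocks₂₂ := by
  have h1 : ∀ (a : κ) (b : Fin n), y (Sum.inl a) (Sum.inr b) = 0 := by
    intro a b
    have h := lie_rel hy (f := X (Sum.inl a, Sum.inr b)) ⟨⊤, inferInstance, fun s _ => by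
      rw [ev_X, tot2_apply]
      simp⟩
    rwa [ev_D_X, one_mul] at h
  have h2 : ∀ (a : Fin n) (b : κ), y (Sum.inr a) (Sum.inl b) = 0 := by
    intro a b
    have h := lie_rel hy (f := X (Sum.inr a, Sum.inl b)) ⟨⊤, inferInstance, fun s _ => by
      rw [ev_X, tot2_apply]
      simp⟩
    rwa [ev_D_X, one_mul] at h
  ext a b
  rcases a with a | a <;> rcases b with b | b
  · rfl
  · exact h1 a b
  · exact h2 a b
  · rfl

theorem lie_bd (hg : GalQ c T.Q β) {e : ℚ_[ℓ] →+* ℂ} {y : Matrix κ κ ℂ}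
    {Z : Matrix (Fin n) (Fin n) ℂ} (hy : dg y Z ∈ LS (IG (tot2 v β) e)) : BD c Z := by
  intro a b hab
  have h := lie_rel hy (f := X (Sum.inr a, Sum.inr b)) ⟨⊤, inferInstance, fun s _ => by
    rw [ev_X, tot2_apply]
    change e ((β s) a b) = 0
    rw [hg.bd s a b hab, map_zero]⟩
  rw [ev_D_X, one_mul] at h
  exact h

theorem lie_skew (hg : GalQ c T.Q β) {e : ℚ_[ℓ] →+* ℂ} {y : Matrix κ κ ℂ}
    {Z : Matrix (Fin n) (Fin n) ℂ} (hy : dg y Z ∈ LS (IG (tot2 v β) e)) :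
    Zᵀ * mC T.Q + mC T.Q * Z = 0 := by
  ext a b
  obtain ⟨f, hf⟩ : ∃ f : MvPolynomial ((κ ⊕ Fin n) × (κ ⊕ Fin n)) ℂ,
      f = (∑ x, ∑ w, C ((T.Q x w : ℚ) : ℂ) * (X (Sum.inr x, Sum.inr a) *
        X (Sum.inr w, Sum.inr b))) - C ((T.Q a b : ℚ) : ℂ) := ⟨_, rfl⟩
  have h := lie_rel hy (f := f) ⟨⊤, inferInstance, fun s _ => by
    rw [hf, map_sub, map_sum, ev_C]
    have h1 := congrFun (congrFun (hg.formK e s) a) b
    rw [Matrix.map_apply, Matrix.mul_assoc, Matrix.mul_apply] at h1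
    rw [sub_eq_zero, show ((T.Q a b : ℚ) : ℂ) = algebraMap ℚ ℂ (T.Q a b) by simp, ← h1]
    refine Finset.sum_congr rfl fun x _ => ?_
    rw [map_sum, Matrix.mul_apply, Finset.mul_sum]
    refine Finset.sum_congr rfl fun w _ => ?_
    rw [map_mul, map_mul, ev_C, ev_X, ev_X, tot2_apply]
    change ((T.Q x w : ℚ) : ℂ) * (e (β s x a) * e (β s w b)) =
      e (β s x a) * (algebraMap ℚ ℂ (T.Q x w) * e (β s w b))
    simp only [eq_ratCast]
    ring⟩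
  rw [hf, map_sub, map_sub, ev_D_C, sub_zero, map_sum, map_sum] at h
  rw [Matrix.zero_apply, ← h, Matrix.add_apply, Matrix.mul_apply, Matrix.mul_apply]
  have h2 : ∀ x w, ev (1 : Matrix (κ ⊕ Fin n) (κ ⊕ Fin n) ℂ) (D (dg y Z)
      (C ((T.Q x w : ℚ) : ℂ) * (X (Sum.inr x, Sum.inr a) * X (Sum.inr w, Sum.inr b)))) =
      ((T.Q x w : ℚ) : ℂ) * ((if x = a then Z w b else 0) + (if w = b then Z x a else 0)) := by
    intro x w
    rw [ev_D_mul, ev_D_C, mul_zero, add_zero, ev_D_mul, ev_D_X, ev_D_X, ev_X, ev_X, ev_C, one_mul]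
    have e1 : (dg y Z) (Sum.inr w) (Sum.inr b) = Z w b := rfl
    have e2 : (dg y Z) (Sum.inr x) (Sum.inr a) = Z x a := rfl
    simp only [e1, e2, Matrix.one_apply, Sum.inr.injEq, ite_mul, one_mul, zero_mul]
  simp only [map_sum, h2, mul_add, mul_ite, mul_zero, Finset.sum_add_distrib,
    Finset.sum_ite_irrel, Finset.sum_const_zero, Finset.sum_ite_eq', Finset.mem_univ, if_true]
  rw [add_comm]
  congr 1
  refine Finset.sum_congr rfl fun x _ => ?_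
  rw [Matrix.transpose_apply, mC, Matrix.map_apply, mul_comm]

/-- the conjugates -/
theorem lie_conj {e : ℚ_[ℓ] →+* ℂ} {y : Matrix κ κ ℂ} {Z : Matrix (Fin n) (Fin n) ℂ}
    (hy : dg y Z ∈ LS (IG (tot2 v β) e)) (γ : Γ) :
    dg (mp e v γ * y * mp e v γ⁻¹) (mp e β γ * Z * mp e β γ⁻¹) ∈ LS (IG (tot2 v β) e) := by
  have h1 := LS_rho γ hy
  have h2 : ∀ γ, mp e (tot2 v β) γ = dg (mp e v γ) (mp e β γ) := by
    intro γ
    rw [mp_apply, tot2_apply, fb_map]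
    rfl
  rw [h2, h2, dg_mul, dg_mul] at h1
  exact h1

/-- the projection of the Lie algebra to the second summand -/
def prT (v : Γ →* Matrix κ κ ℚ_[ℓ]) (β : Γ →* Matrix (Fin n) (Fin n) ℚ_[ℓ]) (e : ℚ_[ℓ] →+* ℂ) :
    Submodule ℂ (Matrix (Fin n) (Fin n) ℂ) where
  carrier := {Z | ∃ y, dg y Z ∈ LS (IG (tot2 v β) e)}
  zero_mem' := ⟨0, by rw [dg_zero]; exact Submodule.zero_mem _⟩
  add_mem' := by
    rintro a b ⟨y, h⟩ ⟨y', h'⟩
    exact ⟨y + y', by rw [← dg_add]; exact Submodule.add_mem _ h h'⟩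
  smul_mem' := by
    rintro z a ⟨y, h⟩
    exact ⟨z • y, by rw [← dg_smul]; exact Submodule.smul_mem _ z h⟩

variable {p q : Fin r → ℕ}

/-- the projection is everything -/
theorem prT_full (hB : T.Big c p q) (hcop : ∀ i, Nat.Coprime (p i) (q i)) (hg : GalQ c T.Q β)
    {e : ℚ_[ℓ] →+* ℂ} (hfull : Full c (mp e β)) {Xv : Matrix κ κ ℂ} {Dt : Matrix (Fin n) (Fin n) ℂ}
    (hD : Dt * Dt * Dt = Dt) (hDt : ∀ i, ∑ a with c a = i, (Dt * Dt) a a = 2 * (p i : ℂ))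
    (hX : dg Xv Dt ∈ LS (IG (tot2 v β) e)) (Z : Matrix (Fin n) (Fin n) ℂ)
    (hZ : Zᵀ * mC T.Q + mC T.Q * Z = 0) (hZc : BD c Z) : ∃ y, dg y Z ∈ LS (IG (tot2 v β) e) := by
  have h1 : Z ∈ prT v β e := by
    refine galG hB hcop (b := mp e β) (fun s => hg.bdK e s) (fun s => ?_) hfull
      (hh0 := prT v β e) ?_ ?_ ?_ ?_ hD ⟨Xv, hX⟩ hDt Z hZ hZc
    · have h := hg.formK e s
      rw [← mC_eq] at h
      exact h
    · rintro y ⟨w, hw⟩
      exact lie_bd hg hw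
    · rintro y ⟨w, hw⟩
      exact lie_skew hg hw
    · rintro y ⟨w, hw⟩ z ⟨w', hw'⟩
      exact ⟨_, dg_br hw hw'⟩
    · rintro γ y ⟨w, hw⟩
      exact ⟨_, lie_conj hw γ⟩
  exact h1

end

end Pool.Agent.Y95.ZG
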